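import Pool.Agent.H50.RC.Sv3

set_option autoImplicit false
set_option linter.unusedVariables false

/-! # Averaging over shifts; residue classes for an arbitrary set of sites -/

namespace Pool.Agent.H50.A

open Finset Filter Pool.Agent.H50.Cr Pool.Agent.H50.RC

open scoped Classical

/-- integers up to `N` without prime factor in `(v, x]` -/
noncomputable def RR (v : ℕ) (x : ℝ) (N : ℕ) : Finset ℕ :=
  (Finset.Icc 1 N).filter (fun m => ∀ p : ℕ, p.Prime → (p : ℝ) ≤ x → v < p → ¬ p ∣ m)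

lemma mem_RR {v N m : ℕ} {x : ℝ} : m ∈ RR v x N ↔ (1 ≤ m ∧ m ≤ N) ∧
    ∀ p : ℕ, p.Prime → (p : ℝ) ≤ x → v < p → ¬ p ∣ m := by
  unfold RR
  rw [Finset.mem_filter, Finset.mem_Icc]

theorem RR_card (v N : ℕ) (x : ℝ) :
    ((RR v x N).card : ℝ) ≤ ((Sm.S v N).card : ℝ) + N * ∑ q ∈ PR x N, 1 / (q : ℝ) := by
  have hRsub : RR v x N ⊆ Sm.S v N ∪
      (PR x N).biUnion (fun q => (Finset.Icc 1 N).filter (fun k => q ∣ k)) := by
    intro k hk
    rw [mem_RR] at hk
    rw [Finset.mem_union]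
    by_cases hs : ∀ p : ℕ, p.Prime → p ∣ k → p ≤ v
    · left
      exact Sm.mem_S.2 ⟨hk.1, hs⟩
    · right
      push Not at hs
      obtain ⟨q, hq, hqk, hqv⟩ := hs
      rw [Finset.mem_biUnion]
      refine ⟨q, ?_, ?_⟩
      · rw [mem_PR (Nat.cast_nonneg _)]
        refine ⟨hq, ?_, ?_⟩
        · by_contra hc
          push Not at hc
          exact hk.2 q hq hc hqv hqk
        · have := Nat.le_of_dvd (by omega) hqk
          exact_mod_cast this.trans hk.1.2
      · rw [Finset.mem_filter, Finset.mem_Icc]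
        exact ⟨hk.1, hqk⟩
  have h1 := (Finset.card_le_card hRsub).trans (Finset.card_union_le _ _)
  have h2 : ((PR x N).biUnion (fun q => (Finset.Icc 1 N).filter (fun k => q ∣ k))).card ≤
      ∑ q ∈ PR x N, ((Finset.Icc 1 N).filter (fun k => q ∣ k)).card := Finset.card_biUnion_le
  have h3 : ∀ q ∈ PR x N, (((Finset.Icc 1 N).filter (fun k => q ∣ k)).card : ℝ) ≤
      N * (1 / (q : ℝ)) := by
    intro q hq
    have hq0 := ((mem_PR (Nat.cast_nonneg _)).1 hq).1.pos
    have e1 : ((Finset.Icc 1 N).filter (fun k => q ∣ k)).card = N / q := by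
      have : Finset.Icc 1 N = Finset.Ioc 0 N := by
        ext k
        rw [Finset.mem_Icc, Finset.mem_Ioc]
        omega
      rw [this, Nat.Ioc_filter_dvd_card_eq_div]
    rw [e1, mul_one_div]
    exact Nat.cast_div_le
  have h4 : (((RR v x N).card : ℕ) : ℝ) ≤ ((Sm.S v N).card : ℝ) +
      ∑ q ∈ PR x N, (((Finset.Icc 1 N).filter (fun k => q ∣ k)).card : ℝ) := by
    have := h1.trans (Nat.add_le_add_left h2 _)
    exact_mod_cast this
  refine h4.trans ?_
  rw [Finset.mul_sum]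
  exact add_le_add le_rfl (Finset.sum_le_sum h3)

/-- a good shift -/
theorem shift (W R : Finset ℕ) (T : ℕ) (hT : 0 < T) :
    ∃ s : ℕ, s < T ∧ (W.filter (fun w => w + s ∈ R)).card * T ≤ W.card * R.card := by
  have h1 : ∑ s ∈ range T, (W.filter (fun w => w + s ∈ R)).card ≤ W.card * R.card := by
    calc ∑ s ∈ range T, (W.filter (fun w => w + s ∈ R)).card
        = ∑ w ∈ W, ((range T).filter (fun s => w + s ∈ R)).card := by
          simp_rw [Finset.card_filter]
          rw [Finset.sum_comm]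
      _ ≤ ∑ _w ∈ W, R.card := by
          refine Finset.sum_le_sum fun w _ => ?_
          refine Finset.card_le_card_of_injOn (fun s => w + s) ?_ ?_
          · intro s hs
            exact (mem_filter.1 (mem_coe.1 hs)).2
          · intro a _ b _ h
            simpa using h
      _ = W.card * R.card := by simp
  by_contra h
  push Not at h
  have h2 : ∑ s ∈ range T, (W.card * R.card) <
      ∑ s ∈ range T, ((W.filter (fun w => w + s ∈ R)).card * T) :=
    Finset.sum_lt_sum_of_nonempty (by simpa using hT.ne') (fun s hs => h s (mem_range.1 hs))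
  have h5 : ∑ s ∈ range T, ((W.filter (fun w => w + s ∈ R)).card * T) =
      (∑ s ∈ range T, (W.filter (fun w => w + s ∈ R)).card) * T := by rw [Finset.sum_mul]
  have h6 : ∑ s ∈ range T, (W.card * R.card) = W.card * R.card * T := by
    rw [Finset.sum_const, Finset.card_range, smul_eq_mul]
    ring
  rw [h5, h6] at h2
  have h3 := Nat.mul_le_mul_right T h1
  exact absurd h2 (not_lt.2 h3)

/-- the product over the primes up to `v` which do not divide `q` -/
lemma prod_coprime (q v : ℕ) (hq : 0 < q) (hqv : q ≤ v) :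
    (∏ p ∈ (Pz v).filter (fun p => ¬ p ∣ q), (1 - 1 / (p : ℝ))) * q.totient =
      q * ∏ p ∈ Pz v, (1 - 1 / (p : ℝ)) := by
  have h1 := Finset.prod_filter_mul_prod_filter_not (Pz v) (fun p => p ∣ q)
    (fun p => (1 - 1 / (p : ℝ)))
  have h2 : (Pz v).filter (fun p => p ∣ q) = q.primeFactors := by
    ext p
    rw [Finset.mem_filter, mem_Pz, Nat.mem_primeFactors]
    constructor
    · rintro ⟨⟨h1, _⟩, h3⟩
      exact ⟨h1, h3, hq.ne'⟩
    · rintro ⟨h1, h2, _⟩
      exact ⟨⟨h1, (Nat.le_of_dvd hq h2).trans hqv⟩, h2⟩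
  have h3 : (q.totient : ℝ) = q * ∏ p ∈ q.primeFactors, (1 - 1 / (p : ℝ)) := by
    have h4 := Nat.totient_eq_mul_prod_factors q
    have h5 : ((q.totient : ℚ) : ℝ) = ((q * ∏ p ∈ q.primeFactors, (1 - (p : ℚ)⁻¹) : ℚ) : ℝ) := by
      rw [h4]
    push_cast at h5
    rw [h5]
    congr 1
    refine Finset.prod_congr rfl fun p _ => ?_
    rw [one_div]
  rw [h2] at h1
  rw [← h1, h3]
  ring

lemma class_of_dvd (p s k : ℕ) (hp : 0 < p) (h : p ∣ k + s) : k ≡ p - s % p [MOD p] := by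
  have h1 : k + s ≡ 0 [MOD p] := (Nat.modEq_zero_iff_dvd).2 h
  have h2 : (p - s % p) + s ≡ 0 [MOD p] := by
    rw [Nat.modEq_zero_iff_dvd]
    have h3 := Nat.mod_lt s hp
    have h4 := Nat.div_add_mod s p
    have h5 : (p - s % p) + s = p * (1 + s / p) := by
      rw [mul_add, mul_one]
      omega
    rw [h5]
    exact Dvd.intro _ rfl
  exact Nat.ModEq.add_right_cancel' s (h1.trans h2.symm)

/-- the residue classes modulo the primes up to `x` which do not divide `q` -/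
theorem classesQ (q : ℕ) (hq : 0 < q) (v T N : ℕ) (x : ℝ) (hvx : (v : ℝ) ≤ x)
    (hqv : q ≤ v) (hT : 0 < T) (W : Finset ℕ) (hW : ∀ w ∈ W, 1 ≤ w ∧ w + T ≤ N + 1) :
    ∃ b : ℕ → ℕ, ((W.filter (fun k => ∀ p : ℕ, p.Prime → (p : ℝ) ≤ x → ¬ p ∣ q →
        ¬ k ≡ b p [MOD p])).card : ℝ) * T * q.totient ≤
      W.card * (RR v x N).card * q * ∏ p ∈ Pz v, (1 - 1 / (p : ℝ)) := by
  obtain ⟨s, hs, hsc⟩ := shift W (RR v x N) T hT
  set R : Finset ℕ := W.filter (fun w => w + s ∈ RR v x N) with hR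
  obtain ⟨b, hb1, hb2⟩ := Pool.Agent.H50.SC.greedy_all ((Pz v).filter (fun p => ¬ p ∣ q))
    (fun p hp => (mem_Pz.1 (mem_filter.1 hp).1).1) R
  refine ⟨fun p => if p ≤ v then b p else p - s % p, ?_⟩
  have hsub : W.filter (fun k => ∀ p : ℕ, p.Prime → (p : ℝ) ≤ x → ¬ p ∣ q →
        ¬ k ≡ (if p ≤ v then b p else p - s % p) [MOD p]) ⊆
      R.filter (fun k => ∀ p ∈ (Pz v).filter (fun p => ¬ p ∣ q), ¬ k ≡ b p [MOD p]) := by
    intro k hk
    rw [Finset.mem_filter] at hk
    rw [Finset.mem_filter, hR, Finset.mem_filter]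
    refine ⟨⟨hk.1, ?_⟩, fun p hp => ?_⟩
    · obtain ⟨h1, h2⟩ := hW k hk.1
      refine mem_RR.2 ⟨⟨by omega, by omega⟩, fun p hp hpx hpv hpk => ?_⟩
      have hpq : ¬ p ∣ q := fun h => by
        have := Nat.le_of_dvd hq h
        omega
      have h1 := hk.2 p hp hpx hpq
      rw [if_neg (by omega)] at h1
      exact h1 (class_of_dvd p s k hp.pos hpk)
    · rw [Finset.mem_filter] at hp
      obtain ⟨hpp, hpv⟩ := mem_Pz.1 hp.1
      have hpv' : (p : ℝ) ≤ v := by exact_mod_cast hpv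
      have h1 := hk.2 p hpp (hpv'.trans hvx) hp.2
      rwa [if_pos hpv] at h1
  have h1 : ((W.filter (fun k => ∀ p : ℕ, p.Prime → (p : ℝ) ≤ x → ¬ p ∣ q →
        ¬ k ≡ (if p ≤ v then b p else p - s % p) [MOD p])).card : ℝ) ≤
      R.card * ∏ p ∈ (Pz v).filter (fun p => ¬ p ∣ q), (1 - 1 / (p : ℝ)) :=
    (Nat.cast_le.2 (Finset.card_le_card hsub)).trans hb2
  have h2 : (R.card : ℝ) * T ≤ W.card * (RR v x N).card := by exact_mod_cast hsc
  have h3 : 0 ≤ ∏ p ∈ (Pz v).filter (fun p => ¬ p ∣ q), (1 - 1 / (p : ℝ)) := by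
    refine Finset.prod_nonneg fun p hp => ?_
    have h1 := (mem_Pz.1 (mem_filter.1 hp).1).1
    exact (one_sub_inv_pos h1).le
  have h4 := prod_coprime q v hq hqv
  have hφ : (0:ℝ) ≤ q.totient := Nat.cast_nonneg _
  have hT' : (0:ℝ) ≤ T := Nat.cast_nonneg _
  calc ((W.filter (fun k => ∀ p : ℕ, p.Prime → (p : ℝ) ≤ x → ¬ p ∣ q →
        ¬ k ≡ (if p ≤ v then b p else p - s % p) [MOD p])).card : ℝ) * T * q.totient
      ≤ (R.card * ∏ p ∈ (Pz v).filter (fun p => ¬ p ∣ q), (1 - 1 / (p : ℝ))) * T * q.totient := by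
        gcongr
    _ = (R.card * T) * ((∏ p ∈ (Pz v).filter (fun p => ¬ p ∣ q), (1 - 1 / (p : ℝ))) *
          q.totient) := by ring
    _ ≤ (W.card * (RR v x N).card) * ((∏ p ∈ (Pz v).filter (fun p => ¬ p ∣ q),
          (1 - 1 / (p : ℝ))) * q.totient) := by
        apply mul_le_mul_of_nonneg_right h2
        positivity
    _ = W.card * (RR v x N).card * q * ∏ p ∈ Pz v, (1 - 1 / (p : ℝ)) := by
        rw [h4]
        ring

end Pool.Agent.H50.A
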