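import Pool.Agent.H50.A.Freq

set_option autoImplicit false
set_option linter.unusedVariables false

/-! # The covering step with prescribed classes and prescribed survivors -/

namespace Pool.Agent.H50.A

open Finset Filter Pool.Agent.H50.Cr Pool.Agent.H50.RC Pool.Agent.H50.TL

open scoped Classical

set_option maxHeartbeats 4000000 in
/-- the covering step: `b` are the classes for the small primes, `U` the survivors -/
theorem freq_core (q : ℕ) (hq : 0 < q) (A ε : ℝ) (hA : 0 < A) (hε : 0 < ε) (hε1 : ε < 1) :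
    ∀ᶠ X : ℝ in atTop, ∀ u w : ℝ, 0 ≤ u → 0 ≤ w →
      u + w ≤ ε / 400 * Real.log (Real.log X) →
      ∀ (r : ℕ) (Z U : Finset ℕ) (b : ℕ → ℕ),
      (∀ z ∈ Z, 1 ≤ z ∧ (z : ℝ) ≤ Real.exp u * Real.log X) → U ⊆ Z →
      (U.card : ℝ) ≤ (1 - ε / 4) / 2 * Real.log X * Real.log (Real.log X) * WW (Real.log X) →
      (∀ z ∈ Z, z ∈ U ∨ ¬ q.Coprime (r + z) ∨ ∃ p : ℕ, p.Prime ∧
        (p : ℝ) ≤ ε / 2400 * Real.log X * Real.exp (-w) ∧ ¬ p ∣ q ∧ z ≡ b p [MOD p]) →
      ∀ x : ℝ, 0 ≤ x → x ≤ Real.exp ((Real.log X) ^ A) →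
      X * Real.exp (-(ε * Real.exp (-w) * Real.log X)) ≤
        (((Finset.Ioc ⌊x⌋₊ ⌊x + X⌋₊).filter (fun n => n ≡ r [MOD q] ∧ ∀ z ∈ Z, ∃ p : ℕ,
          p.Prime ∧ (p : ℝ) ≤ Real.exp (Real.log X / Real.log (Real.log X)) ∧ p ∣ n + z ∧
            p < n + z)).card : ℝ) := by
  obtain ⟨e, he⟩ : ∃ e : ℝ, e = ε / 200 := ⟨_, rfl⟩
  have he0 : 0 < e := by rw [he]; positivity
  have he1 : e < 1 / 200 := by rw [he]; linarith
  have hpar := param_freqU ε e hε hε1 he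
  obtain ⟨ε₁, hε₁⟩ : ∃ ε₁ : ℝ, ε₁ = e / 12 := ⟨_, rfl⟩
  have hε₁' : ε / 2400 = ε₁ := by rw [hε₁, he]; ring
  have he2 : ε / 400 = e / 2 := by rw [he]; ring
  rw [hε₁', he2]
  have hε₁0 : 0 < ε₁ := by rw [hε₁]; positivity
  have hε₁1 : ε₁ ≤ 1 := by rw [hε₁]; linarith
  have ev := (cover_cnt e e 1 (A + 2) ((1 - ε / 4) / 2) he0 he0 (by linarith) (by linarith)
    (by linarith) one_pos (by linarith) (by linarith) (by linarith) hpar).and
    (facts_freqU q e ε A he0 (by linarith) hε hA)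
  filter_upwards [Real.tendsto_log_atTop.eventually ev, eventually_ge_atTop (1:ℝ)] with X hX hX1
  obtain ⟨hcov, f1, f2, f3, f4, f5, f6⟩ := hX
  intro u w hu hw htau' r Z U b hZ₀ hUZ hb hbc x hx hxA
  have hX0 : 0 < X := by linarith
  obtain ⟨L, hL⟩ : ∃ L : ℝ, L = Real.log X := ⟨_, rfl⟩
  have hXL : X = Real.exp L := by rw [hL, Real.exp_log hX0]
  rw [← hL] at hcov f1 f2 f3 f4 f5 f6 htau' hZ₀ hb hbc hxA ⊢
  have hL0 : 0 < L := by linarith
  obtain ⟨l, hl⟩ : ∃ l : ℝ, l = Real.log L := ⟨_, rfl⟩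
  rw [← hl] at hcov f2 f3 f6 htau' hb ⊢
  have hl0 : 0 < l := by linarith
  have hLl' : L = Real.exp l := by rw [hl, Real.exp_log hL0]
  obtain ⟨y, hy⟩ : ∃ y : ℝ, y = ε₁ * L * Real.exp (-w) := ⟨_, rfl⟩
  rw [← hy] at hbc
  have hy0 : 0 < y := by rw [hy]; positivity
  have hew : Real.exp (-w) ≤ 1 := Real.exp_le_one_iff.2 (by linarith)
  have hyL1 : y ≤ ε₁ * L := by
    rw [hy]
    have := mul_le_mul_of_nonneg_left hew (show 0 ≤ ε₁ * L by positivity)
    linarith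
  have hyL : y ≤ L := by
    have : ε₁ * L ≤ 1 * L := mul_le_mul_of_nonneg_right hε₁1 hL0.le
    linarith
  have hfloor : ∀ p : ℕ, p ≤ ⌊y⌋₊ ↔ (p : ℝ) ≤ y := fun p => Nat.le_floor_iff hy0.le
  obtain ⟨P, b0, hPpos, hPle, hPp, hPd, hb0r, hb0'⟩ :=
    exists_crtQ q ⌊y⌋₊ hq r (fun p => (p - 1) * b p)
  have hP1 : (P : ℝ) ≤ Real.exp (3 / 2 * y) := by
    have h1 : (P : ℝ) ≤ (primorial ⌊y⌋₊ : ℝ) := by exact_mod_cast hPle
    exact h1.trans (primorial_le_exp y hy0.le)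
  have hqP : 0 < q * P := Nat.mul_pos hq hPpos
  have hq0 : (0:ℝ) < q := by exact_mod_cast hq
  -- sizes
  have hLA0 : 0 < L ^ A := Real.rpow_pos_of_pos hL0 _
  have hLA1 : 1 ≤ L ^ A := Real.one_le_rpow (by linarith) hA.le
  have hLA2 : L ^ (A + 2) = L ^ A * L ^ 2 := by
    rw [Real.rpow_add hL0]
    congr 1
    rw [← Real.rpow_natCast]
    norm_num
  have hE1000 : 1000 ≤ Real.exp L := by
    have := Real.add_one_le_exp L
    linarith
  have hEbig := n_half L f1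
  have hLl : L / l ≤ L / 2 := div_le_div_of_nonneg_left hL0.le (by norm_num) f2
  have hELl : 8 * Real.exp (L / l) + 8 ≤ X := by
    have := Real.exp_le_exp.2 hLl
    rw [hXL]
    linarith
  have hyE : L ≤ Real.exp (L / l) := by
    have h1 : l ≤ L / l := by
      rw [le_div_iff₀ hl0]
      linarith
    calc L = Real.exp l := hLl'
      _ ≤ Real.exp (L / l) := Real.exp_le_exp.2 h1
  obtain ⟨h, hh⟩ : ∃ h : ℝ, h = Real.exp u * L := ⟨_, rfl⟩
  rw [← hh] at hZ₀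
  have heu : 1 ≤ Real.exp u := Real.one_le_exp hu
  have hh1 : 1 ≤ h := by
    rw [hh]
    have := mul_le_mul_of_nonneg_right heu hL0.le
    linarith
  have hhL2 : h ≤ L ^ 2 := n_hL2 L l u h e hL0 hl0 hLl' he1 (by linarith) hh
  have hhA : h ≤ L ^ (A + 2) := by
    rw [hLA2]
    have : 1 * L ^ 2 ≤ L ^ A * L ^ 2 := mul_le_mul_of_nonneg_right hLA1 (by positivity)
    linarith
  obtain ⟨A₁, hA₁⟩ : ∃ A₁ : ℤ, A₁ = ⌊x + X / 8⌋ := ⟨_, rfl⟩
  obtain ⟨B₁, hB₁⟩ : ∃ B₁ : ℤ, B₁ = ⌊x + X / 2⌋ := ⟨_, rfl⟩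
  have hAB : A₁ ≤ B₁ := by
    rw [hA₁, hB₁]
    exact Int.floor_le_floor (by linarith)
  have hA1 : (A₁ : ℝ) ≤ x + X / 8 := by rw [hA₁]; exact Int.floor_le _
  have hA2 : x + X / 8 < (A₁ : ℝ) + 1 := by rw [hA₁]; exact Int.lt_floor_add_one _
  have hB1 : (B₁ : ℝ) ≤ x + X / 2 := by rw [hB₁]; exact Int.floor_le _
  have hB2 : x + X / 2 < (B₁ : ℝ) + 1 := by rw [hB₁]; exact Int.lt_floor_add_one _
  have hX1000 : 1000 ≤ X := by rw [hXL]; exact hE1000
  have hA0 : 0 ≤ A₁ := by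
    have : (0:ℝ) ≤ x + X / 8 := by linarith
    rw [hA₁]
    exact Int.floor_nonneg.2 this
  have hhX : h ≤ X / 8 := n_hX L h X f1 hXL hhL2
  have hBh : (B₁ : ℝ) + h ≤ Real.exp (L ^ (A + 2)) := n_BH L A X x B₁ h f1 hXL hA hxA hB1 hhX
  obtain ⟨N, hNdef⟩ : ∃ N : ℝ, N = ((B₁ : ℝ) - A₁) / ((q * P : ℕ) : ℝ) := ⟨_, rfl⟩
  have hN1 : X / 4 * Real.exp (-(3 / 2 * y)) * Real.exp (-(Real.log q)) ≤ N := by
    rw [hNdef, le_div_iff₀ (by exact_mod_cast hqP)]
    push_cast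
    have e1 : Real.exp (-(Real.log q)) * q = 1 := by
      rw [Real.exp_neg, Real.exp_log hq0]
      field_simp
    calc X / 4 * Real.exp (-(3 / 2 * y)) * Real.exp (-(Real.log q)) * (q * P)
        = X / 4 * Real.exp (-(3 / 2 * y)) * (Real.exp (-(Real.log q)) * q) * P := by ring
      _ = X / 4 * Real.exp (-(3 / 2 * y)) * P := by rw [e1, mul_one]
      _ ≤ X / 4 * Real.exp (-(3 / 2 * y)) * Real.exp (3 / 2 * y) :=
          mul_le_mul_of_nonneg_left hP1 (by positivity)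
      _ = X / 4 := by
          rw [mul_assoc, ← Real.exp_add, neg_add_cancel, Real.exp_zero, mul_one]
      _ ≤ (B₁ : ℝ) - A₁ := by linarith
  have hN2 : Real.exp ((1 - e / 4) * L) ≤ N := by
    refine le_trans ?_ hN1
    apply n_N2 L e X y (Real.log q) hXL _ f4
    rw [hε₁] at hyL1
    linarith
  have hU1 : ∀ k ∈ U, 1 ≤ k ∧ (k : ℝ) ≤ h := fun k hk => hZ₀ k (hUZ hk)
  have hmain := hcov h hh1 hhA U hU1 (by rw [Real.rpow_one]; exact hb) (q * P) hqP (by
      intro p hp hpP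
      rw [Real.rpow_one]
      rcases (Nat.Prime.dvd_mul hp).1 hpP with h1 | h1
      · have h2 : (p : ℝ) ≤ q := by exact_mod_cast Nat.le_of_dvd hq h1
        linarith
      · have := (hfloor p).1 (hPp p hp h1)
        linarith) (b0 : ℤ) A₁ B₁ hA0 hAB hBh (by rw [← hNdef]; exact hN2)
  rw [← hNdef] at hmain
  refine last_numU X L l w ε e A N _ y (Real.log q) f1 hXL he0 (by linarith) hLl' (by linarith) hε
    hl0.le (Real.log_natCast_nonneg q) f6 hA (by
      have h1 : 3 / 2 * ε₁ ≤ ε / 2 := by rw [hε₁, he]; linarith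
      rw [hy]
      have := mul_le_mul_of_nonneg_right h1 (show 0 ≤ L * Real.exp (-w) by positivity)
      linarith) hN1 (hmain.trans ?_)
  apply mul_le_mul_of_nonneg_left _ (Real.exp_pos _).le
  apply Nat.cast_le.2
  apply Finset.card_le_card_of_injOn Int.toNat
  · intro n hn
    rw [Finset.mem_coe, Finset.mem_filter, Finset.mem_Ioc] at hn
    obtain ⟨⟨hn1, hn2⟩, hn3, hn4⟩ := hn
    have hnpos : 0 ≤ n := by linarith
    obtain ⟨m, rfl⟩ := Int.eq_ofNat_of_zero_le hnpos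
    rw [Int.toNat_natCast]
    have hm1 : (A₁ : ℝ) + 1 ≤ m := by exact_mod_cast hn1
    have hm2 : (m : ℝ) ≤ B₁ := by exact_mod_cast hn2
    have hmr : m ≡ r [MOD q] := by
      have h1 : (q : ℤ) ∣ (m : ℤ) - (b0 : ℤ) := by
        refine dvd_trans ?_ hn3
        push_cast
        exact Dvd.intro _ rfl
      have h2 : m ≡ b0 [MOD q] := by
        have := (Int.modEq_iff_dvd.2 h1)
        exact ((Int.natCast_modEq_iff).1 this).symm
      exact h2.trans hb0r
    rw [Finset.mem_coe, Finset.mem_filter, Finset.mem_Ioc]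
    refine ⟨⟨?_, ?_⟩, hmr, ?_⟩
    · rw [Nat.floor_lt hx]
      linarith
    · apply Nat.le_floor
      linarith
    · intro k hk
      have hpm : ∀ p : ℕ, (p : ℝ) ≤ Real.exp (L / l) → p < m + k := by
        intro p hp
        have : (p : ℝ) < m + k := by
          have h3 : (0 : ℝ) ≤ k := Nat.cast_nonneg _
          linarith
        exact_mod_cast this
      rcases hbc k hk with hkU | hkc | hkb
      · obtain ⟨p, hp, hp1, hp2, hp3⟩ := hn4 k hkU
        have hp4 : (p : ℝ) ≤ Real.exp (L / l) := by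
          exact hp2.trans (Real.exp_le_exp.2 (n_e2 L l e he0 he1 hL0 hl0))
        refine ⟨p, hp, hp4, ?_, hpm p hp4⟩
        have h2 : (p : ℤ) ∣ ((m + k : ℕ) : ℤ) := by
          push_cast
          exact hp3
        exact_mod_cast h2
      · obtain ⟨p, hp, hpq, hpk⟩ := Nat.Prime.not_coprime_iff_dvd.1 hkc
        have hpL : (p : ℝ) ≤ Real.exp (L / l) := by
          have h2 : (p : ℝ) ≤ q := by exact_mod_cast Nat.le_of_dvd hq hpq
          linarith
        refine ⟨p, hp, hpL, ?_, hpm p hpL⟩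
        have h1 : m + k ≡ r + k [MOD p] := Nat.ModEq.add_right k (hmr.of_dvd hpq)
        exact (h1.dvd_iff dvd_rfl).2 hpk
      · obtain ⟨p, hp, hpy, hpq, hkp⟩ := hkb
        have hpL : (p : ℝ) ≤ Real.exp (L / l) := by linarith
        refine ⟨p, hp, hpL, ?_, hpm p hpL⟩
        have h1 : b0 + k ≡ (p - 1) * b p + b p [MOD p] :=
          Nat.ModEq.add (hb0' p hp ((hfloor p).2 hpy) hpq) hkp
        have h2 : (p - 1) * b p + b p = p * b p := by
          have := hp.one_lt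
          obtain ⟨p', hp'⟩ : ∃ p', p = p' + 1 := ⟨p - 1, by omega⟩
          rw [hp']
          simp only [Nat.add_sub_cancel]
          ring
        rw [h2] at h1
        have h3 : p ∣ b0 + k := (Nat.modEq_zero_iff_dvd).1
          (h1.trans ((Nat.modEq_zero_iff_dvd).2 (Dvd.intro _ rfl)))
        have h4 : (p : ℤ) ∣ (m : ℤ) - (b0 : ℤ) := by
          refine dvd_trans ?_ hn3
          have : p ∣ q * P := Dvd.dvd.mul_left (hPd p hp ((hfloor p).2 hpy) hpq) q
          exact_mod_cast this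
        have h5 : (p : ℤ) ∣ ((b0 + k : ℕ) : ℤ) := by exact_mod_cast h3
        have h6 : (p : ℤ) ∣ ((m + k : ℕ) : ℤ) := by
          have h7 := dvd_add h4 h5
          have h8 : (m : ℤ) - (b0 : ℤ) + ((b0 + k : ℕ) : ℤ) = ((m + k : ℕ) : ℤ) := by
            push_cast
            ring
          rwa [h8] at h7
        exact_mod_cast h6
  · intro n hn n' hn' hnn
    have h1 : 0 ≤ n := by
      have := (Finset.mem_Ioc.1 (Finset.mem_filter.1 (Finset.mem_coe.1 hn)).1).1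
      linarith
    have h2 : 0 ≤ n' := by
      have := (Finset.mem_Ioc.1 (Finset.mem_filter.1 (Finset.mem_coe.1 hn')).1).1
      linarith
    have h3 := Int.toNat_of_nonneg h1
    have h4 := Int.toNat_of_nonneg h2
    rw [← h3, ← h4]
    exact_mod_cast hnn

end Pool.Agent.H50.A
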