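import Pool.Agent.H50.A.Sv
import Pool.Agent.H50.RC.Fin
import Pool.Agent.H50.TL.TL9

set_option autoImplicit false
set_option linter.unusedVariables false

/-! # Prime-free translates of an arbitrary set of sites -/

namespace Pool.Agent.H50.A

open Finset Filter Pool.Agent.H50.Cr Pool.Agent.H50.RC

open scoped Classical

theorem exists_crtQ (q n : ℕ) (hq : 0 < q) (r : ℕ) (a : ℕ → ℕ) :
    ∃ P b0 : ℕ, 0 < P ∧ P ≤ primorial n ∧ (∀ p : ℕ, p.Prime → p ∣ P → p ≤ n) ∧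
      (∀ p : ℕ, p.Prime → p ≤ n → ¬ p ∣ q → p ∣ P) ∧ b0 ≡ r [MOD q] ∧
      ∀ p : ℕ, p.Prime → p ≤ n → ¬ p ∣ q → b0 ≡ a p [MOD p] := by
  obtain ⟨b1, hb1, hb2⟩ := exists_crt n a
  set S : Finset ℕ := (range (n + 1)).filter (fun p => p.Prime ∧ ¬ p ∣ q) with hS
  set P : ℕ := ∏ p ∈ S, p with hP
  have hmem : ∀ p, p ∈ S ↔ p ≤ n ∧ p.Prime ∧ ¬ p ∣ q := by
    intro p
    rw [hS, Finset.mem_filter, Finset.mem_range]
    constructor
    · rintro ⟨h1, h2⟩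
      exact ⟨by omega, h2⟩
    · rintro ⟨h1, h2⟩
      exact ⟨by omega, h2⟩
  have hPpos : 0 < P := Finset.prod_pos fun p hp => ((hmem p).1 hp).2.1.pos
  have hPdvd : P ∣ primorial n := by
    unfold primorial
    refine Finset.prod_dvd_prod_of_subset _ _ _ ?_
    intro p hp
    have h1 := (hmem p).1 hp
    rw [Finset.mem_filter, Finset.mem_range]
    exact ⟨by omega, h1.2.1⟩
  have hdvd : ∀ p : ℕ, p.Prime → p ≤ n → ¬ p ∣ q → p ∣ P := fun p hp h1 h2 =>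
    Finset.dvd_prod_of_mem _ ((hmem p).2 ⟨h1, hp, h2⟩)
  have hco : Nat.Coprime q P := by
    rw [hP]
    refine Nat.Coprime.prod_right fun p hp => ?_
    have h1 := (hmem p).1 hp
    exact ((Nat.Prime.coprime_iff_not_dvd h1.2.1).2 h1.2.2).symm
  obtain ⟨b0, hb01, hb02⟩ := Nat.chineseRemainder hco r b1
  refine ⟨P, b0, hPpos, Nat.le_of_dvd (primorial_pos _) hPdvd, ?_, hdvd, hb01, ?_⟩
  · intro p hp hpP
    rw [hP, Prime.dvd_finsetProd_iff hp.prime] at hpP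
    obtain ⟨p', hp', h⟩ := hpP
    have h1 := (hmem p').1 hp'
    have h2 := (Nat.prime_dvd_prime_iff_eq hp h1.2.1).1 h
    omega
  · intro p hp hpn hpq
    exact (hb02.of_dvd (hdvd p hp hpn hpq)).trans (hb2 p hp hpn)

/-- the eventual facts for the last step, `L = log X` -/
lemma facts_runQ (q : ℕ) (C θ : ℝ) (hC : 1 ≤ C) (hθ : 0 < θ) (hθ1 : θ < 1) :
    ∀ᶠ L : ℝ in atTop, 100 ≤ L ∧ L ≤ fL L ∧ C * fL L ≤ L ^ 2 ∧
      Real.exp ((1 - θ / 4) * L) + 1 ≤ Real.exp L / 8 ∧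
      L ^ 2 ≤ Real.exp L / 8 ∧ 8 * Real.exp (L / 4) + 8 < Real.exp L ∧
      (q : ℝ) ≤ Real.exp (3 / 8 * θ * L) ∧ (q : ℝ) ≤ L ∧ L ≤ Real.exp (L / 4) := by
  have T0 : Tendsto (fun L : ℝ => L) atTop atTop := tendsto_id
  have T1 : Tendsto (fun L : ℝ => Real.log L) atTop atTop := Real.tendsto_log_atTop
  have g1 := (Real.isLittleO_pow_log_id_atTop (n := 2)).def (show (0 : ℝ) < 1 / C by positivity)
  filter_upwards [facts_fin (1 / 2) θ (by norm_num) (by norm_num) hθ hθ1, g1,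
    T0.eventually_ge_atTop (Real.log q / (3 / 8 * θ)), T0.eventually_ge_atTop (q:ℝ),
    T1.eventually (Pool.Agent.H50.SC.ev_log (one_pos (α := ℝ))),
    T1.eventually (eventually_ge_atTop (0:ℝ))] with L a1 a2 a3 a4 a5 a6
  obtain ⟨b1, b2, b3, b4, b5, b6, b7, b8, b9, b10⟩ := a1
  have hL0 : 0 < L := by linarith
  refine ⟨b1, ?_, ?_, b7, b8, b9, ?_, a4, ?_⟩
  · unfold fL
    have h1 : 0 ≤ L * (Real.log L) ^ 2 * Real.log (Real.log (Real.log L)) /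
        (Real.log (Real.log L)) ^ 2 := by positivity
    linarith
  · simp only [id, Real.norm_eq_abs, abs_of_nonneg (sq_nonneg (Real.log L)),
      abs_of_nonneg hL0.le] at a2
    have h2 : Real.log (Real.log (Real.log L)) ≤ (Real.log (Real.log L)) ^ 2 := by
      have h3 := Real.log_le_sub_one_of_pos (show 0 < Real.log (Real.log L) by linarith)
      nlinarith
    have h4 : fL L ≤ L * (Real.log L) ^ 2 := by
      unfold fL
      rw [div_le_iff₀ (by positivity)]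
      exact mul_le_mul_of_nonneg_left h2 (by positivity)
    have h5 : (Real.log L) ^ 2 * C ≤ L := by
      rw [div_mul_eq_mul_div, one_mul, le_div_iff₀ (by linarith)] at a2
      exact a2
    calc C * fL L ≤ C * (L * (Real.log L) ^ 2) := mul_le_mul_of_nonneg_left h4 (by linarith)
      _ = L * ((Real.log L) ^ 2 * C) := by ring
      _ ≤ L * L := mul_le_mul_of_nonneg_left h5 hL0.le
      _ = L ^ 2 := by ring
  · rcases Nat.eq_zero_or_pos q with h0 | h0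
    · rw [h0]
      simp only [Nat.cast_zero]
      exact (Real.exp_pos _).le
    · have hq0 : (0:ℝ) < q := by exact_mod_cast h0
      rw [← Real.log_le_iff_le_exp hq0]
      rw [div_le_iff₀ (by positivity)] at a3
      linarith
  · have h1 := Real.quadratic_le_exp_of_nonneg (show 0 ≤ L / 4 by positivity)
    nlinarith

/-- **prime-free translates in a residue class** -/
theorem runQ (q : ℕ) (hq : 0 < q) (C ε : ℝ) (hC : 1 ≤ C) (hε : 0 < ε) (hε1 : ε < 1) :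
    ∀ᶠ X : ℝ in atTop, ∀ (r : ℕ) (W : Finset ℕ),
      (∀ w ∈ W, 1 ≤ w ∧ (w : ℝ) ≤ C * Pool.Agent.H50.SC.ff X) →
      ((W.filter (fun w => q.Coprime (r + w))).card : ℝ) * q * 4 ≤
        (1 - ε) * q.totient * Pool.Agent.H50.SC.ff X →
      ∀ x : ℝ, 0 ≤ x → ∃ n : ℕ, x + X / 8 < n ∧
        (n : ℝ) + C * Pool.Agent.H50.SC.ff X ≤ x + X / 2 ∧ n ≡ r [MOD q] ∧
        ∀ w ∈ W, ∃ p : ℕ, p.Prime ∧ (p : ℝ) ≤ X ^ (1 / 4 : ℝ) ∧ p ∣ n + w ∧ p < n + w := by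
  obtain ⟨δ, hδ⟩ : ∃ δ : ℝ, δ = ε / 4 := ⟨_, rfl⟩
  have hδ0 : 0 < δ := by rw [hδ]; positivity
  have hδ1 : δ < 1 := by rw [hδ]; linarith
  obtain ⟨θ, hθ⟩ : ∃ θ : ℝ, θ = δ / 128 := ⟨_, rfl⟩
  have hθ0 : 0 < θ := by rw [hθ]; positivity
  have hθ1 : θ < 1 := by rw [hθ]; linarith
  obtain ⟨ε₁, hε₁⟩ : ∃ ε₁ : ℝ, ε₁ = θ / 4 := ⟨_, rfl⟩
  have hε₁0 : 0 < ε₁ := by rw [hε₁]; positivity
  have hε₁1 : ε₁ ≤ 1 := by rw [hε₁]; linarith
  have ev := (cover δ hδ0 hδ1).and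
    ((survivorsK q hq 0 C ε ε₁ le_rfl hC hε hε1 hε₁0 hε₁1).and (facts_runQ q C θ hC hθ0 hθ1))
  filter_upwards [Real.tendsto_log_atTop.eventually ev, eventually_ge_atTop (1:ℝ)] with X hX hX1
  obtain ⟨hcov, hsur, f1, f2, f3, f7, f8, f9, f10, f11, f12⟩ := hX
  intro r W₀ hW₀ hWc x hx
  have hX0 : 0 < X := by linarith
  have hexp : Real.exp (Real.log X) = X := Real.exp_log hX0
  rw [hexp] at f7 f8 f9
  obtain ⟨L, hL⟩ : ∃ L : ℝ, L = Real.log X := ⟨_, rfl⟩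
  have hff : Pool.Agent.H50.SC.ff X = fL L := by
    unfold Pool.Agent.H50.SC.ff fL
    rw [← hL]
  have hX4 : X ^ (1 / 4 : ℝ) = Real.exp (L / 4) := by
    rw [Real.rpow_def_of_pos hX0, ← hL]
    congr 1
    ring
  rw [hX4]
  rw [← hL] at hcov hsur f1 f2 f3 f7 f8 f9 f10 f11 f12
  rw [hff] at hW₀ hWc ⊢
  obtain ⟨h, hh⟩ : ∃ h : ℝ, h = C * fL L := ⟨_, rfl⟩
  rw [← hh] at hW₀ f3 ⊢
  have hL0 : 0 < L := by linarith
  have hfl0 : 0 ≤ fL L := by linarith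
  have hLh : L ≤ h := by
    rw [hh]
    have : 1 * fL L ≤ C * fL L := mul_le_mul_of_nonneg_right hC hfl0
    linarith
  obtain ⟨W, hW⟩ : ∃ W : Finset ℕ, W = W₀.filter (fun w => q.Coprime (r + w)) := ⟨_, rfl⟩
  rw [← hW] at hWc
  have hWsub : ∀ w ∈ W, w ∈ W₀ := fun w hw => by
    rw [hW, Finset.mem_filter] at hw
    exact hw.1
  obtain ⟨b, hb⟩ := hsur h hLh hh.le W (fun w hw => by
    rw [← hh]
    exact hW₀ w (hWsub w hw)) (by
    have e : (2:ℝ) * (2 + 0) = 4 := by norm_num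
    rw [e]
    exact hWc)
  obtain ⟨y, hy⟩ : ∃ y : ℝ, y = ε₁ * L := ⟨_, rfl⟩
  rw [Real.rpow_zero, div_one, ← hy] at hb
  have hy0 : 0 < y := by rw [hy]; positivity
  have hyL : y ≤ L := by
    rw [hy]
    have : ε₁ * L ≤ 1 * L := mul_le_mul_of_nonneg_right hε₁1 hL0.le
    linarith
  obtain ⟨U, hU⟩ : ∃ U : Finset ℕ, U = W.filter (fun k => ∀ p : ℕ, p.Prime →
    (p : ℝ) ≤ y → ¬ p ∣ q → ¬ k ≡ b p [MOD p]) := ⟨_, rfl⟩
  rw [← hU, ← hδ] at hb
  have hfloor : ∀ p : ℕ, p ≤ ⌊y⌋₊ ↔ (p : ℝ) ≤ y := fun p => Nat.le_floor_iff hy0.le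
  obtain ⟨P, b0, hPpos, hPle, hPp, hPd, hb0r, hb0'⟩ :=
    exists_crtQ q ⌊y⌋₊ hq r (fun p => (p - 1) * b p)
  have hP1 : (P : ℝ) ≤ Real.exp (3 / 2 * y) := by
    have h1 : (P : ℝ) ≤ (primorial ⌊y⌋₊ : ℝ) := by exact_mod_cast hPle
    exact h1.trans (Pool.Agent.H50.TL.primorial_le_exp y hy0.le)
  have hPr : ((q * P : ℕ) : ℝ) ≤ Real.exp (3 / 4 * θ * L) := by
    push_cast
    calc (q : ℝ) * P ≤ Real.exp (3 / 8 * θ * L) * Real.exp (3 / 2 * y) :=
          mul_le_mul f10 hP1 (Nat.cast_nonneg _) (Real.exp_pos _).le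
      _ = Real.exp (3 / 4 * θ * L) := by
          rw [← Real.exp_add]
          congr 1
          rw [hy, hε₁]
          ring
  obtain ⟨A, hA⟩ : ∃ A : ℤ, A = ⌊x + X / 8⌋ := ⟨_, rfl⟩
  obtain ⟨B, hB⟩ : ∃ B : ℤ, B = ⌊x + X / 4⌋ := ⟨_, rfl⟩
  have hAB : A ≤ B := by
    rw [hA, hB]
    exact Int.floor_le_floor (by linarith)
  have hA1 : (A : ℝ) ≤ x + X / 8 := by rw [hA]; exact Int.floor_le _
  have hA2 : x + X / 8 < (A : ℝ) + 1 := by rw [hA]; exact Int.lt_floor_add_one _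
  have hB1 : (B : ℝ) ≤ x + X / 4 := by rw [hB]; exact Int.floor_le _
  have hB2 : x + X / 4 < (B : ℝ) + 1 := by rw [hB]; exact Int.lt_floor_add_one _
  have hqP : 0 < q * P := Nat.mul_pos hq hPpos
  have hN : Real.exp ((1 - δ / 128) * L) ≤ ((B : ℝ) - A) / ((q * P : ℕ) : ℝ) := by
    rw [le_div_iff₀ (by exact_mod_cast hqP)]
    calc Real.exp ((1 - δ / 128) * L) * ((q * P : ℕ) : ℝ) ≤ Real.exp ((1 - δ / 128) * L) *
          Real.exp (3 / 4 * θ * L) := mul_le_mul_of_nonneg_left hPr (Real.exp_pos _).le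
      _ = Real.exp ((1 - θ / 4) * L) := by
        rw [← Real.exp_add]
        congr 1
        rw [hθ]
        ring
      _ ≤ (B : ℝ) - A := by linarith
  have hUW : ∀ k ∈ U, k ∈ W := fun k hk => by
    rw [hU, Finset.mem_filter] at hk
    exact hk.1
  have hU1 : ∀ k ∈ U, 1 ≤ k ∧ (k : ℝ) ≤ h := fun k hk => hW₀ k (hWsub k (hUW k hk))
  have hh1 : L ^ (1 / 2 : ℝ) ≤ h := by
    have : L ^ (1 / 2 : ℝ) ≤ L ^ (1 : ℝ) :=
      Real.rpow_le_rpow_of_exponent_le (by linarith) (by norm_num)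
    rw [Real.rpow_one] at this
    linarith
  obtain ⟨a, haAB, ha0, ha⟩ := hcov h hh1 f3 U hU1 hb (q * P) hqP (by
    intro p hp hpP
    rcases (Nat.Prime.dvd_mul hp).1 hpP with h1 | h1
    · have h2 : (p : ℝ) ≤ q := by exact_mod_cast Nat.le_of_dvd hq h1
      linarith
    · have := (hfloor p).1 (hPp p hp h1)
      linarith) (b0 : ℤ) A B hAB hN
  rw [Finset.mem_Ioc] at haAB
  have ha1 : (A : ℝ) + 1 ≤ a := by exact_mod_cast haAB.1
  have ha2 : (a : ℝ) ≤ B := by exact_mod_cast haAB.2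
  have ha3 : x + X / 8 < a := by linarith
  have hapos : 0 < a := by
    have : (0:ℝ) < a := by linarith
    exact_mod_cast this
  obtain ⟨m, rfl⟩ := Int.eq_ofNat_of_zero_le hapos.le
  rw [Int.cast_natCast] at ha1 ha2 ha3
  have hmr : m ≡ r [MOD q] := by
    have h1 : (q : ℤ) ∣ (m : ℤ) - (b0 : ℤ) := by
      refine dvd_trans ?_ ha0
      push_cast
      exact Dvd.intro _ rfl
    have h2 : m ≡ b0 [MOD q] := by
      have := (Int.modEq_iff_dvd.2 h1)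
      exact ((Int.natCast_modEq_iff).1 this).symm
    exact h2.trans hb0r
  refine ⟨m, ha3, by linarith, hmr, ?_⟩
  intro k hk
  have hpm : ∀ p : ℕ, (p : ℝ) ≤ Real.exp (L / 4) → p < m + k := by
    intro p hp
    have : (p : ℝ) < m + k := by
      have h3 : (0 : ℝ) ≤ k := Nat.cast_nonneg _
      linarith
    exact_mod_cast this
  by_cases hkc : q.Coprime (r + k)
  · have hkW : k ∈ W := by
      rw [hW, Finset.mem_filter]
      exact ⟨hk, hkc⟩
    by_cases hkU : k ∈ U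
    · obtain ⟨p, hp, hp1, hp2, hp3⟩ := ha k hkU
      refine ⟨p, hp, hp2, ?_, hpm p hp2⟩
      have h2 : (p : ℤ) ∣ ((m + k : ℕ) : ℤ) := by
        push_cast
        exact hp3
      exact_mod_cast h2
    · have hkU' : ¬ ∀ p : ℕ, p.Prime → (p : ℝ) ≤ y → ¬ p ∣ q → ¬ k ≡ b p [MOD p] := fun h' =>
        hkU (by rw [hU]; exact mem_filter.2 ⟨hkW, h'⟩)
      push Not at hkU'
      obtain ⟨p, hp, hpy, hpq, hkp⟩ := hkU'
      have hpL : (p : ℝ) ≤ Real.exp (L / 4) := by linarith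
      refine ⟨p, hp, hpL, ?_, hpm p hpL⟩
      have h1 : b0 + k ≡ (p - 1) * b p + b p [MOD p] :=
        Nat.ModEq.add (hb0' p hp ((hfloor p).2 hpy) hpq) hkp
      have h2 : (p - 1) * b p + b p = p * b p := by
        have := hp.one_lt
        obtain ⟨p', hp'⟩ : ∃ p', p = p' + 1 := ⟨p - 1, by omega⟩
        rw [hp']
        simp only [Nat.add_sub_cancel]
        ring
      rw [h2] at h1
      have h3 : p ∣ b0 + k := (Nat.modEq_zero_iff_dvd).1
        (h1.trans ((Nat.modEq_zero_iff_dvd).2 (Dvd.intro _ rfl)))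
      have h4 : (p : ℤ) ∣ (m : ℤ) - (b0 : ℤ) := by
        refine dvd_trans ?_ ha0
        have : p ∣ q * P := Dvd.dvd.mul_left (hPd p hp ((hfloor p).2 hpy) hpq) q
        exact_mod_cast this
      have h5 : (p : ℤ) ∣ ((b0 + k : ℕ) : ℤ) := by exact_mod_cast h3
      have h6 : (p : ℤ) ∣ ((m + k : ℕ) : ℤ) := by
        have h7 := dvd_add h4 h5
        have h8 : (m : ℤ) - (b0 : ℤ) + ((b0 + k : ℕ) : ℤ) = ((m + k : ℕ) : ℤ) := by
          push_cast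
          ring
        rwa [h8] at h7
      exact_mod_cast h6
  · obtain ⟨p, hp, hpq, hpk⟩ := Nat.Prime.not_coprime_iff_dvd.1 hkc
    have hpL : (p : ℝ) ≤ Real.exp (L / 4) := by
      have h2 : (p : ℝ) ≤ q := by exact_mod_cast Nat.le_of_dvd hq hpq
      linarith
    refine ⟨p, hp, hpL, ?_, hpm p hpL⟩
    have h1 : m + k ≡ r + k [MOD p] := Nat.ModEq.add_right k (hmr.of_dvd hpq)
    exact (h1.dvd_iff dvd_rfl).2 hpk

end Pool.Agent.H50.A
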