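import Pool.Agent.H50.A.SvU
import Pool.Agent.H50.A.Run

set_option autoImplicit false
set_option linter.unusedVariables false

/-! # Frequency of prime-free translates -/

namespace Pool.Agent.H50.A

open Finset Filter Pool.Agent.H50.Cr Pool.Agent.H50.RC Pool.Agent.H50.TL

open scoped Classical

/-- the condition on the parameters -/
lemma param_freqU (ε e : ℝ) (hε : 0 < ε) (hε1 : ε < 1) (he : e = ε / 200) :
    (1 - ε / 4) / 2 * (1 + e) ^ 3 ≤ (1 / 2 - 8 * e) * ((1 - e - 2 * e) * (1 - e)) := by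
  have he0 : 0 < e := by rw [he]; positivity
  have hε' : ε = 200 * e := by rw [he]; ring
  have he1 : e < 1 / 200 := by linarith
  have h1 : (1 + e) ^ 3 ≤ 1 + 4 * e := by nlinarith [mul_pos he0 he0, mul_pos (mul_pos he0 he0) he0]
  have h2 : (1 - ε / 4) / 2 * (1 + e) ^ 3 ≤ (1 - ε / 4) / 2 * (1 + 4 * e) :=
    mul_le_mul_of_nonneg_left h1 (by linarith)
  have h3 : (1 - ε / 4) / 2 * (1 + 4 * e) ≤ 1 / 2 - 23 * e := by
    rw [hε']
    nlinarith [mul_pos he0 he0]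
  have h4 : 1 / 2 - 23 * e ≤ (1 / 2 - 8 * e) * ((1 - e - 2 * e) * (1 - e)) := by
    have e1 : 1 - 4 * e ≤ (1 - e - 2 * e) * (1 - e) := by nlinarith [mul_pos he0 he0]
    have e2 : (1 / 2 - 8 * e) * (1 - 4 * e) ≤ (1 / 2 - 8 * e) * ((1 - e - 2 * e) * (1 - e)) :=
      mul_le_mul_of_nonneg_left e1 (by linarith)
    nlinarith [mul_pos he0 he0]
  linarith

/-- the eventual facts for the last step -/
lemma facts_freqU (q : ℕ) (e ε A : ℝ) (he : 0 < e) (he1 : e < 1) (hε : 0 < ε) (hA : 0 < A) :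
    ∀ᶠ L : ℝ in atTop, 1000 ≤ L ∧ 2 ≤ Real.log L ∧ (Real.log L) ^ 2 ≤ L ∧
      Real.log q + 2 ≤ e / 8 * L ∧ (q : ℝ) ≤ L ∧
      Real.log q + 7 + 2 * ((A + 2 + 4) * Real.log L) ≤ ε / 2 * L ^ (e / 2) := by
  have s1 := ev_logpow1 (e / 2) (2 / ε * (Real.log q + 7 + 2 * (A + 2 + 4))) (by positivity)
  have s2 := ev_logpow 1 1 one_pos
  filter_upwards [s1, s2, Real.tendsto_log_atTop.eventually_ge_atTop (2:ℝ),
    eventually_ge_atTop (1000:ℝ), eventually_ge_atTop ((Real.log q + 2) / (e / 8)),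
    eventually_ge_atTop (q : ℝ)] with L a1 a2 a4 a5 a6 a7
  have hL0 : 0 < L := by linarith
  refine ⟨a5, a4, ?_, ?_, a7, ?_⟩
  · rw [Real.rpow_one] at a2
    linarith
  · rw [div_le_iff₀ (by positivity)] at a6
    linarith
  · have h1 := mul_le_mul_of_nonneg_left a1 (show 0 ≤ ε / 2 by positivity)
    have h2 : ε / 2 * (2 / ε * (Real.log q + 7 + 2 * (A + 2 + 4)) * Real.log L) =
        (Real.log q + 7 + 2 * (A + 2 + 4)) * Real.log L := by
      field_simp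
    rw [h2] at h1
    have h3 : 0 ≤ Real.log (q : ℝ) := Real.log_natCast_nonneg q
    nlinarith

lemma last_numU (X L l w ε e A N c y lq : ℝ) (hL : 1000 ≤ L) (hX : X = Real.exp L)
    (he : 0 < e) (he1 : e < 1) (hlL : L = Real.exp l) (hw : w ≤ e / 2 * l) (hε : 0 < ε)
    (hl2 : 0 ≤ l) (hlq : 0 ≤ lq)
    (h1 : lq + 7 + 2 * ((A + 2 + 4) * l) ≤ ε / 2 * L ^ (e / 2)) (hA : 0 < A)
    (hy : 3 / 2 * y ≤ ε / 2 * (L * Real.exp (-w)))
    (hN : X / 4 * Real.exp (-(3 / 2 * y)) * Real.exp (-lq) ≤ N)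
    (hc : N / 8 ≤ Real.exp (3 + 2 * ((A + 2 + 4) * l * L ^ (1 - e))) * c) :
    X * Real.exp (-(ε * Real.exp (-w) * L)) ≤ c := by
  have hL0 : 0 < L := by linarith
  have hX0 : 0 < X := by rw [hX]; exact Real.exp_pos _
  have hLb : 1 ≤ L ^ (1 - e) := Real.one_le_rpow (by linarith) (by linarith)
  have hLw : L ^ (e / 2) * L ^ (1 - e) ≤ L * Real.exp (-w) := by
    rw [← Real.rpow_add hL0, hlL, ← Real.exp_mul, ← Real.exp_add]
    apply Real.exp_le_exp.2
    nlinarith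
  have h2 : lq + 7 + 2 * ((A + 2 + 4) * l * L ^ (1 - e)) ≤ ε / 2 * (L * Real.exp (-w)) := by
    have h3 := mul_le_mul_of_nonneg_right h1 (show 0 ≤ L ^ (1 - e) by linarith)
    have h4 : lq + 7 + 2 * ((A + 2 + 4) * l * L ^ (1 - e)) ≤
        (lq + 7 + 2 * ((A + 2 + 4) * l)) * L ^ (1 - e) := by
      have h5 : (lq + 7) * 1 ≤ (lq + 7) * L ^ (1 - e) :=
        mul_le_mul_of_nonneg_left hLb (by linarith)
      nlinarith
    have h6 : ε / 2 * L ^ (e / 2) * L ^ (1 - e) ≤ ε / 2 * (L * Real.exp (-w)) := by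
      have := mul_le_mul_of_nonneg_left hLw (show 0 ≤ ε / 2 by positivity)
      linarith
    linarith
  obtain ⟨E, hE⟩ : ∃ E : ℝ, E = 3 + 2 * ((A + 2 + 4) * l * L ^ (1 - e)) := ⟨_, rfl⟩
  rw [← hE] at hc
  have h3 : Real.exp (-E) * (N / 8) ≤ c := by
    have h4 := mul_le_mul_of_nonneg_left hc (Real.exp_pos (-E)).le
    rw [← mul_assoc, ← Real.exp_add, neg_add_cancel, Real.exp_zero, one_mul] at h4
    exact h4
  refine le_trans ?_ h3
  have h5 : Real.exp (-E) * ((X / 4 * Real.exp (-(3 / 2 * y)) * Real.exp (-lq)) / 8) ≤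
      Real.exp (-E) * (N / 8) := by
    apply mul_le_mul_of_nonneg_left _ (Real.exp_pos _).le
    linarith
  refine le_trans ?_ h5
  have h6 : Real.exp (-E) * ((X / 4 * Real.exp (-(3 / 2 * y)) * Real.exp (-lq)) / 8) =
      X * (Real.exp (-E + -(3 / 2 * y) + -lq) / 32) := by
    rw [Real.exp_add, Real.exp_add]
    ring
  rw [h6]
  apply mul_le_mul_of_nonneg_left _ hX0.le
  rw [le_div_iff₀ (by norm_num)]
  have h7 : (32:ℝ) ≤ Real.exp 4 := by
    have e1 := Real.exp_one_gt_d9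
    have e2 : Real.exp 4 = (Real.exp 1 * Real.exp 1) * (Real.exp 1 * Real.exp 1) := by
      rw [← Real.exp_add, ← Real.exp_add]
      norm_num
    rw [e2]
    have e3 : (2.7:ℝ) * 2.7 * (2.7 * 2.7) ≤
        (Real.exp 1 * Real.exp 1) * (Real.exp 1 * Real.exp 1) := by
      gcongr <;> linarith
    linarith
  calc Real.exp (-(ε * Real.exp (-w) * L)) * 32 ≤
        Real.exp (-(ε * Real.exp (-w) * L)) * Real.exp 4 :=
        mul_le_mul_of_nonneg_left h7 (Real.exp_pos _).le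
    _ = Real.exp (-(ε * Real.exp (-w) * L) + 4) := by rw [Real.exp_add]
    _ ≤ _ := by
        apply Real.exp_le_exp.2
        linarith

lemma n_four : (4:ℝ) ≤ Real.exp 2 := by
  have e4 : Real.exp 2 = Real.exp 1 * Real.exp 1 := by
    rw [← Real.exp_add]
    norm_num
  have e5 := Real.add_one_le_exp (1:ℝ)
  rw [e4]
  nlinarith

lemma n_half (L : ℝ) (hL : 1000 ≤ L) : 8 * Real.exp (L / 2) + 8 ≤ Real.exp L := by
  have e1 : Real.exp (L / 2) * Real.exp (L / 2) = Real.exp L := by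
    rw [← Real.exp_add]
    congr 1
    ring
  have e2 := Real.add_one_le_exp (L / 2)
  nlinarith

lemma n_hX (L h X : ℝ) (hL : 1000 ≤ L) (hX : X = Real.exp L) (hh : h ≤ L ^ 2) : h ≤ X / 8 := by
  have h1 := Real.quadratic_le_exp_of_nonneg (show 0 ≤ L / 2 by positivity)
  obtain ⟨E, hE⟩ : ∃ E : ℝ, E = Real.exp (L / 2) := ⟨_, rfl⟩
  have h2 : L ^ 2 / 8 ≤ E := by
    rw [hE]
    have h3 : (L / 2) ^ 2 / 2 = L ^ 2 / 8 := by ring
    linarith
  have h3 : E * E = Real.exp L := by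
    rw [hE, ← Real.exp_add]
    congr 1
    ring
  have h4 : (64:ℝ) ≤ E := by
    have := Real.add_one_le_exp (L / 2)
    rw [hE]
    linarith
  have h5 : 64 * E ≤ E * E := mul_le_mul_of_nonneg_right h4 (by linarith)
  rw [hX, ← h3]
  linarith

lemma n_BH (L A X x B h : ℝ) (hL : 1000 ≤ L) (hX : X = Real.exp L) (hA : 0 < A)
    (hxA : x ≤ Real.exp (L ^ A)) (hB : B ≤ x + X / 2) (hh : h ≤ X / 8) :
    B + h ≤ Real.exp (L ^ (A + 2)) := by
  have hL0 : 0 < L := by linarith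
  have hX0 : 0 < X := by rw [hX]; exact Real.exp_pos _
  have hLA1 : 1 ≤ L ^ A := Real.one_le_rpow (by linarith) hA.le
  have hLA2 : L ^ (A + 2) = L ^ A * L ^ 2 := by
    rw [Real.rpow_add hL0]
    congr 1
    rw [← Real.rpow_natCast]
    norm_num
  have hE4 := n_four
  have e1 : Real.exp (L ^ A) ≤ Real.exp (L ^ (A + 2)) / 4 := by
    have e2 : Real.exp (L ^ A) * Real.exp 2 ≤ Real.exp (L ^ (A + 2)) := by
      rw [← Real.exp_add]
      apply Real.exp_le_exp.2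
      rw [hLA2]
      have : (3:ℝ) ≤ L ^ 2 := by nlinarith
      nlinarith
    have e6 := mul_le_mul_of_nonneg_left hE4 (Real.exp_pos (L ^ A)).le
    linarith
  have e2 : X ≤ Real.exp (L ^ (A + 2)) / 4 := by
    have e2 : X * Real.exp 2 ≤ Real.exp (L ^ (A + 2)) := by
      rw [hX, ← Real.exp_add]
      apply Real.exp_le_exp.2
      rw [hLA2]
      have h1 : 1 * L ^ 2 ≤ L ^ A * L ^ 2 := mul_le_mul_of_nonneg_right hLA1 (by positivity)
      have h2 : L + 2 ≤ L ^ 2 := by nlinarith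
      linarith
    have e6 := mul_le_mul_of_nonneg_left hE4 hX0.le
    linarith
  linarith

lemma n_hL2 (L l u h e : ℝ) (hL0 : 0 < L) (hl0 : 0 < l) (hLl : L = Real.exp l) (he1 : e < 1 / 200)
    (hu : u ≤ e / 2 * l) (hh : h = Real.exp u * L) : h ≤ L ^ 2 := by
  have h1 : u ≤ l := by
    have : e / 2 * l ≤ 1 * l := mul_le_mul_of_nonneg_right (by linarith) hl0.le
    linarith
  have h2 := Real.exp_le_exp.2 h1
  rw [← hLl] at h2
  rw [hh, sq]
  exact mul_le_mul_of_nonneg_right h2 hL0.le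

lemma n_N2 (L e X y lq : ℝ) (hX : X = Real.exp L) (h1 : 3 / 2 * y ≤ e / 8 * L)
    (h2 : lq + 2 ≤ e / 8 * L) : Real.exp ((1 - e / 4) * L) ≤
      X / 4 * Real.exp (-(3 / 2 * y)) * Real.exp (-lq) := by
  have e2 : Real.exp ((1 - e / 4) * L) * Real.exp 2 ≤
      X * Real.exp (-(3 / 2 * y)) * Real.exp (-lq) := by
    rw [hX, ← Real.exp_add, ← Real.exp_add, ← Real.exp_add]
    apply Real.exp_le_exp.2
    linarith
  have e3 := mul_le_mul_of_nonneg_left n_four (Real.exp_pos ((1 - e / 4) * L)).le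
  have e4 : X / 4 * Real.exp (-(3 / 2 * y)) * Real.exp (-lq) =
    X * Real.exp (-(3 / 2 * y)) * Real.exp (-lq) / 4 := by ring
  rw [e4]
  linarith

lemma n_e2 (L l e : ℝ) (he0 : 0 < e) (he1 : e < 1 / 200) (hL0 : 0 < L) (hl0 : 0 < l) :
    e ^ 2 * L / l ≤ L / l := by
  apply div_le_div_of_nonneg_right _ hl0.le
  have h1 : e ^ 2 ≤ 1 := by nlinarith
  have := mul_le_mul_of_nonneg_right h1 hL0.le
  linarith

set_option maxHeartbeats 4000000 in
/-- **frequency of prime-free translates** -/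
theorem freqU (q : ℕ) (hq : 0 < q) (A ε : ℝ) (hA : 0 < A) (hε : 0 < ε) (hε1 : ε < 1) :
    ∃ δ : ℝ, 0 < δ ∧ δ ≤ 1 / 2 ∧ ∀ᶠ X : ℝ in atTop, ∀ u w : ℝ, 0 ≤ u → 0 ≤ w →
      Real.log (Real.log (Real.log X)) ≤ u + w → u + w ≤ δ * Real.log (Real.log X) →
      ∀ (r : ℕ) (Z : Finset ℕ), (∀ z ∈ Z, 1 ≤ z ∧ (z : ℝ) ≤ Real.exp u * Real.log X) →
      ((Z.filter (fun z => q.Coprime (r + z))).card : ℝ) * q * (2 * (u + w)) ≤
        (1 - ε) * q.totient * (Real.log X * (Real.log (Real.log X)) ^ 2 *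
          Real.log (Real.log (Real.log (Real.log X))) / Real.log (Real.log (Real.log X))) →
      ∀ x : ℝ, 0 ≤ x → x ≤ Real.exp ((Real.log X) ^ A) →
      X * Real.exp (-(ε * Real.exp (-w) * Real.log X)) ≤
        (((Finset.Ioc ⌊x⌋₊ ⌊x + X⌋₊).filter (fun n => n ≡ r [MOD q] ∧ ∀ z ∈ Z, ∃ p : ℕ,
          p.Prime ∧ (p : ℝ) ≤ Real.exp (Real.log X / Real.log (Real.log X)) ∧ p ∣ n + z ∧
            p < n + z)).card : ℝ) := by
  obtain ⟨e, he⟩ : ∃ e : ℝ, e = ε / 200 := ⟨_, rfl⟩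
  have he0 : 0 < e := by rw [he]; positivity
  have he1 : e < 1 / 200 := by rw [he]; linarith
  have hpar := param_freqU ε e hε hε1 he
  obtain ⟨ε₁, hε₁⟩ : ∃ ε₁ : ℝ, ε₁ = e / 12 := ⟨_, rfl⟩
  have hε₁0 : 0 < ε₁ := by rw [hε₁]; positivity
  have hε₁1 : ε₁ ≤ 1 := by rw [hε₁]; linarith
  refine ⟨e / 2, by positivity, by linarith, ?_⟩
  have ev := (cover_cnt e e 1 (A + 2) ((1 - ε / 4) / 2) he0 he0 (by linarith) (by linarith)
    (by linarith) one_pos (by linarith) (by linarith) (by linarith) hpar).and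
    ((survivorsU q hq ε ε₁ (e / 2) hε hε1 hε₁0 hε₁1 (by rw [he]; linarith)).and
    (facts_freqU q e ε A he0 (by linarith) hε hA))
  filter_upwards [Real.tendsto_log_atTop.eventually ev, eventually_ge_atTop (1:ℝ)] with X hX hX1
  obtain ⟨hcov, hsur, f1, f2, f3, f4, f5, f6⟩ := hX
  intro u w hu hw htau htau' r Z₀ hZ₀ hZc x hx hxA
  have hX0 : 0 < X := by linarith
  obtain ⟨L, hL⟩ : ∃ L : ℝ, L = Real.log X := ⟨_, rfl⟩
  have hXL : X = Real.exp L := by rw [hL, Real.exp_log hX0]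
  rw [← hL] at hcov hsur f1 f2 f3 f4 f5 f6 htau htau' hZ₀ hZc hxA ⊢
  have hL0 : 0 < L := by linarith
  obtain ⟨Z, hZ⟩ : ∃ Z : Finset ℕ, Z = Z₀.filter (fun z => q.Coprime (r + z)) := ⟨_, rfl⟩
  rw [← hZ] at hZc
  have hZsub : ∀ k ∈ Z, k ∈ Z₀ := fun k hk => by
    rw [hZ, Finset.mem_filter] at hk
    exact hk.1
  obtain ⟨b, hb⟩ := hsur u w hu hw htau htau' Z (fun k hk => hZ₀ k (hZsub k hk)) hZc
  obtain ⟨l, hl⟩ : ∃ l : ℝ, l = Real.log L := ⟨_, rfl⟩
  rw [← hl] at hcov f2 f3 f6 htau' hb ⊢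
  have hl0 : 0 < l := by linarith
  have hLl' : L = Real.exp l := by rw [hl, Real.exp_log hL0]
  obtain ⟨y, hy⟩ : ∃ y : ℝ, y = ε₁ * L * Real.exp (-w) := ⟨_, rfl⟩
  rw [← hy] at hb
  have hy0 : 0 < y := by rw [hy]; positivity
  have hew : Real.exp (-w) ≤ 1 := Real.exp_le_one_iff.2 (by linarith)
  have hyL1 : y ≤ ε₁ * L := by
    rw [hy]
    have := mul_le_mul_of_nonneg_left hew (show 0 ≤ ε₁ * L by positivity)
    linarith
  have hyL : y ≤ L := by
    have : ε₁ * L ≤ 1 * L := mul_le_mul_of_nonneg_right hε₁1 hL0.le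
    linarith
  obtain ⟨U, hU⟩ : ∃ U : Finset ℕ, U = Z.filter (fun k => ∀ p : ℕ, p.Prime →
    (p : ℝ) ≤ y → ¬ p ∣ q → ¬ k ≡ b p [MOD p]) := ⟨_, rfl⟩
  rw [← hU] at hb
  have hUZ : ∀ k ∈ U, k ∈ Z := fun k hk => by
    rw [hU, Finset.mem_filter] at hk
    exact hk.1
  have hfloor : ∀ p : ℕ, p ≤ ⌊y⌋₊ ↔ (p : ℝ) ≤ y := fun p => Nat.le_floor_iff hy0.le
  obtain ⟨P, b0, hPpos, hPle, hPp, hPd, hb0r, hb0'⟩ :=
    exists_crtQ q ⌊y⌋₊ hq r (fun p => (p - 1) * b p)
  have hP1 : (P : ℝ) ≤ Real.exp (3 / 2 * y) := by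
    have h1 : (P : ℝ) ≤ (primorial ⌊y⌋₊ : ℝ) := by exact_mod_cast hPle
    exact h1.trans (primorial_le_exp y hy0.le)
  have hqP : 0 < q * P := Nat.mul_pos hq hPpos
  have hq0 : (0:ℝ) < q := by exact_mod_cast hq
  -- sizes
  have hLA0 : 0 < L ^ A := Real.rpow_pos_of_pos hL0 _
  have hLA1 : 1 ≤ L ^ A := Real.one_le_rpow (by linarith) hA.le
  have hLA2 : L ^ (A + 2) = L ^ A * L ^ 2 := by
    rw [Real.rpow_add hL0]
    congr 1
    rw [← Real.rpow_natCast]
    norm_num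
  have hE1000 : 1000 ≤ Real.exp L := by
    have := Real.add_one_le_exp L
    linarith
  have hEbig := n_half L f1
  have hLl : L / l ≤ L / 2 := div_le_div_of_nonneg_left hL0.le (by norm_num) f2
  have hELl : 8 * Real.exp (L / l) + 8 ≤ X := by
    have := Real.exp_le_exp.2 hLl
    rw [hXL]
    linarith
  have hyE : L ≤ Real.exp (L / l) := by
    have h1 : l ≤ L / l := by
      rw [le_div_iff₀ hl0]
      linarith
    calc L = Real.exp l := hLl'
      _ ≤ Real.exp (L / l) := Real.exp_le_exp.2 h1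
  obtain ⟨h, hh⟩ : ∃ h : ℝ, h = Real.exp u * L := ⟨_, rfl⟩
  rw [← hh] at hZ₀
  have heu : 1 ≤ Real.exp u := Real.one_le_exp hu
  have hh1 : 1 ≤ h := by
    rw [hh]
    have := mul_le_mul_of_nonneg_right heu hL0.le
    linarith
  have hhL2 : h ≤ L ^ 2 := n_hL2 L l u h e hL0 hl0 hLl' he1 (by linarith) hh
  have hhA : h ≤ L ^ (A + 2) := by
    rw [hLA2]
    have : 1 * L ^ 2 ≤ L ^ A * L ^ 2 := mul_le_mul_of_nonneg_right hLA1 (by positivity)
    linarith
  obtain ⟨A₁, hA₁⟩ : ∃ A₁ : ℤ, A₁ = ⌊x + X / 8⌋ := ⟨_, rfl⟩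
  obtain ⟨B₁, hB₁⟩ : ∃ B₁ : ℤ, B₁ = ⌊x + X / 2⌋ := ⟨_, rfl⟩
  have hAB : A₁ ≤ B₁ := by
    rw [hA₁, hB₁]
    exact Int.floor_le_floor (by linarith)
  have hA1 : (A₁ : ℝ) ≤ x + X / 8 := by rw [hA₁]; exact Int.floor_le _
  have hA2 : x + X / 8 < (A₁ : ℝ) + 1 := by rw [hA₁]; exact Int.lt_floor_add_one _
  have hB1 : (B₁ : ℝ) ≤ x + X / 2 := by rw [hB₁]; exact Int.floor_le _
  have hB2 : x + X / 2 < (B₁ : ℝ) + 1 := by rw [hB₁]; exact Int.lt_floor_add_one _
  have hX1000 : 1000 ≤ X := by rw [hXL]; exact hE1000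
  have hA0 : 0 ≤ A₁ := by
    have : (0:ℝ) ≤ x + X / 8 := by linarith
    rw [hA₁]
    exact Int.floor_nonneg.2 this
  have hhX : h ≤ X / 8 := n_hX L h X f1 hXL hhL2
  have hBh : (B₁ : ℝ) + h ≤ Real.exp (L ^ (A + 2)) := n_BH L A X x B₁ h f1 hXL hA hxA hB1 hhX
  obtain ⟨N, hNdef⟩ : ∃ N : ℝ, N = ((B₁ : ℝ) - A₁) / ((q * P : ℕ) : ℝ) := ⟨_, rfl⟩
  have hN1 : X / 4 * Real.exp (-(3 / 2 * y)) * Real.exp (-(Real.log q)) ≤ N := by
    rw [hNdef, le_div_iff₀ (by exact_mod_cast hqP)]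
    push_cast
    have e1 : Real.exp (-(Real.log q)) * q = 1 := by
      rw [Real.exp_neg, Real.exp_log hq0]
      field_simp
    calc X / 4 * Real.exp (-(3 / 2 * y)) * Real.exp (-(Real.log q)) * (q * P)
        = X / 4 * Real.exp (-(3 / 2 * y)) * (Real.exp (-(Real.log q)) * q) * P := by ring
      _ = X / 4 * Real.exp (-(3 / 2 * y)) * P := by rw [e1, mul_one]
      _ ≤ X / 4 * Real.exp (-(3 / 2 * y)) * Real.exp (3 / 2 * y) :=
          mul_le_mul_of_nonneg_left hP1 (by positivity)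
      _ = X / 4 := by
          rw [mul_assoc, ← Real.exp_add, neg_add_cancel, Real.exp_zero, mul_one]
      _ ≤ (B₁ : ℝ) - A₁ := by linarith
  have hN2 : Real.exp ((1 - e / 4) * L) ≤ N := by
    refine le_trans ?_ hN1
    apply n_N2 L e X y (Real.log q) hXL _ f4
    rw [hε₁] at hyL1
    linarith
  have hU1 : ∀ k ∈ U, 1 ≤ k ∧ (k : ℝ) ≤ h := fun k hk => hZ₀ k (hZsub k (hUZ k hk))
  have hmain := hcov h hh1 hhA U hU1 (by rw [Real.rpow_one]; exact hb) (q * P) hqP (by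
      intro p hp hpP
      rw [Real.rpow_one]
      rcases (Nat.Prime.dvd_mul hp).1 hpP with h1 | h1
      · have h2 : (p : ℝ) ≤ q := by exact_mod_cast Nat.le_of_dvd hq h1
        linarith
      · have := (hfloor p).1 (hPp p hp h1)
        linarith) (b0 : ℤ) A₁ B₁ hA0 hAB hBh (by rw [← hNdef]; exact hN2)
  rw [← hNdef] at hmain
  refine last_numU X L l w ε e A N _ y (Real.log q) f1 hXL he0 (by linarith) hLl' (by linarith) hε
    hl0.le (Real.log_natCast_nonneg q) f6 hA (by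
      have h1 : 3 / 2 * ε₁ ≤ ε / 2 := by rw [hε₁, he]; linarith
      rw [hy]
      have := mul_le_mul_of_nonneg_right h1 (show 0 ≤ L * Real.exp (-w) by positivity)
      linarith) hN1 (hmain.trans ?_)
  apply mul_le_mul_of_nonneg_left _ (Real.exp_pos _).le
  apply Nat.cast_le.2
  apply Finset.card_le_card_of_injOn Int.toNat
  · intro n hn
    rw [Finset.mem_coe, Finset.mem_filter, Finset.mem_Ioc] at hn
    obtain ⟨⟨hn1, hn2⟩, hn3, hn4⟩ := hn
    have hnpos : 0 ≤ n := by linarith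
    obtain ⟨m, rfl⟩ := Int.eq_ofNat_of_zero_le hnpos
    rw [Int.toNat_natCast]
    have hm1 : (A₁ : ℝ) + 1 ≤ m := by exact_mod_cast hn1
    have hm2 : (m : ℝ) ≤ B₁ := by exact_mod_cast hn2
    have hmr : m ≡ r [MOD q] := by
      have h1 : (q : ℤ) ∣ (m : ℤ) - (b0 : ℤ) := by
        refine dvd_trans ?_ hn3
        push_cast
        exact Dvd.intro _ rfl
      have h2 : m ≡ b0 [MOD q] := by
        have := (Int.modEq_iff_dvd.2 h1)
        exact ((Int.natCast_modEq_iff).1 this).symm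
      exact h2.trans hb0r
    rw [Finset.mem_coe, Finset.mem_filter, Finset.mem_Ioc]
    refine ⟨⟨?_, ?_⟩, hmr, ?_⟩
    · rw [Nat.floor_lt hx]
      linarith
    · apply Nat.le_floor
      linarith
    · intro k hk
      have hpm : ∀ p : ℕ, (p : ℝ) ≤ Real.exp (L / l) → p < m + k := by
        intro p hp
        have : (p : ℝ) < m + k := by
          have h3 : (0 : ℝ) ≤ k := Nat.cast_nonneg _
          linarith
        exact_mod_cast this
      by_cases hkc : q.Coprime (r + k)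
      · have hkZ : k ∈ Z := by
          rw [hZ, Finset.mem_filter]
          exact ⟨hk, hkc⟩
        by_cases hkU : k ∈ U
        · obtain ⟨p, hp, hp1, hp2, hp3⟩ := hn4 k hkU
          have hp4 : (p : ℝ) ≤ Real.exp (L / l) := by
            exact hp2.trans (Real.exp_le_exp.2 (n_e2 L l e he0 he1 hL0 hl0))
          refine ⟨p, hp, hp4, ?_, hpm p hp4⟩
          have h2 : (p : ℤ) ∣ ((m + k : ℕ) : ℤ) := by
            push_cast
            exact hp3
          exact_mod_cast h2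
        · have hkU' : ¬ ∀ p : ℕ, p.Prime → (p : ℝ) ≤ y → ¬ p ∣ q → ¬ k ≡ b p [MOD p] := fun h' =>
            hkU (by rw [hU]; exact mem_filter.2 ⟨hkZ, h'⟩)
          push Not at hkU'
          obtain ⟨p, hp, hpy, hpq, hkp⟩ := hkU'
          have hpL : (p : ℝ) ≤ Real.exp (L / l) := by linarith
          refine ⟨p, hp, hpL, ?_, hpm p hpL⟩
          have h1 : b0 + k ≡ (p - 1) * b p + b p [MOD p] :=
            Nat.ModEq.add (hb0' p hp ((hfloor p).2 hpy) hpq) hkp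
          have h2 : (p - 1) * b p + b p = p * b p := by
            have := hp.one_lt
            obtain ⟨p', hp'⟩ : ∃ p', p = p' + 1 := ⟨p - 1, by omega⟩
            rw [hp']
            simp only [Nat.add_sub_cancel]
            ring
          rw [h2] at h1
          have h3 : p ∣ b0 + k := (Nat.modEq_zero_iff_dvd).1
            (h1.trans ((Nat.modEq_zero_iff_dvd).2 (Dvd.intro _ rfl)))
          have h4 : (p : ℤ) ∣ (m : ℤ) - (b0 : ℤ) := by
            refine dvd_trans ?_ hn3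
            have : p ∣ q * P := Dvd.dvd.mul_left (hPd p hp ((hfloor p).2 hpy) hpq) q
            exact_mod_cast this
          have h5 : (p : ℤ) ∣ ((b0 + k : ℕ) : ℤ) := by exact_mod_cast h3
          have h6 : (p : ℤ) ∣ ((m + k : ℕ) : ℤ) := by
            have h7 := dvd_add h4 h5
            have h8 : (m : ℤ) - (b0 : ℤ) + ((b0 + k : ℕ) : ℤ) = ((m + k : ℕ) : ℤ) := by
              push_cast
              ring
            rwa [h8] at h7
          exact_mod_cast h6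
      · obtain ⟨p, hp, hpq, hpk⟩ := Nat.Prime.not_coprime_iff_dvd.1 hkc
        have hpL : (p : ℝ) ≤ Real.exp (L / l) := by
          have h2 : (p : ℝ) ≤ q := by exact_mod_cast Nat.le_of_dvd hq hpq
          linarith
        refine ⟨p, hp, hpL, ?_, hpm p hpL⟩
        have h1 : m + k ≡ r + k [MOD p] := Nat.ModEq.add_right k (hmr.of_dvd hpq)
        exact (h1.dvd_iff dvd_rfl).2 hpk
  · intro n hn n' hn' hnn
    have h1 : 0 ≤ n := by
      have := (Finset.mem_Ioc.1 (Finset.mem_filter.1 (Finset.mem_coe.1 hn)).1).1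
      linarith
    have h2 : 0 ≤ n' := by
      have := (Finset.mem_Ioc.1 (Finset.mem_filter.1 (Finset.mem_coe.1 hn')).1).1
      linarith
    have h3 := Int.toNat_of_nonneg h1
    have h4 := Int.toNat_of_nonneg h2
    rw [← h3, ← h4]
    exact_mod_cast hnn

end Pool.Agent.H50.A
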