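import Pool.Agent.H50.A.SvG
import Pool.Agent.H50.RK.Greedy

set_option autoImplicit false
set_option linter.unusedVariables false

/-! # Classes for the reflections of integers without small prime factors -/

namespace Pool.Agent.H50.A

open Finset Filter Pool.Agent.H50.Cr Pool.Agent.H50.RC

open scoped Classical

/-- partial products of the twin prime constant -/
noncomputable def twin (v : ℕ) : ℝ :=
  ∏ p ∈ (Finset.Icc 3 v).filter Nat.Prime, (1 - 1 / ((p : ℝ) - 1) ^ 2)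

/-- the twin prime constant `∏_{p ≥ 3} (1 - 1/(p-1)²) = 0.6601…` -/
noncomputable def C2 : ℝ := ⨅ v : ℕ, twin v

lemma twin_factor (p : ℕ) (hp : 3 ≤ p) : 0 < 1 - 1 / ((p : ℝ) - 1) ^ 2 ∧
    1 - 1 / ((p : ℝ) - 1) ^ 2 ≤ 1 := by
  have h1 : (3 : ℝ) ≤ p := by exact_mod_cast hp
  have h2 : (4 : ℝ) ≤ ((p : ℝ) - 1) ^ 2 := by nlinarith
  constructor
  · have : 1 / ((p : ℝ) - 1) ^ 2 ≤ 1 / 4 := one_div_le_one_div_of_le (by norm_num) h2
    linarith
  · have : 0 < 1 / ((p : ℝ) - 1) ^ 2 := by positivity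
    linarith

lemma twin_pos (v : ℕ) : 0 < twin v := by
  unfold twin
  refine Finset.prod_pos fun p hp => ?_
  rw [mem_filter, mem_Icc] at hp
  exact (twin_factor p hp.1.1).1

lemma twin_succ (v : ℕ) : twin (v + 1) = twin v ∨
    (3 ≤ v + 1 ∧ twin (v + 1) = twin v * (1 - 1 / (((v + 1 : ℕ) : ℝ) - 1) ^ 2)) := by
  by_cases h : 3 ≤ v + 1 ∧ (v + 1).Prime
  · right
    refine ⟨h.1, ?_⟩
    unfold twin
    have h1 : (Finset.Icc 3 (v + 1)).filter Nat.Prime =
        insert (v + 1) ((Finset.Icc 3 v).filter Nat.Prime) := by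
      ext p
      simp only [mem_filter, mem_Icc, mem_insert]
      constructor
      · rintro ⟨⟨a, b⟩, c⟩
        rcases Nat.lt_or_ge v p with h2 | h2
        · exact Or.inl (by omega)
        · exact Or.inr ⟨⟨a, h2⟩, c⟩
      · rintro (rfl | ⟨⟨a, b⟩, c⟩)
        · exact ⟨⟨h.1, le_rfl⟩, h.2⟩
        · exact ⟨⟨a, by omega⟩, c⟩
    rw [h1, Finset.prod_insert (by simp), mul_comm]
  · left
    unfold twin
    congr 1
    ext p
    simp only [mem_filter, mem_Icc]
    constructor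
    · rintro ⟨⟨a, b⟩, c⟩
      rcases Nat.lt_or_ge v p with h2 | h2
      · exfalso
        have : p = v + 1 := by omega
        subst this
        exact h ⟨a, c⟩
      · exact ⟨⟨a, h2⟩, c⟩
    · rintro ⟨⟨a, b⟩, c⟩
      exact ⟨⟨a, by omega⟩, c⟩

lemma twin_anti : Antitone twin := by
  refine antitone_nat_of_succ_le fun v => ?_
  rcases twin_succ v with h | ⟨h1, h2⟩
  · exact h.le
  · rw [h2]
    have := mul_le_mul_of_nonneg_left (twin_factor (v + 1) h1).2 (twin_pos v).le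
    linarith

lemma twin_ge (v : ℕ) (hv : 2 ≤ v) : (v : ℝ) / (2 * ((v : ℝ) - 1)) ≤ twin v := by
  induction v, hv using Nat.le_induction with
  | base =>
    have : twin 2 = 1 := by
      unfold twin
      rw [show (Finset.Icc 3 2) = ∅ from rfl]
      simp
    rw [this]
    norm_num
  | succ v hv ih =>
    have h2 : (2 : ℝ) ≤ v := by exact_mod_cast hv
    have h3 : (0:ℝ) < (v : ℝ) - 1 := by linarith
    have e1 : ((v + 1 : ℕ) : ℝ) / (2 * (((v + 1 : ℕ) : ℝ) - 1)) = ((v:ℝ) + 1) / (2 * v) := by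
      push_cast
      ring_nf
    rw [e1]
    have h4 : ((v:ℝ) + 1) / (2 * v) = (v : ℝ) / (2 * ((v : ℝ) - 1)) *
        (1 - 1 / (((v + 1 : ℕ) : ℝ) - 1) ^ 2) := by
      have hv0 : (v : ℝ) ≠ 0 := by linarith
      have e2 : ((v + 1 : ℕ) : ℝ) - 1 = v := by push_cast; ring
      rw [e2]
      field_simp
      ring
    rcases twin_succ v with h | ⟨h5, h6⟩
    · rw [h]
      refine le_trans ?_ ih
      rw [h4]
      have h7 := (twin_factor (v + 1) (by omega)).2
      have := mul_le_mul_of_nonneg_left h7 (show 0 ≤ (v : ℝ) / (2 * ((v : ℝ) - 1)) by positivity)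
      linarith
    · rw [h6, h4]
      exact mul_le_mul_of_nonneg_right ih (twin_factor (v + 1) h5).1.le

lemma twin_half (v : ℕ) : 1 / 2 ≤ twin v := by
  have h1 : twin (v + 2) ≤ twin v := twin_anti (by omega)
  have h2 := twin_ge (v + 2) (by omega)
  refine le_trans ?_ (h2.trans h1)
  have h3 : (0:ℝ) ≤ v := Nat.cast_nonneg _
  push_cast
  rw [div_le_div_iff₀ (by norm_num) (by linarith)]
  linarith

lemma C2_ge : 1 / 2 ≤ C2 := le_ciInf twin_half

lemma C2_pos : 0 < C2 := by linarith [C2_ge]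

lemma twin_ev (η : ℝ) (hη : 0 < η) : ∀ᶠ v : ℕ in atTop, twin v ≤ C2 + η := by
  obtain ⟨v₀, hv₀⟩ := exists_lt_of_ciInf_lt (show (⨅ v : ℕ, twin v) < C2 + η by
    change C2 < C2 + η
    linarith)
  filter_upwards [eventually_ge_atTop v₀] with v hv
  exact (twin_anti hv).trans hv₀.le

/-- the product of the factors `1 - 1/(p-1)` -/
lemma prod_shift (v : ℕ) (hv : 2 ≤ v) :
    ∏ p ∈ (Pz v).filter (fun p => ¬ p ∣ 2), (1 - 1 / ((p : ℝ) - 1)) =
      2 * twin v * ∏ p ∈ Pz v, (1 - 1 / (p : ℝ)) := by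
  have h0 : (Pz v).filter (fun p => ¬ p ∣ 2) = (Finset.Icc 3 v).filter Nat.Prime := by
    ext p
    rw [mem_filter, mem_Pz, mem_filter, mem_Icc]
    constructor
    · rintro ⟨⟨hp, hpv⟩, h2⟩
      have h3 := hp.two_le
      refine ⟨⟨?_, hpv⟩, hp⟩
      rcases Nat.eq_or_lt_of_le h3 with h4 | h4
      · exact absurd (by rw [← h4]) h2
      · exact h4
    · rintro ⟨⟨h3, hpv⟩, hp⟩
      refine ⟨⟨hp, hpv⟩, fun h => ?_⟩
      have := Nat.le_of_dvd (by norm_num) h
      omega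
  have h1 : Pz v = insert 2 ((Finset.Icc 3 v).filter Nat.Prime) := by
    ext p
    rw [mem_Pz, mem_insert, mem_filter, mem_Icc]
    constructor
    · rintro ⟨hp, hpv⟩
      rcases Nat.eq_or_lt_of_le hp.two_le with h4 | h4
      · exact Or.inl h4.symm
      · exact Or.inr ⟨⟨h4, hpv⟩, hp⟩
    · rintro (rfl | ⟨⟨h3, hpv⟩, hp⟩)
      · exact ⟨Nat.prime_two, hv⟩
      · exact ⟨hp, hpv⟩
  rw [h0, h1, Finset.prod_insert (by simp)]
  unfold twin
  have h2 : ∏ p ∈ (Finset.Icc 3 v).filter Nat.Prime, (1 - 1 / ((p : ℝ) - 1)) =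
      (∏ p ∈ (Finset.Icc 3 v).filter Nat.Prime, (1 - 1 / ((p : ℝ) - 1) ^ 2)) *
        ∏ p ∈ (Finset.Icc 3 v).filter Nat.Prime, (1 - 1 / (p : ℝ)) := by
    rw [← Finset.prod_mul_distrib]
    refine Finset.prod_congr rfl fun p hp => ?_
    rw [mem_filter, mem_Icc] at hp
    have h3 : (3 : ℝ) ≤ p := by exact_mod_cast hp.1.1
    have h4 : (p : ℝ) - 1 ≠ 0 := by linarith
    have h5 : (p : ℝ) ≠ 0 := by linarith
    field_simp
    ring
  rw [h2]
  push_cast
  ring

/-- sites which are the reflections at `c` of integers without odd prime factors `≤ v` -/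
def Refl (v : ℕ) (W : Finset ℕ) : Prop :=
  ∃ c : ℕ, ∀ k ∈ W, k < c ∧ ∀ p : ℕ, p.Prime → 3 ≤ p → p ≤ v → ¬ p ∣ c - k

theorem cls_refl (η : ℝ) (hη : 0 < η) : Cls 2 (2 * (C2 + η)) Refl := by
  unfold Cls
  filter_upwards [twin_ev η hη, eventually_ge_atTop 2] with v hv1 hv2
  intro T N x hvx hT W hG hW
  obtain ⟨c, hc⟩ := hG
  obtain ⟨s, hs, hsc⟩ := shift W (RR v x N) T hT
  set R : Finset ℕ := W.filter (fun w => w + s ∈ RR v x N) with hR
  have hmemP : ∀ p, p ∈ (Pz v).filter (fun p => ¬ p ∣ 2) → p.Prime ∧ 3 ≤ p ∧ p ≤ v := by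
    intro p hp
    rw [mem_filter, mem_Pz] at hp
    refine ⟨hp.1.1, ?_, hp.1.2⟩
    rcases Nat.eq_or_lt_of_le hp.1.1.two_le with h4 | h4
    · exact absurd (by rw [← h4]) hp.2
    · exact h4
  obtain ⟨b', hb1, hb2'⟩ := Pool.Agent.H50.RK.greedy ((Pz v).filter (fun p => ¬ p ∣ 2))
    (fun p hp => ⟨(hmemP p hp).1, (hmemP p hp).2.1⟩) (R.image (fun k => c - k))
  obtain ⟨R2, hR2, hb2⟩ : ∃ R2 : Finset ℕ, (∀ k, k ∈ R2 ↔ k ∈ R.image (fun k => c - k) ∧
      ∀ p ∈ (Pz v).filter (fun p => ¬ p ∣ 2), ¬ k ≡ b' p [MOD p]) ∧ (R2.card : ℝ) ≤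
      ∑ k ∈ R.image (fun k => c - k), ∏ p ∈ ((Pz v).filter (fun p => ¬ p ∣ 2)).filter
        (fun p => ¬ p ∣ k), (1 - 1 / ((p : ℝ) - 1)) :=
    ⟨_, fun k => Finset.mem_filter, hb2'⟩
  -- the classes
  have hkey : ∀ p k : ℕ, b' p < p → k < c → c - k ≡ b' p [MOD p] → k ≡ c + (p - b' p) [MOD p] := by
    intro p k h1 h2 h3
    have h4 : (c - k) + (k + (p - b' p)) ≡ b' p + (k + (p - b' p)) [MOD p] :=
      Nat.ModEq.add_right _ h3
    have h5 : (c - k) + (k + (p - b' p)) = c + (p - b' p) := by omega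
    have h6 : b' p + (k + (p - b' p)) = k + p := by omega
    rw [h5, h6] at h4
    exact ((h4.trans (by simp [Nat.ModEq])).symm : k ≡ c + (p - b' p) [MOD p])
  refine ⟨fun p => if p ≤ v then c + (p - b' p) else p - s % p, ?_⟩
  have hsub : (W.filter (fun k => ∀ p : ℕ, p.Prime → (p : ℝ) ≤ x → ¬ p ∣ 2 →
        ¬ k ≡ (if p ≤ v then c + (p - b' p) else p - s % p) [MOD p])).card ≤
      R2.card := by
    apply Finset.card_le_card_of_injOn (fun k => c - k)
    · intro k hk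
      rw [Finset.mem_coe, Finset.mem_filter] at hk
      rw [Finset.mem_coe, hR2, Finset.mem_image]
      refine ⟨⟨k, ?_, rfl⟩, fun p hp hpk => ?_⟩
      · rw [hR, Finset.mem_filter]
        refine ⟨hk.1, ?_⟩
        obtain ⟨h1, h2⟩ := hW k hk.1
        refine mem_RR.2 ⟨⟨by omega, by omega⟩, fun p hp hpx hpv hpk => ?_⟩
        have hpq : ¬ p ∣ 2 := fun h => by
          have := Nat.le_of_dvd (by norm_num) h
          omega
        have h1 := hk.2 p hp hpx hpq
        rw [if_neg (by omega)] at h1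
        exact h1 (class_of_dvd p s k hp.pos hpk)
      · obtain ⟨hpp, hp3, hpv⟩ := hmemP p hp
        have hpv' : (p : ℝ) ≤ v := by exact_mod_cast hpv
        have h1 := hk.2 p hpp (hpv'.trans hvx) (mem_filter.1 hp).2
        rw [if_pos hpv] at h1
        exact h1 (hkey p k (hb1 p hp).2 (hc k hk.1).1 hpk)
    · intro k hk k' hk' hkk
      have h1 := (hc k (mem_filter.1 (mem_coe.1 hk)).1).1
      have h2 := (hc k' (mem_filter.1 (mem_coe.1 hk')).1).1
      simp only at hkk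
      omega
  have hprod : ∀ k ∈ R.image (fun k => c - k),
      ∏ p ∈ ((Pz v).filter (fun p => ¬ p ∣ 2)).filter (fun p => ¬ p ∣ k), (1 - 1 / ((p : ℝ) - 1)) =
        ∏ p ∈ (Pz v).filter (fun p => ¬ p ∣ 2), (1 - 1 / ((p : ℝ) - 1)) := by
    intro k hk
    obtain ⟨k₀, hk₀, rfl⟩ := mem_image.1 hk
    congr 1
    apply Finset.filter_true_of_mem
    intro p hp
    obtain ⟨hpp, hp3, hpv⟩ := hmemP p hp
    exact (hc k₀ (mem_filter.1 hk₀).1).2 p hpp hp3 hpv
  rw [Finset.sum_congr rfl hprod, Finset.sum_const, nsmul_eq_mul] at hb2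
  have hRim : ((R.image (fun k => c - k)).card : ℝ) ≤ R.card := by
    exact_mod_cast Finset.card_image_le
  have hsub' : ((W.filter (fun k => ∀ p : ℕ, p.Prime → (p : ℝ) ≤ x → ¬ p ∣ 2 →
        ¬ k ≡ (if p ≤ v then c + (p - b' p) else p - s % p) [MOD p])).card : ℝ) ≤
      R2.card := by
    exact_mod_cast hsub
  rw [prod_shift v hv2] at hb2
  have hPz : 0 ≤ ∏ p ∈ Pz v, (1 - 1 / (p : ℝ)) := by
    refine Finset.prod_nonneg fun p hp => ?_
    exact (one_sub_inv_pos (mem_Pz.1 hp).1).le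
  have htw := twin_pos v
  have h2 : (R.card : ℝ) * T ≤ W.card * (RR v x N).card := by exact_mod_cast hsc
  have hT' : (0:ℝ) ≤ T := Nat.cast_nonneg _
  calc ((W.filter (fun k => ∀ p : ℕ, p.Prime → (p : ℝ) ≤ x → ¬ p ∣ 2 →
        ¬ k ≡ (if p ≤ v then c + (p - b' p) else p - s % p) [MOD p])).card : ℝ) * T
      ≤ ((R.image (fun k => c - k)).card * (2 * twin v * ∏ p ∈ Pz v, (1 - 1 / (p : ℝ)))) * T := by
        apply mul_le_mul_of_nonneg_right (hsub'.trans hb2) hT'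
    _ ≤ (R.card * (2 * twin v * ∏ p ∈ Pz v, (1 - 1 / (p : ℝ)))) * T := by
        apply mul_le_mul_of_nonneg_right _ hT'
        apply mul_le_mul_of_nonneg_right hRim
        positivity
    _ = (R.card * T) * (2 * twin v * ∏ p ∈ Pz v, (1 - 1 / (p : ℝ))) := by ring
    _ ≤ (W.card * (RR v x N).card) * (2 * twin v * ∏ p ∈ Pz v, (1 - 1 / (p : ℝ))) := by
        apply mul_le_mul_of_nonneg_right h2
        positivity
    _ ≤ (W.card * (RR v x N).card) * (2 * (C2 + η) * ∏ p ∈ Pz v, (1 - 1 / (p : ℝ))) := by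
        apply mul_le_mul_of_nonneg_left _ (by positivity)
        apply mul_le_mul_of_nonneg_right _ hPz
        linarith
    _ = _ := by ring

end Pool.Agent.H50.A
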