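import Pool.Agent.H50.A.Gb
import Pool.Agent.H50.A.CoreF

set_option autoImplicit false
set_option linter.unusedVariables false

/-! # Even integers `N` with `N - q` composite for all `q` of a set of primes -/

namespace Pool.Agent.H50.A

open Finset Filter Pool.Agent.H50.Cr Pool.Agent.H50.RC Pool.Agent.H50.TL

open scoped Classical

/-- eventual facts -/
lemma facts_gb (ε c₀ : ℝ) (hε : 0 < ε) (hc₀ : 0 < c₀) :
    ∀ᶠ L : ℝ in atTop, 1000 ≤ L ∧ 2 ≤ Real.log L ∧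
      L ^ (1 / 2 : ℝ) ≤ ε / 64 * c₀ * L ∧
      4 * Real.log L ≤ ε / 4 * L ^ (1 / 2 : ℝ) ∧ 2 ≤ ε / 4 * L ^ (1 / 2 : ℝ) := by
  have h1 : ∀ᶠ L : ℝ in atTop, 1 ≤ ε / 64 * c₀ * L ^ (1 / 2 : ℝ) := by
    have := tendsto_rpow_atTop (show (0:ℝ) < 1 / 2 by norm_num)
    filter_upwards [this.eventually_ge_atTop (1 / (ε / 64 * c₀))] with L hL
    rw [div_le_iff₀ (by positivity)] at hL
    linarith
  have h2 : ∀ᶠ L : ℝ in atTop, 2 ≤ ε / 4 * L ^ (1 / 2 : ℝ) := by
    have := tendsto_rpow_atTop (show (0:ℝ) < 1 / 2 by norm_num)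
    filter_upwards [this.eventually_ge_atTop (2 / (ε / 4))] with L hL
    rw [div_le_iff₀ (by positivity)] at hL
    linarith
  filter_upwards [h1, h2, ev_logpow1 (1 / 2) (16 / ε) (by norm_num),
    Real.tendsto_log_atTop.eventually_ge_atTop (2:ℝ), eventually_ge_atTop (1000:ℝ)] with
    L a1 a2 a3 a4 a5
  have hL0 : 0 < L := by linarith
  refine ⟨a5, a4, ?_, ?_, a2⟩
  · have e1 : L ^ (1 / 2 : ℝ) * L ^ (1 / 2 : ℝ) = L := by
      rw [← Real.rpow_add hL0]
      norm_num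
    have e2 := mul_le_mul_of_nonneg_left a1 (Real.rpow_nonneg hL0.le (1 / 2 : ℝ))
    have e3 : L ^ (1 / 2 : ℝ) * (ε / 64 * c₀ * L ^ (1 / 2 : ℝ)) = ε / 64 * c₀ * L := by
      calc L ^ (1 / 2 : ℝ) * (ε / 64 * c₀ * L ^ (1 / 2 : ℝ)) =
          ε / 64 * c₀ * (L ^ (1 / 2 : ℝ) * L ^ (1 / 2 : ℝ)) := by ring
        _ = _ := by rw [e1]
    linarith
  · have e1 := mul_le_mul_of_nonneg_left a3 (show 0 ≤ ε / 4 by positivity)
    have e2 : ε / 4 * (16 / ε * Real.log L) = 4 * Real.log L := by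
      field_simp
      ring
    linarith

/-- removing the last `c` integers -/
lemma gb_count (X L l u w c ε : ℝ) (hX : X = Real.exp L) (hLl : L = Real.exp l)
    (hL : 1000 ≤ L) (hu : 0 ≤ u) (hw : 0 ≤ w) (hε : 0 < ε) (hε1 : ε < 1)
    (huw : u + w ≤ ε / 1600 * l) (hc : c ≤ Real.exp u * L)
    (h1 : 4 * l ≤ ε / 4 * L ^ (1 / 2 : ℝ)) (h2 : 2 ≤ ε / 4 * L ^ (1 / 2 : ℝ)) :
    X * Real.exp (-(ε * Real.exp (-w) * L)) ≤
      X * Real.exp (-(ε / 4 * Real.exp (-w) * L)) - c := by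
  have hL0 : 0 < L := by linarith
  have hl0 : 0 < l := by
    have : Real.exp 0 < Real.exp l := by rw [← hLl, Real.exp_zero]; linarith
    exact Real.exp_lt_exp.1 this
  have hX0 : 0 < X := by rw [hX]; exact Real.exp_pos _
  -- `exp (-w) L ≥ L ^ (1/2)`
  have hwl : w ≤ 1 / 2 * l := by
    have : ε / 1600 * l ≤ 1 / 2 * l := mul_le_mul_of_nonneg_right (by linarith) hl0.le
    linarith
  have hwL : L ^ (1 / 2 : ℝ) ≤ Real.exp (-w) * L := by
    have e1 : L ^ (1 / 2 : ℝ) = Real.exp (1 / 2 * l) := by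
      rw [hLl, ← Real.exp_mul]
      congr 1
      ring
    rw [e1]
    have e2 : Real.exp (-w) * L = Real.exp (-w + l) := by rw [Real.exp_add, ← hLl]
    rw [e2]
    apply Real.exp_le_exp.2
    linarith
  obtain ⟨Q, hQ⟩ : ∃ Q : ℝ, Q = Real.exp (-w) * L := ⟨_, rfl⟩
  have hQ0 : 0 < Q := by rw [hQ]; positivity
  rw [← hQ] at hwL
  have hQL : Q ≤ L := by
    rw [hQ]
    have : Real.exp (-w) ≤ 1 := Real.exp_le_one_iff.2 (by linarith)
    have := mul_le_mul_of_nonneg_right this hL0.le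
    linarith
  have e0 : ε * Real.exp (-w) * L = ε * Q := by rw [hQ]; ring
  have e0' : ε / 4 * Real.exp (-w) * L = ε / 4 * Q := by rw [hQ]; ring
  rw [e0, e0']
  -- half of the count suffices
  have e1 : Real.exp (-(ε * Q)) * 2 ≤ Real.exp (-(ε / 4 * Q)) := by
    have h3 : (2:ℝ) ≤ Real.exp 1 := by
      have := Real.add_one_le_exp (1:ℝ)
      linarith
    have h4 : ε / 4 * L ^ (1 / 2 : ℝ) ≤ ε / 4 * Q := mul_le_mul_of_nonneg_left hwL (by positivity)
    calc Real.exp (-(ε * Q)) * 2 ≤ Real.exp (-(ε * Q)) * Real.exp 1 :=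
          mul_le_mul_of_nonneg_left h3 (Real.exp_pos _).le
      _ = Real.exp (-(ε * Q) + 1) := by rw [Real.exp_add]
      _ ≤ _ := by
          apply Real.exp_le_exp.2
          linarith
  have hul : u ≤ l := by
    have : ε / 1600 * l ≤ 1 * l := mul_le_mul_of_nonneg_right (by linarith) hl0.le
    linarith
  have e2 : c ≤ Real.exp (2 * l) := by
    refine hc.trans ?_
    rw [hLl, ← Real.exp_add]
    apply Real.exp_le_exp.2
    linarith
  have e3 : 2 * c ≤ X * Real.exp (-(ε / 4 * Q)) := by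
    have h3 : (2:ℝ) ≤ Real.exp 1 := by
      have := Real.add_one_le_exp (1:ℝ)
      linarith
    have h5 : X * Real.exp (-(ε / 4 * Q)) = Real.exp (L + -(ε / 4 * Q)) := by
      rw [hX, Real.exp_add]
    rw [h5]
    have h6 : 2 * c ≤ Real.exp 1 * Real.exp (2 * l) := by
      rcases le_or_gt c 0 with h | h
      · have : 0 ≤ Real.exp 1 * Real.exp (2 * l) := by positivity
        linarith
      · exact mul_le_mul h3 e2 h.le (Real.exp_pos _).le
    refine h6.trans ?_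
    rw [← Real.exp_add]
    apply Real.exp_le_exp.2
    have h7 : ε / 4 * Q ≤ 1 / 4 * L := by
      have := mul_le_mul hε1.le hQL hQ0.le (by norm_num)
      linarith
    have h8 : 4 * l ≤ 1 / 4 * L := by
      have h9 : L ^ (1 / 2 : ℝ) ≤ L := by
        calc L ^ (1 / 2 : ℝ) ≤ L ^ (1 : ℝ) :=
              Real.rpow_le_rpow_of_exponent_le (by linarith) (by norm_num)
          _ = L := Real.rpow_one L
      have h10 : ε / 4 * L ^ (1 / 2 : ℝ) ≤ 1 / 4 * L := by
        have := mul_le_mul hε1.le h9 (Real.rpow_nonneg hL0.le _) (by norm_num)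
        linarith
      linarith
    linarith
  have e4 := mul_le_mul_of_nonneg_left e1 hX0.le
  nlinarith

set_option maxHeartbeats 4000000 in
/-- **even integers `N` such that all `N - q`, `q ∈ Q`, are composite** -/
theorem gold (A ε : ℝ) (hA : 0 < A) (hε : 0 < ε) (hε1 : ε < 1) :
    ∀ᶠ X : ℝ in atTop, ∀ u w : ℝ, 0 ≤ u → 0 ≤ w →
      Real.log (Real.log (Real.log X)) ≤ u + w → u + w ≤ ε / 1600 * Real.log (Real.log X) →
      ∀ Q : Finset ℕ, (∀ p ∈ Q, p.Prime ∧ (p : ℝ) ≤ Real.exp u * Real.log X / 2) →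
      (Q.card : ℝ) * (2 * C2) * (2 * (u + w)) ≤
        (1 - ε) * (Real.log X * (Real.log (Real.log X)) ^ 2 *
          Real.log (Real.log (Real.log (Real.log X))) / Real.log (Real.log (Real.log X))) →
      ∀ x : ℝ, 0 ≤ x → x ≤ Real.exp ((Real.log X) ^ A) →
      X * Real.exp (-(ε * Real.exp (-w) * Real.log X)) ≤
        (((Finset.Ioc ⌊x⌋₊ ⌊x + X⌋₊).filter (fun n => Even n ∧ ∀ q ∈ Q, q < n ∧ ∃ p : ℕ,
          p.Prime ∧ (p : ℝ) ≤ Real.exp (Real.log X / Real.log (Real.log X)) ∧ p ∣ n - q ∧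
            p < n - q)).card : ℝ) := by
  obtain ⟨c₀, hc₀, hWl⟩ := WW_lower
  have ev := (survivorsG 2 (2 * (C2 + C2 * ε / 4)) (by
      have := C2_pos
      positivity) Refl (cls_refl (C2 * ε / 4) (by
      have := C2_pos
      positivity)) (ε / 2) (ε / 4 / 2400) (ε / 4 / 400) (by positivity) (by linarith)
      (by positivity) (by linarith) (by linarith)).and (facts_gb ε c₀ hε hc₀)
  filter_upwards [freq_core 2 (by norm_num) A (ε / 4) hA (by positivity) (by linarith),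
    Real.tendsto_log_atTop.eventually ev, eventually_ge_atTop (1:ℝ)] with X hcore hX hX1
  obtain ⟨hsur, f1, f2, f3, f4, f5⟩ := hX
  intro u w hu hw htau htau' Q hQ hQc x hx hxA
  have hX0 : 0 < X := by linarith
  obtain ⟨L, hL⟩ : ∃ L : ℝ, L = Real.log X := ⟨_, rfl⟩
  have hXL : X = Real.exp L := by rw [hL, Real.exp_log hX0]
  have hcore' := hcore u w hu hw
  rw [← hL] at hcore' hsur f1 f2 f3 f4 f5 htau htau' hQ hQc hxA ⊢
  have hL0 : 0 < L := by linarith
  obtain ⟨l, hl⟩ : ∃ l : ℝ, l = Real.log L := ⟨_, rfl⟩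
  have hLl' : L = Real.exp l := by rw [hl, Real.exp_log hL0]
  have hsur' := hsur u w hu hw htau
  rw [← hl] at hcore' hsur' f2 f4 htau' hQc ⊢
  have hl0 : 0 < l := by linarith
  -- `c`
  obtain ⟨h, hh⟩ : ∃ h : ℝ, h = Real.exp u * L := ⟨_, rfl⟩
  have heu : 1 ≤ Real.exp u := Real.one_le_exp hu
  have hh1 : 1000 ≤ h := by
    rw [hh]
    have := mul_le_mul_of_nonneg_right heu hL0.le
    linarith
  obtain ⟨c, hc⟩ : ∃ c : ℕ, c = ⌊h⌋₊ := ⟨_, rfl⟩
  have hch : (c : ℝ) ≤ h := by rw [hc]; exact Nat.floor_le (by linarith)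
  have hch' : h < c + 1 := by rw [hc]; exact Nat.lt_floor_add_one _
  rw [← hh] at hcore' hsur' hQ
  have hqc : ∀ q ∈ Q, 1 ≤ q ∧ q < c := by
    intro q hq
    obtain ⟨h1, h2⟩ := hQ q hq
    refine ⟨h1.one_lt.le, ?_⟩
    have : (q : ℝ) < c := by linarith
    exact_mod_cast this
  -- the sites
  obtain ⟨Z, hZ⟩ : ∃ Z : Finset ℕ, Z = Q.image (fun q => c - q) := ⟨_, rfl⟩
  obtain ⟨W, hW⟩ : ∃ W : Finset ℕ, W = (Q.filter (fun q : ℕ => L ^ (1 / 2 : ℝ) < q)).image
    (fun q => c - q) := ⟨_, rfl⟩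
  obtain ⟨Z₂, hZ₂⟩ : ∃ Z₂ : Finset ℕ, Z₂ = (Q.filter (fun q : ℕ => (q : ℝ) ≤ L ^ (1 / 2 : ℝ))).image
    (fun q => c - q) := ⟨_, rfl⟩
  have hZb : ∀ z ∈ Z, 1 ≤ z ∧ (z : ℝ) ≤ h := by
    intro z hz
    rw [hZ, mem_image] at hz
    obtain ⟨q, hq, rfl⟩ := hz
    obtain ⟨h1, h2⟩ := hqc q hq
    refine ⟨by omega, ?_⟩
    have : ((c - q : ℕ) : ℝ) ≤ c := by exact_mod_cast Nat.sub_le _ _
    linarith
  have hWZ : W ⊆ Z := by
    rw [hW, hZ]
    exact Finset.image_subset_image (Finset.filter_subset _ _)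
  have hZ₂Z : Z₂ ⊆ Z := by
    rw [hZ₂, hZ]
    exact Finset.image_subset_image (Finset.filter_subset _ _)
  have hWcard : (W.card : ℝ) ≤ Q.card := by
    rw [hW]
    exact_mod_cast Finset.card_image_le.trans (Finset.card_le_card (Finset.filter_subset _ _))
  have hZ₂card : (Z₂.card : ℝ) ≤ L ^ (1 / 2 : ℝ) := by
    have h1 : Z₂.card ≤ ⌊L ^ (1 / 2 : ℝ)⌋₊ := by
      rw [hZ₂]
      refine Finset.card_image_le.trans ?_
      have h2 : Q.filter (fun q : ℕ => (q : ℝ) ≤ L ^ (1 / 2 : ℝ)) ⊆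
          Finset.Icc 1 ⌊L ^ (1 / 2 : ℝ)⌋₊ := by
        intro q hq
        rw [mem_filter] at hq
        rw [mem_Icc]
        exact ⟨(hqc q hq.1).1, Nat.le_floor hq.2⟩
      have := Finset.card_le_card h2
      simpa using this
    have h3 : (Z₂.card : ℝ) ≤ (⌊L ^ (1 / 2 : ℝ)⌋₊ : ℝ) := by exact_mod_cast h1
    exact h3.trans (Nat.floor_le (Real.rpow_nonneg hL0.le _))
  have hC2 := C2_pos
  -- survivors
  obtain ⟨b, hb⟩ := hsur' (by linarith) W (fun k hk => hZb k (hWZ hk)) (by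
      intro v hv
      refine ⟨c, fun k hk => ?_⟩
      rw [hW, mem_image] at hk
      obtain ⟨q, hq, rfl⟩ := hk
      rw [mem_filter] at hq
      obtain ⟨h1, h2⟩ := hqc q hq.1
      refine ⟨by omega, fun p hp hp3 hpv hpd => ?_⟩
      have e1 : c - (c - q) = q := by omega
      rw [e1] at hpd
      have e2 := (Nat.prime_dvd_prime_iff_eq hp (hQ q hq.1).1).1 hpd
      have e3 : (p : ℝ) ≤ v := by exact_mod_cast hpv
      rw [e2] at e3
      linarith [hq.2]) (by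
      have e1 : (W.card : ℝ) * (2 * (C2 + C2 * ε / 4)) * (2 * (u + w)) ≤
          (1 + ε / 4) * ((Q.card : ℝ) * (2 * C2) * (2 * (u + w))) := by
        have e2 : (1 + ε / 4) * ((Q.card : ℝ) * (2 * C2) * (2 * (u + w))) =
            (Q.card : ℝ) * (2 * (C2 + C2 * ε / 4)) * (2 * (u + w)) := by ring
        rw [e2]
        apply mul_le_mul_of_nonneg_right _ (by positivity)
        apply mul_le_mul_of_nonneg_right hWcard (by positivity)
      refine e1.trans ?_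
      have e3 := mul_le_mul_of_nonneg_left hQc (show 0 ≤ 1 + ε / 4 by linarith)
      refine e3.trans ?_
      rw [← mul_assoc]
      apply mul_le_mul_of_nonneg_right
      · nlinarith
      · have hlx1 : 0 ≤ (Q.card : ℝ) * (2 * C2) * (2 * (u + w)) :=
          mul_nonneg (mul_nonneg (Nat.cast_nonneg _) (by linarith)) (by linarith)
        have h1ε : 0 < 1 - ε := by linarith
        exact nonneg_of_mul_nonneg_right (hlx1.trans hQc) h1ε)
  obtain ⟨U₁, hU₁⟩ : ∃ U₁ : Finset ℕ, U₁ = W.filter (fun k => ∀ p : ℕ, p.Prime →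
    (p : ℝ) ≤ ε / 4 / 2400 * L * Real.exp (-w) → ¬ p ∣ 2 → ¬ k ≡ b p [MOD p]) := ⟨_, rfl⟩
  rw [← hU₁] at hb
  have hWW : c₀ * L ≤ L * l * WW L := by
    have h1 := hWl L (by linarith)
    rw [← hl, div_le_iff₀ hl0] at h1
    have := mul_le_mul_of_nonneg_left h1 hL0.le
    linarith
  have hcount := hcore' (by linarith) c Z (U₁ ∪ Z₂) b hZb (by
      apply Finset.union_subset _ hZ₂Z
      intro k hk
      rw [hU₁, mem_filter] at hk
      exact hWZ hk.1) (by
      have e1 : ((U₁ ∪ Z₂).card : ℝ) ≤ U₁.card + Z₂.card := by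
        exact_mod_cast Finset.card_union_le _ _
      have e2 := mul_le_mul_of_nonneg_left hWW (show 0 ≤ ε / 64 by positivity)
      nlinarith) (by
      intro z hz
      rw [hZ, mem_image] at hz
      obtain ⟨q, hq, rfl⟩ := hz
      rcases le_or_gt (q : ℝ) (L ^ (1 / 2 : ℝ)) with h1 | h1
      · left
        apply Finset.mem_union_right
        rw [hZ₂]
        exact mem_image.2 ⟨q, mem_filter.2 ⟨hq, h1⟩, rfl⟩
      · have hzW : c - q ∈ W := by
          rw [hW]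
          exact mem_image.2 ⟨q, mem_filter.2 ⟨hq, h1⟩, rfl⟩
        by_cases h2 : c - q ∈ U₁
        · left
          exact Finset.mem_union_left _ h2
        · right; right
          have h3 : ¬ ∀ p : ℕ, p.Prime → (p : ℝ) ≤ ε / 4 / 2400 * L * Real.exp (-w) → ¬ p ∣ 2 →
              ¬ c - q ≡ b p [MOD p] := fun h' => h2 (by rw [hU₁]; exact mem_filter.2 ⟨hzW, h'⟩)
          push Not at h3
          obtain ⟨p, hp1, hp2, hp3, hp4⟩ := h3
          exact ⟨p, hp1, hp2, hp3, hp4⟩) x hx hxA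
  -- the translation by `c`
  obtain ⟨S, hS⟩ : ∃ S : Finset ℕ, S = ((Finset.Ioc ⌊x⌋₊ ⌊x + X⌋₊).filter (fun n => n ≡ c [MOD 2] ∧
    ∀ z ∈ Z, ∃ p : ℕ, p.Prime ∧ (p : ℝ) ≤ Real.exp (L / l) ∧ p ∣ n + z ∧ p < n + z)) := ⟨_, rfl⟩
  rw [← hS] at hcount
  have hfin : ((S.filter (fun n => n + c ≤ ⌊x + X⌋₊)).card : ℝ) ≤
      (((Finset.Ioc ⌊x⌋₊ ⌊x + X⌋₊).filter (fun n => Even n ∧ ∀ q ∈ Q, q < n ∧ ∃ p : ℕ,
          p.Prime ∧ (p : ℝ) ≤ Real.exp (L / l) ∧ p ∣ n - q ∧
            p < n - q)).card : ℝ) := by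
    apply Nat.cast_le.2
    apply Finset.card_le_card_of_injOn (fun n => n + c)
    · intro n hn
      rw [Finset.mem_coe, Finset.mem_filter, hS, Finset.mem_filter, Finset.mem_Ioc] at hn
      obtain ⟨⟨⟨h1, h2⟩, h3, h4⟩, h5⟩ := hn
      rw [Finset.mem_coe, Finset.mem_filter, Finset.mem_Ioc]
      beta_reduce
      refine ⟨⟨by omega, h5⟩, ?_, fun q hq => ?_⟩
      · rw [Nat.even_iff]
        have h6 : n % 2 = c % 2 := h3
        omega
      · obtain ⟨g1, g2⟩ := hqc q hq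
        obtain ⟨p, hp1, hp2, hp3, hp4⟩ := h4 (c - q) (by
          rw [hZ]
          exact mem_image.2 ⟨q, hq, rfl⟩)
        have e1 : n + (c - q) = n + c - q := by omega
        rw [e1] at hp3 hp4
        exact ⟨by omega, p, hp1, hp2, hp3, hp4⟩
    · intro n _ n' _ hnn
      simp only at hnn
      omega
  have hdiff : (S.card : ℝ) ≤ (S.filter (fun n => n + c ≤ ⌊x + X⌋₊)).card + c := by
    have e1 : S ⊆ (S.filter (fun n => n + c ≤ ⌊x + X⌋₊)) ∪
        Finset.Ioc (⌊x + X⌋₊ - c) ⌊x + X⌋₊ := by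
      intro n hn
      rw [Finset.mem_union, Finset.mem_filter, Finset.mem_Ioc]
      have hn2 : ⌊x⌋₊ < n ∧ n ≤ ⌊x + X⌋₊ := by
        rw [hS, Finset.mem_filter, Finset.mem_Ioc] at hn
        exact hn.1
      rcases Nat.lt_or_ge ⌊x + X⌋₊ (n + c) with h1 | h1
      · right
        exact ⟨by omega, hn2.2⟩
      · left
        exact ⟨hn, h1⟩
    have e2 := (Finset.card_le_card e1).trans (Finset.card_union_le _ _)
    have e3 : (Finset.Ioc (⌊x + X⌋₊ - c) ⌊x + X⌋₊).card ≤ c := by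
      rw [Nat.card_Ioc]
      omega
    have e4 : S.card ≤ (S.filter (fun n => n + c ≤ ⌊x + X⌋₊)).card + c := by omega
    exact_mod_cast e4
  have hfinal := gb_count X L l u w c ε hXL hLl' f1 hu hw hε hε1 htau' (by
    rw [← hh]; exact hch) f4 f5
  linarith

end Pool.Agent.H50.A
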