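import Pool.Agent.H50.A.Pidx

set_option autoImplicit false
set_option linter.unusedVariables false

/-! # Even integers that are not sums of a prime and an early iterated prime-indexed prime -/

namespace Pool.Agent.H50.A

open Finset Filter Pool.Agent.H50.Cr Pool.Agent.H50.RC Pool.Agent.H50.TL

open scoped Classical

/-- `log X (log₂X)² log₄X / (log₃X)²` -/
noncomputable def fR (X : ℝ) : ℝ :=
  Real.log X * (Real.log (Real.log X)) ^ 2 * Real.log (Real.log (Real.log (Real.log X))) /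
    (Real.log (Real.log (Real.log X))) ^ 2

/-- eventual facts for `gold_iter`, as functions of `L = log X` -/
lemma facts_it (D ε a : ℝ) (hD : 0 < D) (hε : 0 < ε) (ha : 0 < a) :
    ∀ᶠ L : ℝ in atTop, 1 ≤ L ∧ 1 ≤ Real.log L ∧ 1 ≤ Real.log (Real.log L) ∧
      0 ≤ Real.log (Real.log (Real.log L)) ∧
      D * Real.log (Real.log L) ≤ ε * Real.log L ∧
      Real.log (Real.log (Real.log L)) ≤ a * (Real.log (Real.log L)) ^ 2 := by
  have hL : Tendsto Real.log atTop atTop := Real.tendsto_log_atTop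
  have h2 := (Real.isLittleO_log_id_atTop.comp_tendsto hL).bound
      (show (0:ℝ) < ε / D by positivity)
  have h3 := (Real.isLittleO_log_id_atTop.comp_tendsto (hL.comp hL)).bound ha
  filter_upwards [h2, h3, eventually_ge_atTop (1:ℝ), hL.eventually_ge_atTop (1:ℝ),
    (hL.comp hL).eventually_ge_atTop (1:ℝ)] with L g2 g3 g4 g5 g6
  simp only [Function.comp, id, Real.norm_eq_abs] at g2 g3 g6
  have g7 : 0 ≤ Real.log (Real.log L) := Real.log_nonneg g5
  have g8 : 0 ≤ Real.log (Real.log (Real.log L)) := Real.log_nonneg g6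
  rw [abs_of_nonneg g7, abs_of_nonneg (by linarith)] at g2
  rw [abs_of_nonneg g8, abs_of_nonneg g7] at g3
  refine ⟨g4, g5, g6, g8, ?_, ?_⟩
  · have := mul_le_mul_of_nonneg_left g2 hD.le
    have e : D * (ε / D * Real.log L) = ε * Real.log L := by field_simp
    linarith
  · have h1 : Real.log (Real.log L) ≤ Real.log (Real.log L) ^ 2 := by nlinarith
    have := mul_le_mul_of_nonneg_left h1 ha.le
    linarith

set_option maxHeartbeats 4000000 in
theorem gold_iter (k : ℕ) (A B ε : ℝ) (hA : 0 < A) (hB : 0 ≤ B) (hε : 0 < ε) :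
    ∀ᶠ X : ℝ in atTop, ∀ x : ℝ, 0 ≤ x → x ≤ Real.exp ((Real.log X) ^ A) →
      X * Real.exp (-(ε * Real.log X / (Real.log (Real.log X)) ^ B)) ≤
        ({N : ℕ | x < N ∧ (N : ℝ) ≤ x + X ∧ Even N ∧ ∀ q : ℕ,
          (∀ i ≤ k, (Nat.primeCounting^[i] q).Prime) →
          (Nat.primeCounting^[k + 1] q : ℝ) ≤ (1 / ((12 + 4 * k + 4 * B) * C2) - ε) * fR X →
          q < N ∧ ∃ p : ℕ, p.Prime ∧
            (p : ℝ) ≤ Real.exp (Real.log X / Real.log (Real.log X)) ∧ p ∣ N - q ∧
              p < N - q}.ncard : ℝ) := by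
  obtain ⟨e, he⟩ : ∃ e : ℝ, e = min ε (1 / 2) := ⟨_, rfl⟩
  have he0 : 0 < e := by rw [he]; exact lt_min hε (by norm_num)
  have he1 : e < 1 := by
    rw [he]; exact lt_of_le_of_lt (min_le_right _ _) (by norm_num)
  have heε : e ≤ ε := by rw [he]; exact min_le_left _ _
  obtain ⟨D, hD⟩ : ∃ D : ℝ, D = 3 + k + B := ⟨_, rfl⟩
  have hk0 : (0:ℝ) ≤ k := Nat.cast_nonneg k
  have hD3 : 3 ≤ D := by rw [hD]; linarith
  have hC2 := C2_pos
  have hC2' := C2_ge
  have hden : (12 + 4 * k + 4 * B) * C2 = 4 * D * C2 := by rw [hD]; ring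
  obtain ⟨κ, hκ⟩ : ∃ κ : ℝ, κ = 1 / ((12 + 4 * k + 4 * B) * C2) - ε := ⟨_, rfl⟩
  have hκD : κ * (4 * D * C2) ≤ 1 - e := by
    rw [hκ, hden, sub_mul, one_div, inv_mul_cancel₀ (by positivity)]
    have h1 : 1 ≤ 4 * D * C2 := by nlinarith
    have h2 := mul_le_mul heε h1 (by norm_num) hε.le
    linarith
  have hκ1 : κ ≤ 1 := by
    have h1 : 1 ≤ 4 * D * C2 := by nlinarith
    by_contra hcon
    push Not at hcon
    have := mul_lt_mul'' hcon (show 1/2 < 4 * D * C2 by linarith) (by norm_num) (by norm_num)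
    nlinarith
  have hL : Tendsto Real.log atTop atTop := Real.tendsto_log_atTop
  obtain ⟨a, ha⟩ : ∃ a : ℝ, a = 1 / (2 * 8 ^ (k + 1)) := ⟨_, rfl⟩
  have ha0 : 0 < a := by rw [ha]; positivity
  filter_upwards [gold A e hA he0 he1,
    hL.eventually (facts_it D (e / 1600) a (by linarith) (by positivity) ha0),
    hL.eventually (pi_steps a ha0 2 (k + 1)), eventually_gt_atTop (0:ℝ)] with X hg hf hp hX0 x hx hxA
  rw [← hκ]
  obtain ⟨L, hL⟩ : ∃ L : ℝ, L = Real.log X := ⟨_, rfl⟩
  have hfR : fR X = L * (Real.log L) ^ 2 * Real.log (Real.log (Real.log L)) /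
    (Real.log (Real.log L)) ^ 2 := by rw [hL]; rfl
  rw [hfR]
  rw [← hL] at hg hf hp hxA ⊢
  obtain ⟨l, hl⟩ : ∃ l : ℝ, l = Real.log L := ⟨_, rfl⟩
  rw [← hl] at hg hf hp ⊢
  obtain ⟨t, ht⟩ : ∃ t : ℝ, t = Real.log l := ⟨_, rfl⟩
  rw [← ht] at hg hf ⊢
  obtain ⟨s, hs⟩ : ∃ s : ℝ, s = Real.log t := ⟨_, rfl⟩
  rw [← hs] at hg hf ⊢
  obtain ⟨f1, f2, f3, f4, f5, f6⟩ := hf
  have hlt : l = Real.exp t := by rw [ht, Real.exp_log (by linarith)]
  obtain ⟨K, hK⟩ : ∃ K : ℝ, K = κ * (L * l ^ 2 * s / t ^ 2) := ⟨_, rfl⟩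
  rw [← hK]
  have hf0 : 0 ≤ L * l ^ 2 * s / t ^ 2 := by positivity
  have hKle : K ≤ a * L * l ^ 2 := by
    rw [hK]
    have h1 : κ * (L * l ^ 2 * s / t ^ 2) ≤ 1 * (L * l ^ 2 * s / t ^ 2) :=
      mul_le_mul_of_nonneg_right hκ1 hf0
    refine h1.trans ?_
    rw [one_mul, div_le_iff₀ (by positivity)]
    have := mul_le_mul_of_nonneg_left f6 (show 0 ≤ L * l ^ 2 by positivity)
    linarith
  -- the set of the `q`
  have hbound : ∀ q : ℕ, (Nat.primeCounting^[k + 1] q : ℝ) ≤ K →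
      (q : ℝ) ≤ Real.exp ((3 + k) * t) * L / 2 := by
    intro q hq
    have h1 := hp q (hq.trans hKle)
    refine h1.trans (le_of_eq ?_)
    have e1 : Real.exp ((3 + k) * t) = l ^ (3 + k) := by
      rw [hlt, ← Real.exp_nat_mul]
      push_cast
      rfl
    rw [e1, ha]
    have e2 : 2 + (k + 1) = 3 + k := by omega
    rw [e2]
    field_simp
  obtain ⟨Q, hQ⟩ : ∃ Q : Finset ℕ, Q = (Finset.range (⌊Real.exp ((3 + k) * t) * L / 2⌋₊ + 1)).filter
    (fun q => (∀ i ≤ k, (Nat.primeCounting^[i] q).Prime) ∧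
      (Nat.primeCounting^[k + 1] q : ℝ) ≤ K) := ⟨_, rfl⟩
  have hQmem : ∀ q : ℕ, (∀ i ≤ k, (Nat.primeCounting^[i] q).Prime) →
      (Nat.primeCounting^[k + 1] q : ℝ) ≤ K → q ∈ Q := by
    intro q h1 h2
    rw [hQ, mem_filter, mem_range]
    exact ⟨Nat.lt_succ_of_le (Nat.le_floor (hbound q h2)), h1, h2⟩
  have hQcard : (Q.card : ℝ) * (4 * D * C2) ≤ (1 - e) * (L * l ^ 2 * s / t ^ 2) := by
    have hone : ∀ q ∈ Q, 1 ≤ Nat.primeCounting^[k + 1] q := by
      intro q hq
      rw [hQ, mem_filter] at hq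
      rw [Function.iterate_succ_apply']
      have h1 := (hq.2.1 k le_rfl).two_le
      have h2 := Nat.monotone_primeCounting h1
      have h3 : Nat.primeCounting 2 = 1 := by decide
      omega
    rcases le_or_gt 0 K with hK0 | hK0
    · have h1 : Q.card ≤ (Finset.Icc 1 ⌊K⌋₊).card := by
        apply Finset.card_le_card_of_injOn (fun q => Nat.primeCounting^[k + 1] q)
        · intro q hq
          have hq' := hq
          rw [Finset.mem_coe, hQ, mem_filter] at hq'
          rw [Finset.mem_coe, mem_Icc]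
          exact ⟨hone q hq, Nat.le_floor hq'.2.2⟩
        · intro q hq q' hq' hqq
          rw [Finset.mem_coe, hQ, mem_filter] at hq hq'
          exact pi_iter_inj k q q' hq.2.1 hq'.2.1 hqq
      rw [Nat.card_Icc] at h1
      have h2 : (Q.card : ℝ) ≤ K := by
        have h3 : (Q.card : ℝ) ≤ (⌊K⌋₊ : ℝ) := by
          apply Nat.cast_le.2
          omega
        exact h3.trans (Nat.floor_le hK0)
      calc (Q.card : ℝ) * (4 * D * C2) ≤ K * (4 * D * C2) :=
            mul_le_mul_of_nonneg_right h2 (by positivity)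
        _ = κ * (4 * D * C2) * (L * l ^ 2 * s / t ^ 2) := by rw [hK]; ring
        _ ≤ _ := mul_le_mul_of_nonneg_right hκD hf0
    · have h1 : Q = ∅ := by
        apply Finset.eq_empty_of_forall_notMem
        intro q hq
        have h2 := hone q hq
        rw [hQ, mem_filter] at hq
        have h3 : (0:ℝ) ≤ (Nat.primeCounting^[k + 1] q : ℝ) := Nat.cast_nonneg _
        linarith [hq.2.2]
      rw [h1]
      simp only [Finset.card_empty, Nat.cast_zero, zero_mul]
      exact mul_nonneg (by linarith) hf0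
  have hmain := hg ((3 + k) * t) (B * t) (by positivity) (by positivity) (by
      have : (3 + k) * t + B * t = D * t := by rw [hD]; ring
      rw [this]
      nlinarith) (by
      have : (3 + k) * t + B * t = D * t := by rw [hD]; ring
      rw [this]
      exact f5) Q (by
      intro p hp'
      rw [hQ, mem_filter] at hp'
      exact ⟨by simpa using hp'.2.1 0 (Nat.zero_le _), hbound p hp'.2.2⟩) (by
      have e1 : (Q.card : ℝ) * (2 * C2) * (2 * ((3 + k) * t + B * t)) =
          (Q.card : ℝ) * (4 * D * C2) * t := by rw [hD]; ring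
      rw [e1]
      have e2 := mul_le_mul_of_nonneg_right hQcard (show 0 ≤ t by linarith)
      refine e2.trans (le_of_eq ?_)
      have ht0 : t ≠ 0 := by linarith
      field_simp) x hx hxA
  refine le_trans (le_trans ?_ hmain) ?_
  · apply mul_le_mul_of_nonneg_left _ hX0.le
    apply Real.exp_le_exp.2
    have e1 : Real.exp (-(B * t)) = 1 / l ^ B := by
      rw [Real.exp_neg, one_div, hlt, ← Real.exp_mul, mul_comm]
    rw [e1]
    have e2 : e * (1 / l ^ B) * L = e * L / l ^ B := by ring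
    rw [e2]
    have e3 : e * L / l ^ B ≤ ε * L / l ^ B := by
      apply div_le_div_of_nonneg_right _ (by positivity)
      exact mul_le_mul_of_nonneg_right heε (by linarith)
    linarith
  · apply Nat.cast_le.2
    rw [← Set.ncard_coe_finset]
    apply Set.ncard_le_ncard
    · intro n hn
      rw [Finset.mem_coe, Finset.mem_filter, Finset.mem_Ioc] at hn
      refine ⟨(Nat.floor_lt hx).1 hn.1.1, ?_, hn.2.1, fun q h1 h2 => hn.2.2 q (hQmem q h1 h2)⟩
      exact (Nat.le_floor_iff (by linarith)).1 hn.1.2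
    · refine (Set.finite_Iic ⌊x + X⌋₊).subset ?_
      intro n hn
      exact Nat.le_floor hn.2.1

end Pool.Agent.H50.A
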