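import Pool.Agent.H50.A.Run

set_option autoImplicit false
set_option linter.unusedVariables false

/-! # Prime-free translates, different sets for the residue classes, gaps in residue classes -/

namespace Pool.Agent.H50.A

open Finset Filter Pool.Agent.H50.RC

open scoped Classical

/-- one residue class -/
theorem run1 (q : ℕ) (hq : 0 < q) (C ε : ℝ) (hε : 0 < ε) :
    ∀ᶠ X : ℝ in atTop, ∀ (r : ℕ) (W : Finset ℕ),
      (∀ w ∈ W, 1 ≤ w ∧ (w : ℝ) ≤ C * Pool.Agent.H50.SC.ff X) →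
      ((W.filter (fun w => q.Coprime (r + w))).card : ℝ) ≤
        (1 / 4 - ε) * (q.totient / q) * Pool.Agent.H50.SC.ff X →
      ∀ x : ℝ, 0 ≤ x → ∃ n : ℕ, x + X / 8 < n ∧
        (n : ℝ) + C * Pool.Agent.H50.SC.ff X ≤ x + X / 2 ∧ n ≡ r [MOD q] ∧
        ∀ w ∈ W, ∃ p : ℕ, p.Prime ∧ (p : ℝ) ≤ X ^ (1 / 4 : ℝ) ∧ p ∣ n + w ∧ p < n + w := by
  obtain ⟨δ, hδ⟩ : ∃ δ : ℝ, δ = min (1 / 2) (4 * ε) := ⟨_, rfl⟩
  have hδ0 : 0 < δ := by rw [hδ]; positivity
  have hδ1 : δ < 1 := by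
    rw [hδ]
    exact lt_of_le_of_lt (min_le_left _ _) (by norm_num)
  have hδε : δ ≤ 4 * ε := by rw [hδ]; exact min_le_right _ _
  have hq0 : (0:ℝ) < q := by exact_mod_cast hq
  have hφ0 : (0:ℝ) < q.totient := by exact_mod_cast Nat.totient_pos.2 hq
  filter_upwards [runQ q hq (max C 1) δ (le_max_right _ _) hδ0 hδ1, ff_pos_ev] with X hX hff
  intro r W hW hWc x hx
  have hCC : C * Pool.Agent.H50.SC.ff X ≤ max C 1 * Pool.Agent.H50.SC.ff X :=
    mul_le_mul_of_nonneg_right (le_max_left _ _) hff.le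
  obtain ⟨n, h1, h2, h3, h4⟩ := hX r W (fun w hw => ⟨(hW w hw).1, (hW w hw).2.trans hCC⟩) (by
    have e1 := mul_le_mul_of_nonneg_right hWc (show (0:ℝ) ≤ q * 4 by positivity)
    have e2 : (1 / 4 - ε) * (q.totient / q) * Pool.Agent.H50.SC.ff X * (q * 4) =
        (1 - 4 * ε) * (q.totient * Pool.Agent.H50.SC.ff X) := by
      field_simp
    rw [e2] at e1
    have e3 : (1 - 4 * ε) * (q.totient * Pool.Agent.H50.SC.ff X) ≤
        (1 - δ) * (q.totient * Pool.Agent.H50.SC.ff X) :=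
      mul_le_mul_of_nonneg_right (by linarith) (by positivity)
    linarith) x hx
  exact ⟨n, h1, by linarith, h3, h4⟩

/-- the choice of the residue class modulo `q` -/
theorem choose_class (q : ℕ) (hq : 0 < q) (S : Finset ℕ) (Z : ℕ → Finset ℕ) :
    ∃ r : ℕ, (((S.biUnion (fun a => (Z a).filter (fun z => r + z ≡ a [MOD q]))).card : ℕ) : ℝ) * q ≤
      ∑ a ∈ S, ((Z a).card : ℝ) := by
  by_contra hcon
  push Not at hcon
  have h1 : ∑ r ∈ range q, (S.biUnion (fun a => (Z a).filter (fun z => r + z ≡ a [MOD q]))).card ≤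
      ∑ a ∈ S, (Z a).card := by
    calc ∑ r ∈ range q, (S.biUnion (fun a => (Z a).filter (fun z => r + z ≡ a [MOD q]))).card
        ≤ ∑ r ∈ range q, ∑ a ∈ S, ((Z a).filter (fun z => r + z ≡ a [MOD q])).card :=
          Finset.sum_le_sum fun r _ => Finset.card_biUnion_le
      _ = ∑ a ∈ S, ∑ r ∈ range q, ((Z a).filter (fun z => r + z ≡ a [MOD q])).card :=
          Finset.sum_comm
      _ ≤ ∑ a ∈ S, (Z a).card := by
          refine Finset.sum_le_sum fun a _ => ?_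
          simp_rw [Finset.card_filter]
          rw [Finset.sum_comm]
          calc ∑ z ∈ Z a, ∑ r ∈ range q, (if r + z ≡ a [MOD q] then 1 else 0)
              ≤ ∑ z ∈ Z a, 1 := by
                refine Finset.sum_le_sum fun z _ => ?_
                rw [← Finset.card_filter]
                refine Finset.card_le_one.2 fun r₁ h₁ r₂ h₂ => ?_
                rw [Finset.mem_filter, Finset.mem_range] at h₁ h₂
                have h3 : r₁ ≡ r₂ [MOD q] := Nat.ModEq.add_right_cancel' z (h₁.2.trans h₂.2.symm)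
                have h4 : r₁ % q = r₂ % q := h3
                rwa [Nat.mod_eq_of_lt h₁.1, Nat.mod_eq_of_lt h₂.1] at h4
            _ = (Z a).card := by simp
  have h2 : ∑ r ∈ range q, ∑ a ∈ S, ((Z a).card : ℝ) <
      ∑ r ∈ range q, (((S.biUnion (fun a => (Z a).filter
        (fun z => r + z ≡ a [MOD q]))).card : ℕ) : ℝ) * q :=
    Finset.sum_lt_sum_of_nonempty (by simpa using hq.ne') (fun r _ => hcon r)
  rw [Finset.sum_const, Finset.card_range, nsmul_eq_mul, ← Finset.sum_mul, mul_comm] at h2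
  have hq0 : (0:ℝ) < q := by exact_mod_cast hq
  have h3 := lt_of_mul_lt_mul_right h2 hq0.le
  have h4 : (∑ r ∈ range q, (((S.biUnion (fun a => (Z a).filter
        (fun z => r + z ≡ a [MOD q]))).card : ℕ) : ℝ)) ≤ ∑ a ∈ S, ((Z a).card : ℝ) := by
    exact_mod_cast h1
  linarith

/-- different sets for the residue classes -/
theorem run2 (q : ℕ) (hq : 0 < q) (C ε : ℝ) (hε : 0 < ε) :
    ∀ᶠ X : ℝ in atTop, ∀ (Z : ℕ → Finset ℕ),
      (∀ a < q, q.Coprime a → ∀ z ∈ Z a, 1 ≤ z ∧ (z : ℝ) ≤ C * Pool.Agent.H50.SC.ff X) →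
      ∑ a ∈ (range q).filter (fun a => q.Coprime a), ((Z a).card : ℝ) ≤
        (1 / 4 - ε) * q.totient * Pool.Agent.H50.SC.ff X →
      ∀ x : ℝ, 0 ≤ x → ∃ n : ℕ, x + X / 8 < n ∧
        (n : ℝ) + C * Pool.Agent.H50.SC.ff X ≤ x + X / 2 ∧
        ∀ a < q, q.Coprime a → ∀ z ∈ Z a, n + z ≡ a [MOD q] →
          ∃ p : ℕ, p.Prime ∧ (p : ℝ) ≤ X ^ (1 / 4 : ℝ) ∧ p ∣ n + z ∧ p < n + z := by
  have hq0 : (0:ℝ) < q := by exact_mod_cast hq
  filter_upwards [run1 q hq C ε hε] with X hX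
  intro Z hZ hZc x hx
  obtain ⟨S, hS⟩ : ∃ S : Finset ℕ, S = (range q).filter (fun a => q.Coprime a) := ⟨_, rfl⟩
  rw [← hS] at hZc
  have hmem : ∀ a, a ∈ S ↔ a < q ∧ q.Coprime a := by
    intro a
    rw [hS, Finset.mem_filter, Finset.mem_range]
  obtain ⟨r, hr⟩ := choose_class q hq S Z
  set W : Finset ℕ := S.biUnion (fun a => (Z a).filter (fun z => r + z ≡ a [MOD q])) with hW
  obtain ⟨n, h1, h2, h3, h4⟩ := hX r W (by
    intro w hw
    rw [hW, Finset.mem_biUnion] at hw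
    obtain ⟨a, ha, hw⟩ := hw
    obtain ⟨ha1, ha2⟩ := (hmem a).1 ha
    exact hZ a ha1 ha2 w (Finset.mem_filter.1 hw).1) (by
    have e1 : ((W.filter (fun w => q.Coprime (r + w))).card : ℝ) ≤ W.card := by
      exact_mod_cast Finset.card_le_card (Finset.filter_subset _ _)
    have e2 : (W.card : ℝ) ≤ (1 / 4 - ε) * q.totient * Pool.Agent.H50.SC.ff X / q := by
      rw [le_div_iff₀ hq0]
      exact hr.trans hZc
    have e3 : (1 / 4 - ε) * q.totient * Pool.Agent.H50.SC.ff X / q =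
        (1 / 4 - ε) * (q.totient / q) * Pool.Agent.H50.SC.ff X := by ring
    linarith) x hx
  refine ⟨n, h1, h2, ?_⟩
  intro a ha hqa z hz hna
  apply h4 z
  rw [hW, Finset.mem_biUnion]
  refine ⟨a, (hmem a).2 ⟨ha, hqa⟩, Finset.mem_filter.2 ⟨hz, ?_⟩⟩
  exact (Nat.ModEq.add_right z h3.symm).trans hna

/-- every class contains primes beyond every bound -/
lemma class_prime (q : ℕ) (hq : 0 < q) (a : ℕ) (ha : a < q) (hqa : q.Coprime a) (N : ℕ) :
    ∃ p : ℕ, N < p ∧ p.Prime ∧ p % q = a := by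
  have : NeZero q := ⟨hq.ne'⟩
  have hu : IsUnit ((a : ℕ) : ZMod q) := (ZMod.isUnit_iff_coprime a q).2 hqa.symm
  obtain ⟨p, hp, hpp, hpa⟩ := Nat.forall_exists_prime_gt_and_eq_mod hu N
  refine ⟨p, hp, hpp, ?_⟩
  have h1 : p ≡ a [MOD q] := (ZMod.natCast_eq_natCast_iff p a q).1 hpa
  have h2 : p % q = a % q := h1
  rwa [Nat.mod_eq_of_lt ha] at h2

/-- record gaps between the primes in residue classes -/
theorem gapsQ (q : ℕ) (hq : 0 < q) (ε : ℝ) (hε : 0 < ε) :
    ∀ᶠ X : ℝ in atTop, ∀ A : Finset ℕ, A.Nonempty → (∀ a ∈ A, a < q ∧ q.Coprime a) →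
      ∃ p p' : ℕ, p.Prime ∧ p'.Prime ∧ p % q ∈ A ∧ p' % q ∈ A ∧ p < p' ∧
        (∀ r : ℕ, r.Prime → r % q ∈ A → p < r → p' ≤ r) ∧ (p : ℝ) ≤ X ∧
        ((q.totient : ℝ) / (4 * A.card) - ε) * Pool.Agent.H50.SC.ff X ≤ (p' : ℝ) - p := by
  obtain ⟨δ, hδ⟩ : ∃ δ : ℝ, δ = min (1 / 8) ε := ⟨_, rfl⟩
  have hδ0 : 0 < δ := by rw [hδ]; positivity
  have hδ1 : δ ≤ 1 / 8 := by rw [hδ]; exact min_le_left _ _
  have hδε : δ ≤ ε := by rw [hδ]; exact min_le_right _ _
  have hφ0 : (0:ℝ) < q.totient := by exact_mod_cast Nat.totient_pos.2 hq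
  have hex : ∀ a : ℕ, ∃ p : ℕ, a < q → q.Coprime a → p.Prime ∧ p % q = a := by
    intro a
    by_cases h : a < q ∧ q.Coprime a
    · obtain ⟨p, _, hp, hpa⟩ := class_prime q hq a h.1 h.2 0
      exact ⟨p, fun _ _ => ⟨hp, hpa⟩⟩
    · exact ⟨0, fun h1 h2 => absurd ⟨h1, h2⟩ h⟩
  choose g hg using hex
  obtain ⟨G, hG⟩ : ∃ G : ℕ, G = ∑ a ∈ range q, g a := ⟨_, rfl⟩
  filter_upwards [run2 q hq (q.totient / 4) (δ / q.totient) (by positivity), ff_pos_ev,
    eventually_ge_atTop (2 * (G : ℝ)), eventually_ge_atTop (0:ℝ)] with X hX hff hXG hX0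
  intro A hA hAq
  obtain ⟨c, hc⟩ : ∃ c : ℝ, c = (q.totient : ℝ) / (4 * A.card) - δ := ⟨_, rfl⟩
  have hA1 : (1:ℝ) ≤ A.card := by exact_mod_cast Finset.card_pos.2 hA
  have hA0 : (0:ℝ) < A.card := by linarith
  have hAφ : (A.card : ℝ) ≤ q.totient := by
    have h1 : A ⊆ (range q).filter (fun a => q.Coprime a) := by
      intro a ha
      rw [Finset.mem_filter, Finset.mem_range]
      exact hAq a ha
    have h2 := Finset.card_le_card h1
    have h3 : ((range q).filter (fun a => q.Coprime a)).card = q.totient := rfl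
    rw [h3] at h2
    exact_mod_cast h2
  have hc0 : 0 < c := by
    have h1 : 1 / 4 ≤ (q.totient : ℝ) / (4 * A.card) := by
      rw [div_le_div_iff₀ (by norm_num) (by positivity)]
      linarith
    rw [hc]
    linarith
  have hc1 : c ≤ q.totient / 4 := by
    have h1 : (q.totient : ℝ) / (4 * A.card) ≤ q.totient / 4 :=
      div_le_div_of_nonneg_left hφ0.le (by norm_num) (by linarith)
    rw [hc]
    linarith
  obtain ⟨H, hH⟩ : ∃ H : ℕ, H = ⌊c * Pool.Agent.H50.SC.ff X⌋₊ := ⟨_, rfl⟩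
  have hcf : 0 ≤ c * Pool.Agent.H50.SC.ff X := by positivity
  have hH1 : (H : ℝ) ≤ c * Pool.Agent.H50.SC.ff X := by rw [hH]; exact Nat.floor_le hcf
  have hH2 : c * Pool.Agent.H50.SC.ff X < H + 1 := by rw [hH]; exact Nat.lt_floor_add_one _
  obtain ⟨n, h1, h2, h3⟩ := hX (fun a => if a ∈ A then Finset.Icc 1 H else ∅) (by
    intro a _ _ z hz
    by_cases ha : a ∈ A
    · rw [if_pos ha, Finset.mem_Icc] at hz
      refine ⟨hz.1, ?_⟩
      have e1 : (z : ℝ) ≤ H := by exact_mod_cast hz.2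
      have e2 : c * Pool.Agent.H50.SC.ff X ≤ q.totient / 4 * Pool.Agent.H50.SC.ff X :=
        mul_le_mul_of_nonneg_right hc1 hff.le
      linarith
    · rw [if_neg ha] at hz
      simp at hz) (by
    have e1 : ∑ a ∈ (range q).filter (fun a => q.Coprime a),
        (((if a ∈ A then Finset.Icc 1 H else ∅ : Finset ℕ)).card : ℝ) ≤ A.card * H := by
      calc ∑ a ∈ (range q).filter (fun a => q.Coprime a),
            (((if a ∈ A then Finset.Icc 1 H else ∅ : Finset ℕ)).card : ℝ)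
          = ∑ a ∈ (range q).filter (fun a => q.Coprime a), (if a ∈ A then (H : ℝ) else 0) := by
            refine Finset.sum_congr rfl fun a _ => ?_
            split_ifs
            · simp
            · simp
        _ = ∑ a ∈ ((range q).filter (fun a => q.Coprime a)).filter (fun a => a ∈ A), (H : ℝ) :=
            (Finset.sum_filter (fun a => a ∈ A) (fun _ => (H : ℝ))).symm
        _ ≤ A.card * H := by
            rw [Finset.sum_const, nsmul_eq_mul]
            apply mul_le_mul_of_nonneg_right _ (Nat.cast_nonneg _)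
            have : ((range q).filter (fun a => q.Coprime a)).filter (fun a => a ∈ A) ⊆ A := by
              intro a ha
              exact (Finset.mem_filter.1 ha).2
            exact_mod_cast Finset.card_le_card this
    refine e1.trans ?_
    have e2 : A.card * (H : ℝ) ≤ A.card * (c * Pool.Agent.H50.SC.ff X) :=
      mul_le_mul_of_nonneg_left hH1 hA0.le
    have e3 : A.card * (c * Pool.Agent.H50.SC.ff X) =
        (q.totient / 4 - δ * A.card) * Pool.Agent.H50.SC.ff X := by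
      rw [hc]
      field_simp
    have e4 : (1 / 4 - δ / q.totient) * q.totient * Pool.Agent.H50.SC.ff X =
        (q.totient / 4 - δ) * Pool.Agent.H50.SC.ff X := by
      field_simp
    rw [e4]
    rw [e3] at e2
    refine e2.trans (mul_le_mul_of_nonneg_right ?_ hff.le)
    nlinarith) (X / 2) (by linarith)
  have hnX : (n : ℝ) ≤ X := by
    have : 0 ≤ (q.totient : ℝ) / 4 * Pool.Agent.H50.SC.ff X := by positivity
    linarith
  -- the prime below
  obtain ⟨a₀, ha₀⟩ := hA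
  obtain ⟨hg1, hg2⟩ := hg a₀ (hAq a₀ ha₀).1 (hAq a₀ ha₀).2
  have hgn : g a₀ ≤ n := by
    have e1 : g a₀ ≤ G := by
      rw [hG]
      exact Finset.single_le_sum (f := g) (fun _ _ => Nat.zero_le _)
        (Finset.mem_range.2 (hAq a₀ ha₀).1)
    have e2 : (G : ℝ) < n := by linarith
    have e3 : G < n := by exact_mod_cast e2
    omega
  obtain ⟨p, hp⟩ : ∃ p, p = Nat.findGreatest (fun m => m.Prime ∧ m % q ∈ A) n := ⟨_, rfl⟩
  have hpP : p.Prime ∧ p % q ∈ A := by
    rw [hp]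
    exact Nat.findGreatest_spec (P := fun m => m.Prime ∧ m % q ∈ A) hgn
      ⟨hg1, by rw [hg2]; exact ha₀⟩
  have hpn : p ≤ n := by rw [hp]; exact Nat.findGreatest_le n
  have hpmax : ∀ m, m ≤ n → m.Prime → m % q ∈ A → m ≤ p := by
    intro m hm hm1 hm2
    rw [hp]
    exact Nat.le_findGreatest hm ⟨hm1, hm2⟩
  -- the prime above
  have hex2 : ∃ m : ℕ, n < m ∧ m.Prime ∧ m % q ∈ A := by
    obtain ⟨m, hm1, hm2, hm3⟩ := class_prime q hq a₀ (hAq a₀ ha₀).1 (hAq a₀ ha₀).2 n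
    exact ⟨m, hm1, hm2, by rw [hm3]; exact ha₀⟩
  obtain ⟨p', hp'⟩ : ∃ p', p' = Nat.find hex2 := ⟨_, rfl⟩
  have hp'P : n < p' ∧ p'.Prime ∧ p' % q ∈ A := by rw [hp']; exact Nat.find_spec hex2
  have hp'min : ∀ m, n < m → m.Prime → m % q ∈ A → p' ≤ m := by
    intro m hm hm1 hm2
    rw [hp']
    exact Nat.find_min' hex2 ⟨hm, hm1, hm2⟩
  refine ⟨p, p', hpP.1, hp'P.2.1, hpP.2, hp'P.2.2, by omega, ?_, ?_, ?_⟩
  · intro m hm1 hm2 hpm
    apply hp'min m _ hm1 hm2
    by_contra hc'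
    have := hpmax m (by omega) hm1 hm2
    omega
  · have : (p : ℝ) ≤ n := by exact_mod_cast hpn
    linarith
  · -- the gap
    have hgap : n + H < p' := by
      by_contra hc'
      push Not at hc'
      obtain ⟨k, hk⟩ : ∃ k, p' = n + k := ⟨p' - n, by omega⟩
      have hk1 : 1 ≤ k := by omega
      have hkH : k ≤ H := by omega
      have hkA := hp'P.2.2
      have hkq := hAq _ hkA
      obtain ⟨r, hr1, hr2, hr3, hr4⟩ := h3 (p' % q) hkq.1 hkq.2 k (by
        rw [if_pos hkA, Finset.mem_Icc]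
        exact ⟨hk1, hkH⟩) (by
        rw [← hk]
        exact (Nat.mod_modEq p' q).symm)
      rw [← hk] at hr3 hr4
      have := (Nat.prime_dvd_prime_iff_eq hr1 hp'P.2.1).1 hr3
      omega
    have e1 : (n : ℝ) + H + 1 ≤ p' := by exact_mod_cast hgap
    have e2 : (p : ℝ) ≤ n := by exact_mod_cast hpn
    have e3 : ((q.totient : ℝ) / (4 * A.card) - ε) * Pool.Agent.H50.SC.ff X ≤
        c * Pool.Agent.H50.SC.ff X := by
      apply mul_le_mul_of_nonneg_right _ hff.le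
      rw [hc]
      linarith
    linarith

end Pool.Agent.H50.A
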