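import Pool.Agent.H50.A.GbF

set_option autoImplicit false
set_option linter.unusedVariables false

/-! # Summands among the iterated prime-indexed primes -/

namespace Pool.Agent.H50.A

open Finset Filter Pool.Agent.H50.Cr Pool.Agent.H50.RC Pool.Agent.H50.TL

lemma pi_inj {q q' : ℕ} (hq : q.Prime) (hq' : q'.Prime)
    (h : Nat.primeCounting q = Nat.primeCounting q') : q = q' := by
  have key : ∀ a b : ℕ, b.Prime → a < b → Nat.primeCounting a < Nat.primeCounting b := by
    intro a b hb hab
    unfold Nat.primeCounting Nat.primeCounting'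
    calc Nat.count Nat.Prime (a + 1) ≤ Nat.count Nat.Prime b := Nat.count_monotone _ hab
      _ < Nat.count Nat.Prime (b + 1) := Nat.count_strict_mono hb (Nat.lt_succ_self b)
  rcases lt_trichotomy q q' with h1 | h1 | h1
  · have := key q q' hq' h1
    omega
  · exact h1
  · have := key q' q hq h1
    omega

lemma pi_iter_inj (k : ℕ) : ∀ q q' : ℕ, (∀ i ≤ k, (Nat.primeCounting^[i] q).Prime) →
    (∀ i ≤ k, (Nat.primeCounting^[i] q').Prime) →
    Nat.primeCounting^[k + 1] q = Nat.primeCounting^[k + 1] q' → q = q' := by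
  induction k with
  | zero =>
    intro q q' h h' he
    exact pi_inj (by simpa using h 0 le_rfl) (by simpa using h' 0 le_rfl) (by simpa using he)
  | succ k ih =>
    intro q q' h h' he
    have h1 : Nat.primeCounting q = Nat.primeCounting q' := by
      apply ih
      · intro i hi
        have := h (i + 1) (by omega)
        rwa [Function.iterate_succ_apply] at this
      · intro i hi
        have := h' (i + 1) (by omega)
        rwa [Function.iterate_succ_apply] at this
      · rwa [Function.iterate_succ_apply, Function.iterate_succ_apply (n := k + 1)] at he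
    exact pi_inj (by simpa using h 0 (by omega)) (by simpa using h' 0 (by omega)) h1

/-- Chebyshev's lower bound -/
lemma pi_lower {y : ℝ} (hy : 100 ≤ y) : y / (4 * Real.log y) ≤ (Nat.primeCounting ⌊y⌋₊ : ℝ) := by
  have h1 := Chebyshev.psi_ge' (show (0:ℝ) ≤ y by linarith)
  have h2 := Chebyshev.psi_le_primeCounting_mul_log' y
  have h3 : 0 < Real.log y := Real.log_pos (by linarith)
  rw [div_le_iff₀ (by positivity)]
  have h4 : Real.log (y + 2) ≤ y / 10 := by
    have e1 : Real.log ((y + 2) / 30) ≤ (y + 2) / 30 - 1 :=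
      Real.log_le_sub_one_of_pos (by linarith)
    rw [Real.log_div (by linarith) (by norm_num)] at e1
    have e2 : Real.log 30 ≤ 3.5 := by
      have e3 : Real.log 30 ≤ Real.log (Real.exp 3.5) := by
        apply Real.log_le_log (by norm_num)
        have e4 : Real.exp 3.5 = Real.exp 1 ^ 3 * Real.exp 0.5 := by
          rw [← Real.exp_nat_mul, ← Real.exp_add]
          norm_num
        have e5 := Real.exp_one_gt_d9
        have e6 : (1.5:ℝ) ≤ Real.exp 0.5 := by
          have := Real.add_one_le_exp (0.5:ℝ)
          linarith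
        rw [e4]
        have e7 : (2.718:ℝ) ^ 3 ≤ Real.exp 1 ^ 3 := by
          apply pow_le_pow_left₀ (by norm_num)
          linarith
        calc (30:ℝ) ≤ 2.718 ^ 3 * 1.5 := by norm_num
          _ ≤ _ := by gcongr
      rwa [Real.log_exp] at e3
    linarith
  have h5 : (0.69:ℝ) ≤ Real.log 2 := by
    have := Real.log_two_gt_d9
    linarith
  have h6 : (y - 1) * 0.69 ≤ (y - 1) * Real.log 2 :=
    mul_le_mul_of_nonneg_left h5 (by linarith)
  have h7 : y / 4 ≤ Chebyshev.psi y := by linarith
  linarith

/-- one step: `π(z) ≤ a L l^m` forces `z ≤ 8 a L l^(m+1)` -/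
lemma pi_step (a : ℝ) (ha : 0 < a) (m : ℕ) : ∀ᶠ L : ℝ in atTop, ∀ z : ℕ,
    (Nat.primeCounting z : ℝ) ≤ a * L * (Real.log L) ^ m →
      (z : ℝ) ≤ 8 * a * L * (Real.log L) ^ (m + 1) := by
  have h1 : ∀ᶠ L : ℝ in atTop, Real.log (8 * a) + ((m : ℝ) + 1) * Real.log (Real.log L) <
      Real.log L := by
    have h2 := (Real.isLittleO_log_id_atTop.comp_tendsto Real.tendsto_log_atTop).bound
      (show (0:ℝ) < 1 / (4 * ((m : ℝ) + 1)) by positivity)
    filter_upwards [h2, Real.tendsto_log_atTop.eventually_ge_atTop (1:ℝ),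
      Real.tendsto_log_atTop.eventually_gt_atTop (4 * |Real.log (8 * a)|)] with L g1 g2 g3
    simp only [Function.comp, id, Real.norm_eq_abs] at g1
    have g4 : 0 ≤ Real.log (Real.log L) := Real.log_nonneg g2
    rw [abs_of_nonneg g4, abs_of_nonneg (by linarith)] at g1
    have g5 := mul_le_mul_of_nonneg_left g1 (show (0:ℝ) ≤ (m : ℝ) + 1 by positivity)
    have g6 : ((m : ℝ) + 1) * (1 / (4 * ((m : ℝ) + 1)) * Real.log L) = Real.log L / 4 := by
      field_simp
    have g7 := le_abs_self (Real.log (8 * a))
    linarith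
  have h3 : ∀ᶠ L : ℝ in atTop, 100 ≤ 8 * a * L := by
    filter_upwards [eventually_ge_atTop (100 / (8 * a))] with L hL
    rw [div_le_iff₀ (by positivity)] at hL
    linarith
  filter_upwards [h1, h3, Real.tendsto_log_atTop.eventually_ge_atTop (1:ℝ),
    eventually_gt_atTop (0:ℝ)] with L g1 g2 g3 g4 z hz
  by_contra hcon
  push Not at hcon
  obtain ⟨y, hy⟩ : ∃ y : ℝ, y = 8 * a * L * (Real.log L) ^ (m + 1) := ⟨_, rfl⟩
  rw [← hy] at hcon
  have hl0 : 0 < Real.log L := by linarith
  have hy1 : 100 ≤ y := by
    rw [hy]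
    have : (1:ℝ) ≤ (Real.log L) ^ (m + 1) := one_le_pow₀ g3
    have := mul_le_mul g2 this (by norm_num) (by linarith)
    linarith
  have h5 := pi_lower hy1
  have h6 : (Nat.primeCounting ⌊y⌋₊ : ℝ) ≤ Nat.primeCounting z := by
    apply Nat.cast_le.2
    apply Nat.monotone_primeCounting
    exact Nat.floor_le_of_le hcon.le
  have hlogy : Real.log y < 2 * Real.log L := by
    have : Real.log y = Real.log (8 * a) + Real.log L + ((m : ℝ) + 1) * Real.log (Real.log L) := by
      rw [hy, Real.log_mul (by positivity) (by positivity), Real.log_mul (by positivity) (by positivity),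
        Real.log_pow]
      push_cast
      ring
    linarith
  have hlogy0 : 0 < Real.log y := Real.log_pos (by linarith)
  have h7 : a * L * (Real.log L) ^ m < y / (4 * Real.log y) := by
    rw [lt_div_iff₀ (by positivity)]
    have h8 : 0 < a * L * (Real.log L) ^ m := by positivity
    calc a * L * (Real.log L) ^ m * (4 * Real.log y) <
        a * L * (Real.log L) ^ m * (4 * (2 * Real.log L)) := by
          apply mul_lt_mul_of_pos_left _ h8
          linarith
      _ = y := by rw [hy]; ring
  linarith

lemma pi_steps (a : ℝ) (ha : 0 < a) (m k : ℕ) : ∀ᶠ L : ℝ in atTop, ∀ z : ℕ,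
    (Nat.primeCounting^[k] z : ℝ) ≤ a * L * (Real.log L) ^ m →
      (z : ℝ) ≤ 8 ^ k * a * L * (Real.log L) ^ (m + k) := by
  induction k with
  | zero =>
    refine Filter.Eventually.of_forall fun L z hz => ?_
    simpa using hz
  | succ k ih =>
    filter_upwards [ih, pi_step (8 ^ k * a) (by positivity) (m + k)] with L g1 g2 z hz
    rw [Function.iterate_succ_apply] at hz
    have h1 := g2 z (g1 _ hz)
    calc (z : ℝ) ≤ _ := h1
      _ = _ := by ring

end Pool.Agent.H50.A
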