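import Pool.Agent.H50.A.Av

set_option autoImplicit false
set_option linter.unusedVariables false

/-! # Survivors among an arbitrary set of sites -/

namespace Pool.Agent.H50.A

open Finset Filter Pool.Agent.H50.Cr Pool.Agent.H50.RC

open scoped Classical

/-- the record function, as a function of `L = log X` -/
noncomputable def fL (L : ℝ) : ℝ :=
  L * (Real.log L) ^ 2 * Real.log (Real.log (Real.log L)) / (Real.log (Real.log L)) ^ 2

lemma num_svQ (ε : ℝ) (hε : 0 < ε) (hε1 : ε < 1) :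
    (1 - ε) * ((1 + ε / 40) * ((1 + 2 * (ε / 40)) * (1 + ε / 40) ^ 2 / (1 - ε / 40))) ≤
      1 - ε / 4 := by
  obtain ⟨u, hu⟩ : ∃ u : ℝ, u = ε / 40 := ⟨_, rfl⟩
  have hε' : ε = 40 * u := by rw [hu]; ring
  rw [← hu, hε']
  have hu0 : 0 < u := by rw [hu]; positivity
  have hu1 : u < 1 / 40 := by linarith
  have h1 : 0 < 1 - u := by linarith
  have h2 : (1 + u) * ((1 + 2 * u) * (1 + u) ^ 2) ≤ (1 - u) * (1 + 10 * u) := by
    nlinarith [mul_pos hu0 hu0, mul_pos (mul_pos hu0 hu0) hu0,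
      mul_pos (mul_pos (mul_pos hu0 hu0) hu0) hu0, mul_pos hu0 (sub_pos.2 hu1),
      mul_pos (mul_pos hu0 hu0) (sub_pos.2 hu1),
      mul_pos (mul_pos (mul_pos hu0 hu0) hu0) (sub_pos.2 hu1)]
  have h3 : (1 + u) * ((1 + 2 * u) * (1 + u) ^ 2 / (1 - u)) ≤ 1 + 10 * u := by
    rw [← mul_div_assoc, div_le_iff₀ h1]
    linarith
  calc (1 - 40 * u) * ((1 + u) * ((1 + 2 * u) * (1 + u) ^ 2 / (1 - u)))
      ≤ (1 - 40 * u) * (1 + 10 * u) := mul_le_mul_of_nonneg_left h3 (by linarith)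
    _ ≤ 1 - 40 * u / 4 := by nlinarith [mul_pos hu0 hu0]

/-- the eventual facts -/
lemma facts_svQ (q : ℕ) (K η ε₁ C C₂ : ℝ) (hη : 0 < η) (hη1 : η < 1 / 2) (hε₁ : 0 < ε₁)
    (hε₁1 : ε₁ ≤ 1) (hC₂ : 0 < C₂) :
    ∀ᶠ L : ℝ in atTop, 1 ≤ L ∧ 1 ≤ Real.log L ∧ 1 ≤ Real.log (Real.log L) ∧
      1 ≤ Real.log (Real.log (Real.log L)) ∧
      K * Real.log (Real.log L) - Real.log ε₁ ≤ η / 2 * Real.log L ∧
      2 * Real.log (Real.log L) ≤ η * Real.log L ∧
      C₂ * Real.log (Real.log (Real.log L)) ≤ ε₁ * (Real.log (Real.log L)) ^ 2 ∧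
      Real.log (Real.log (Real.log L)) ≤ Real.log (Real.log L) ∧
      (1 + 2 * C) ≤ 2 * η * Real.log (Real.log L) ∧
      (C + 1) * Real.log (Real.log L) ≤ η / 4 * Real.log L ∧
      2 * (Real.log (Real.log L)) ^ 2 ≤ Real.log L ∧
      Real.log q ≤ Real.log (Real.log L) := by
  have T1 : Tendsto (fun L : ℝ => Real.log L) atTop atTop := Real.tendsto_log_atTop
  have T2 : Tendsto (fun L : ℝ => Real.log (Real.log L)) atTop atTop :=
    Real.tendsto_log_atTop.comp T1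
  have T3 : Tendsto (fun L : ℝ => Real.log (Real.log (Real.log L))) atTop atTop :=
    Real.tendsto_log_atTop.comp T2
  have T0 : Tendsto (fun L : ℝ => L) atTop atTop := tendsto_id
  have g1 := T1.eventually (Pool.Agent.H50.SC.ev_log (show (0:ℝ) < η / 2 by positivity))
  have g2 := T2.eventually (Pool.Agent.H50.SC.ev_log (show (0:ℝ) < ε₁ / C₂ by positivity))
  have g3 := T2.eventually (Pool.Agent.H50.SC.ev_log (one_pos (α := ℝ)))
  have g4 := T1.eventually (Pool.Agent.H50.SC.ev_log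
    (show (0:ℝ) < η / 4 / (|C| + 1) by positivity))
  have g5 := T1.eventually (Pool.Agent.H50.SC.ev_log
    (show (0:ℝ) < η / 4 / (|K| + 1) by positivity))
  have g6 := T1.eventually Pool.Agent.H50.SC.ev_log_sq
  filter_upwards [g1, g2, g3, g4, g5, g6, T0.eventually_ge_atTop 1, T1.eventually_ge_atTop 1,
    T2.eventually_ge_atTop 1, T3.eventually_ge_atTop 1,
    T1.eventually_ge_atTop (-(Real.log ε₁) / (η / 4)),
    T2.eventually_ge_atTop ((1 + 2 * C) / (2 * η)), T2.eventually_ge_atTop (Real.log q)] with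
      L a1 a2 a3 a4 b5 b6 a5 a6 a7 a8 a9 a11 a12
  refine ⟨a5, a6, a7, a8, ?_, ?_, ?_, by linarith, ?_, ?_, by linarith, a12⟩
  · rw [div_le_iff₀ (by positivity)] at a9
    have h1 : K ≤ |K| + 1 := by linarith [le_abs_self K]
    have h2 : 0 < |K| + 1 := by positivity
    have h3 : K * Real.log (Real.log L) ≤ η / 4 * Real.log L := by
      calc K * Real.log (Real.log L) ≤ (|K| + 1) * Real.log (Real.log L) :=
            mul_le_mul_of_nonneg_right h1 (by linarith)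
        _ ≤ (|K| + 1) * (η / 4 / (|K| + 1) * Real.log L) := mul_le_mul_of_nonneg_left b5 h2.le
        _ = η / 4 * Real.log L := by field_simp
    linarith
  · linarith
  · have h1 : C₂ * Real.log (Real.log (Real.log L)) ≤ ε₁ * Real.log (Real.log L) := by
      have := mul_le_mul_of_nonneg_left a2 hC₂.le
      have e : C₂ * (ε₁ / C₂ * Real.log (Real.log L)) = ε₁ * Real.log (Real.log L) := by
        field_simp
      linarith
    have h2 : ε₁ * Real.log (Real.log L) * 1 ≤ ε₁ * Real.log (Real.log L) *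
        Real.log (Real.log L) := mul_le_mul_of_nonneg_left a7 (by positivity)
    nlinarith
  · rw [div_le_iff₀ (by positivity)] at a11
    linarith
  · have h1 : (C + 1) ≤ |C| + 1 := by linarith [le_abs_self C]
    have h2 : 0 < |C| + 1 := by positivity
    calc (C + 1) * Real.log (Real.log L) ≤ (|C| + 1) * Real.log (Real.log L) :=
          mul_le_mul_of_nonneg_right h1 (by linarith)
      _ ≤ (|C| + 1) * (η / 4 / (|C| + 1) * Real.log L) := mul_le_mul_of_nonneg_left a4 h2.le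
      _ = η / 4 * Real.log L := by field_simp

/-- the sum over primes in the gap -/
lemma gap_sumK (η C l t κ lh lx S : ℝ) (hη : 0 < η) (hη1 : η < 1 / 2) (hC : 0 ≤ C) (hl : 1 ≤ l)
    (ht : 1 ≤ t) (hκ : 2 ≤ κ) (hlx0 : 0 < lx) (hlx : l / (1 + η) ≤ lx) (hlh : lh ≤ lx + κ * t)
    (hlh0 : 0 < lh)
    (hS : S ≤ Real.log (lh / lx) + C / lx) (hC2 : (1 + 2 * C) ≤ 2 * η * t) :
    1 / l + S ≤ κ * t * (1 + 2 * η) / l := by
  have hl0 : 0 < l := by linarith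
  have h1 : Real.log (lh / lx) ≤ lh / lx - 1 := Real.log_le_sub_one_of_pos (by positivity)
  have h2 : lh / lx - 1 ≤ κ * t / lx := by
    rw [div_sub_one hlx0.ne']
    exact div_le_div_of_nonneg_right (by linarith) hlx0.le
  have h3 : 1 / lx ≤ (1 + η) / l := by
    rw [div_le_div_iff₀ hlx0 hl0]
    rw [div_le_iff₀ (by linarith)] at hlx
    linarith
  have h4 : S ≤ (κ * t + C) * (1 / lx) := by
    calc S ≤ κ * t / lx + C / lx := by linarith
      _ = (κ * t + C) * (1 / lx) := by ring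
  have h5 : S ≤ (κ * t + C) * ((1 + η) / l) :=
    h4.trans (mul_le_mul_of_nonneg_left h3 (by positivity))
  have h6 : 1 / l + (κ * t + C) * ((1 + η) / l) = (1 + (κ * t + C) * (1 + η)) / l := by ring
  have h7 : (1 + (κ * t + C) * (1 + η)) / l ≤ κ * t * (1 + 2 * η) / l := by
    apply div_le_div_of_nonneg_right _ hl0.le
    have h8 : C * (1 + η) ≤ C * 2 := mul_le_mul_of_nonneg_left (by linarith) hC
    have h9 : 2 * (η * t) ≤ κ * (η * t) := mul_le_mul_of_nonneg_right hκ (by positivity)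
    nlinarith
  linarith

/-- **few survivors** -/
theorem survivorsK (q : ℕ) (hq : 0 < q) (K C ε ε₁ : ℝ) (hK : 0 ≤ K) (hC : 1 ≤ C) (hε : 0 < ε)
    (hε1 : ε < 1) (hε₁ : 0 < ε₁) (hε₁1 : ε₁ ≤ 1) :
    ∀ᶠ L : ℝ in atTop, ∀ h' : ℝ, L ≤ h' → h' ≤ C * fL L → ∀ W : Finset ℕ,
      (∀ w ∈ W, 1 ≤ w ∧ (w : ℝ) ≤ C * fL L) →
      (W.card : ℝ) * q * (2 * (2 + K)) ≤ (1 - ε) * q.totient * fL L →
      ∃ b : ℕ → ℕ, ((W.filter (fun k => ∀ p : ℕ, p.Prime →
        (p : ℝ) ≤ ε₁ * L / (Real.log L) ^ K → ¬ p ∣ q → ¬ k ≡ b p [MOD p])).card : ℝ) ≤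
          (1 - ε / 4) / 2 * L * Real.log L * WW h' := by
  obtain ⟨C₁, hC₁0, hC₁⟩ := mertens_real
  obtain ⟨C₃, hC₃0, hC₃⟩ := WW_ratio
  obtain ⟨C₄, hC₄⟩ : ∃ C₄ : ℝ, C₄ = C₁ + C₃ := ⟨_, rfl⟩
  obtain ⟨η, hη⟩ : ∃ η : ℝ, η = ε / 40 := ⟨_, rfl⟩
  have hη0 : 0 < η := by rw [hη]; positivity
  have hη1 : η < 1 / 2 := by rw [hη]; linarith
  have hCC1 : C₁ ≤ C₄ := by rw [hC₄]; linarith
  have hCC3 : C₃ ≤ C₄ := by rw [hC₄]; linarith
  have hC₄0 : 0 ≤ C₄ := by linarith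
  obtain ⟨C₂, hC₂⟩ : ∃ C₂ : ℝ, C₂ = C * (1 / η + 2) := ⟨_, rfl⟩
  have hC₂0 : 0 < C₂ := by rw [hC₂]; positivity
  have hCC2 : C ≤ C₂ := by
    rw [hC₂]
    have : 0 < 1 / η := by positivity
    nlinarith
  filter_upwards [facts_svQ q K η ε₁ C₄ C₂ hη0 hη1 hε₁ hε₁1 hC₂0, smooth_ev η hη0 hη1] with L hf hsm
  obtain ⟨f1, f2, f3, f4, f5, f7, f8, f9, f10, f11, f12, f13⟩ := hf
  intro h' hLh' hh' W hW hWc
  obtain ⟨fl, hfl⟩ : ∃ fl : ℝ, fl = fL L := ⟨_, rfl⟩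
  have hfl' : fl = L * (Real.log L) ^ 2 * Real.log (Real.log (Real.log L)) /
      (Real.log (Real.log L)) ^ 2 := by rw [hfl]; rfl
  rw [← hfl] at hh' hW hWc
  obtain ⟨l, hl⟩ : ∃ l : ℝ, l = Real.log L := ⟨_, rfl⟩
  rw [← hl] at f2 f3 f4 f5 f7 f8 f9 f10 f11 f12 f13 hsm hfl' ⊢
  obtain ⟨t, ht⟩ : ∃ t : ℝ, t = Real.log l := ⟨_, rfl⟩
  rw [← ht] at f3 f4 f5 f7 f8 f9 f10 f11 f12 f13 hsm hfl'
  obtain ⟨s, hs⟩ : ∃ s : ℝ, s = Real.log t := ⟨_, rfl⟩
  rw [← hs] at f4 f8 f9 hsm hfl'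
  obtain ⟨V, hV⟩ : ∃ V : ℝ, V = (1 - η) * l * s / t := ⟨_, rfl⟩
  rw [← hV] at hsm
  obtain ⟨κ, hκ⟩ : ∃ κ : ℝ, κ = 2 + K := ⟨_, rfl⟩
  rw [← hκ] at hWc
  have hκ2 : 2 ≤ κ := by linarith
  have hL0 : 0 < L := by linarith
  have hl0 : 0 < l := by linarith
  have ht0 : 0 < t := by linarith
  have hs0 : 0 < s := by linarith
  have h1η : 0 < 1 - η := by linarith
  have hfl0 : 0 < fl := by rw [hfl']; positivity
  -- `x`
  obtain ⟨x, hx⟩ : ∃ x : ℝ, x = ε₁ * L / l ^ K := ⟨_, rfl⟩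
  rw [← hx]
  have hlK : 1 ≤ l ^ K := Real.one_le_rpow f2 hK
  have hlK0 : 0 < l ^ K := by linarith
  have hx0 : 0 < x := by rw [hx]; positivity
  have hxL : x ≤ L := by
    rw [hx, div_le_iff₀ hlK0]
    have h1 : ε₁ * L ≤ 1 * L := mul_le_mul_of_nonneg_right hε₁1 hL0.le
    have h2 : L * 1 ≤ L * l ^ K := mul_le_mul_of_nonneg_left hlK hL0.le
    linarith
  have hlogx : Real.log x = Real.log ε₁ + l - K * t := by
    rw [hx, Real.log_div (by positivity) hlK0.ne', Real.log_mul hε₁.ne' hL0.ne', ← hl,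
      Real.log_rpow hl0, ← ht]
  have hlx2 : l - η / 2 * l ≤ Real.log x := by rw [hlogx]; linarith
  have hlx1 : l / (1 + η) ≤ Real.log x := by
    rw [div_le_iff₀ (by linarith)]
    have e1 : (l - η / 2 * l) * (1 + η) ≤ Real.log x * (1 + η) :=
      mul_le_mul_of_nonneg_right hlx2 (by linarith)
    have e2 : l ≤ (l - η / 2 * l) * (1 + η) := by nlinarith [mul_pos hη0 hl0]
    linarith
  have hlx0 : 0 < Real.log x := lt_of_lt_of_le (by positivity) hlx1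
  -- `M`, `T`, `N`
  obtain ⟨M, hM⟩ : ∃ M : ℝ, M = C * fl := ⟨_, rfl⟩
  rw [← hM] at hh' hW
  have hLM : L ≤ M := hLh'.trans hh'
  have hM1 : 1 ≤ M := f1.trans hLM
  have hM0 : 0 < M := by linarith
  obtain ⟨T, hT⟩ : ∃ T : ℕ, T = ⌈M / η⌉₊ := ⟨_, rfl⟩
  have hT1 : M / η ≤ T := by rw [hT]; exact Nat.le_ceil _
  have hT2 : (T : ℝ) < M / η + 1 := by rw [hT]; exact Nat.ceil_lt_add_one (by positivity)
  have hT0 : (0:ℝ) < T := lt_of_lt_of_le (by positivity) hT1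
  have hT0' : 0 < T := by exact_mod_cast hT0
  have hMT : M ≤ η * T := by
    rw [div_le_iff₀ hη0] at hT1
    linarith
  obtain ⟨N, hN⟩ : ∃ N : ℕ, N = T + ⌊M⌋₊ := ⟨_, rfl⟩
  have hNr : (N : ℝ) = T + (⌊M⌋₊ : ℝ) := by rw [hN]; push_cast; ring
  have hMf : (⌊M⌋₊ : ℝ) ≤ M := Nat.floor_le hM0.le
  have hMf0 : (0:ℝ) ≤ (⌊M⌋₊ : ℝ) := Nat.cast_nonneg _
  have hNT : (N : ℝ) ≤ (1 + η) * T := by linarith
  have hTM : M ≤ T := by
    have : η * T ≤ 1 * T := mul_le_mul_of_nonneg_right (by linarith) hT0.le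
    linarith
  have hLN : L ≤ N := by linarith
  have hN0 : (0:ℝ) < N := by linarith
  have hxN : x ≤ N := hxL.trans hLN
  have hNC : (N : ℝ) ≤ C₂ * fl := by
    have e1 : M / η = C * (1 / η) * fl := by rw [hM]; ring
    have e2 : C₂ * fl = C * (1 / η) * fl + 2 * M := by rw [hC₂, hM]; ring
    linarith
  have hNx : (N : ℝ) ≤ ε₁ * L * l ^ 2 := by
    refine hNC.trans ?_
    rw [hfl', ← mul_div_assoc, div_le_iff₀ (by positivity)]
    have e1 : C₂ * s * (L * l ^ 2) ≤ ε₁ * t ^ 2 * (L * l ^ 2) :=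
      mul_le_mul_of_nonneg_right f8 (by positivity)
    linarith
  have hlogN : Real.log N ≤ Real.log x + κ * t := by
    have e1 : Real.log (ε₁ * L * l ^ 2) = Real.log ε₁ + l + 2 * t := by
      rw [Real.log_mul (by positivity) (by positivity), Real.log_mul hε₁.ne' hL0.ne', Real.log_pow,
        ← hl, ← ht]
      norm_num
    have e2 := Real.log_le_log hN0 hNx
    rw [e1] at e2
    rw [hlogx, hκ]
    linarith
  have hlogN0 : 0 < Real.log N := lt_of_lt_of_le hlx0 (Real.log_le_log hx0 hxN)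
  -- `h'`
  have hh'0 : 0 < h' := by linarith
  have hlogh' : Real.log h' ≤ (1 + η) * l := by
    have e0 : C * s ≤ t ^ 2 := by
      have e1 : C * s ≤ C₂ * s := mul_le_mul_of_nonneg_right hCC2 hs0.le
      have e2 : ε₁ * t ^ 2 ≤ 1 * t ^ 2 := mul_le_mul_of_nonneg_right hε₁1 (by positivity)
      linarith
    have e1 : h' ≤ L * l ^ 2 := by
      refine hh'.trans ?_
      rw [hM, hfl', ← mul_div_assoc, div_le_iff₀ (by positivity)]
      have e2 : C * s * (L * l ^ 2) ≤ t ^ 2 * (L * l ^ 2) :=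
        mul_le_mul_of_nonneg_right e0 (by positivity)
      linarith
    have e2 := Real.log_le_log hh'0 e1
    have e3 : Real.log (L * l ^ 2) = l + 2 * t := by
      rw [Real.log_mul hL0.ne' (by positivity), Real.log_pow, ← hl, ← ht]
      norm_num
    rw [e3] at e2
    linarith
  -- `V`
  have hV0 : 0 < V := by rw [hV]; positivity
  have hVl : V ≤ (1 - η) * l := by
    rw [hV, div_le_iff₀ ht0]
    exact mul_le_mul_of_nonneg_left f9 (by positivity)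
  have hVx : Real.exp V ≤ x := by
    rw [← Real.exp_log hx0]
    apply Real.exp_le_exp.2
    nlinarith
  have hVt : t ≤ V := by
    rw [hV, le_div_iff₀ ht0]
    have e1 : l * 1 ≤ l * s := mul_le_mul_of_nonneg_left f4 hl0.le
    nlinarith
  have hV2 : (2:ℝ) ≤ Real.exp V := by
    have e2 := Real.add_one_le_exp V
    linarith
  have hqV : (q : ℝ) ≤ Real.exp V := by
    have hq0 : (0:ℝ) < q := by exact_mod_cast hq
    rw [← Real.exp_log hq0]
    exact Real.exp_le_exp.2 (f13.trans hVt)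
  have hx2 : 2 ≤ x := hV2.trans hVx
  obtain ⟨b, hb⟩ := classesQ q hq ⌊Real.exp V⌋₊ T N x
    ((Nat.floor_le (Real.exp_pos _).le).trans hVx) (Nat.le_floor hqV) hT0' W (by
      intro w hw
      obtain ⟨h1, h2⟩ := hW w hw
      have h3 : w ≤ ⌊M⌋₊ := Nat.le_floor h2
      exact ⟨h1, by omega⟩)
  refine ⟨b, ?_⟩
  obtain ⟨U, hU⟩ : ∃ U : ℝ, U = ((W.filter (fun k => ∀ p : ℕ, p.Prime →
        (p : ℝ) ≤ x → ¬ p ∣ q → ¬ k ≡ b p [MOD p])).card : ℝ) := ⟨_, rfl⟩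
  rw [← hU] at hb ⊢
  have hpz : ∏ p ∈ Pz ⌊Real.exp V⌋₊, (1 - 1 / (p : ℝ)) = WW (Real.exp V) := by
    unfold WW Pz
    refine Finset.prod_congr ?_ fun _ _ => rfl
    ext p
    simp only [Finset.mem_filter, Finset.mem_Ioc, Finset.mem_Icc]
    constructor
    · rintro ⟨⟨h1, h2⟩, h3⟩
      exact ⟨⟨by omega, h2⟩, h3⟩
    · rintro ⟨⟨h1, h2⟩, h3⟩
      exact ⟨⟨by omega, h2⟩, h3⟩
  rw [hpz] at hb
  -- the size of `RR`
  have hS := (abs_le.1 (hC₁ x N hx2 hxN)).2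
  have hS' : ∑ q ∈ PR x N, 1 / (q : ℝ) ≤ Real.log (Real.log N / Real.log x) + C₄ / Real.log x := by
    have : C₁ / Real.log x ≤ C₄ / Real.log x := div_le_div_of_nonneg_right hCC1 hlx0.le
    linarith
  have hgs := gap_sumK η C₄ l t κ (Real.log N) (Real.log x) _ hη0 hη1 hC₄0 f2 f3 hκ2 hlx0 hlx1
    hlogN hlogN0 hS' f10
  have hRR : ((RR ⌊Real.exp V⌋₊ x N).card : ℝ) ≤ N * (κ * t * (1 + 2 * η) / l) := by
    have e1 := RR_card ⌊Real.exp V⌋₊ N x
    have e2 := hsm N hLN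
    calc ((RR ⌊Real.exp V⌋₊ x N).card : ℝ) ≤ N / l + N * ∑ q ∈ PR x N, 1 / (q : ℝ) := by linarith
      _ = N * (1 / l + ∑ q ∈ PR x N, 1 / (q : ℝ)) := by ring
      _ ≤ _ := mul_le_mul_of_nonneg_left hgs hN0.le
  -- the product
  have hVh' : Real.exp V ≤ h' := hVx.trans (hxL.trans hLh')
  have hWr := hC₃ (Real.exp V) h' hV2 hVh'
  rw [Real.log_exp] at hWr
  have hgp := gap_prod η C₃ l t s (Real.log h') V hη0 hη1 hC₃0 f2 f3 f4 hV hlogh' (by
    have : (C₃ + 1) * t ≤ (C₄ + 1) * t := mul_le_mul_of_nonneg_right (by linarith) ht0.le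
    linarith)
  have hWh := WW_pos h'
  have hWV : WW (Real.exp V) ≤ WW h' * ((1 + η) ^ 2 * t / ((1 - η) * s)) :=
    hWr.trans (mul_le_mul_of_nonneg_left hgp hWh.le)
  have hnum := num_svQ ε hε hε1
  rw [← hη] at hnum
  obtain ⟨Q, hQ⟩ : ∃ Q : ℝ, Q = (1 + η) * ((1 + 2 * η) * (1 + η) ^ 2 / (1 - η)) := ⟨_, rfl⟩
  rw [← hQ] at hnum
  have hQ0 : 0 < Q := by rw [hQ]; positivity
  have hφ0 : (0:ℝ) < q.totient := by exact_mod_cast Nat.totient_pos.2 hq
  have hq0 : (0:ℝ) < q := by exact_mod_cast hq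
  have hκ0 : 0 < κ := by linarith
  have e1 : W.card * ((RR ⌊Real.exp V⌋₊ x N).card : ℝ) * q * WW (Real.exp V) * (2 * κ) ≤
      ((1 - ε) * q.totient * fl) * (((1 + η) * T) * (κ * t * (1 + 2 * η) / l)) *
        (WW h' * ((1 + η) ^ 2 * t / ((1 - η) * s))) := by
    have e2 : ((RR ⌊Real.exp V⌋₊ x N).card : ℝ) ≤ ((1 + η) * T) * (κ * t * (1 + 2 * η) / l) :=
      hRR.trans (mul_le_mul_of_nonneg_right hNT (by positivity))
    have e3 : W.card * ((RR ⌊Real.exp V⌋₊ x N).card : ℝ) * q * WW (Real.exp V) * (2 * κ) =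
      (W.card * q * (2 * κ)) * ((RR ⌊Real.exp V⌋₊ x N).card : ℝ) * WW (Real.exp V) := by ring
    rw [e3]
    have h1ε : 0 ≤ 1 - ε := by linarith
    have hWpos := (WW_pos (Real.exp V)).le
    gcongr
  have e4 : ((1 - ε) * q.totient * fl) * (((1 + η) * T) * (κ * t * (1 + 2 * η) / l)) *
        (WW h' * ((1 + η) ^ 2 * t / ((1 - η) * s))) =
      ((1 - ε) * Q) * (q.totient * T * κ * (L * l * WW h')) := by
    rw [hfl', hQ]
    field_simp
  have e5 : ((1 - ε) * Q) * (q.totient * T * κ * (L * l * WW h')) ≤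
      (1 - ε / 4) * (q.totient * T * κ * (L * l * WW h')) :=
    mul_le_mul_of_nonneg_right hnum (by positivity)
  have e6 : U * T * q.totient * (2 * κ) ≤ (1 - ε / 4) * (q.totient * T * κ * (L * l * WW h')) := by
    have := mul_le_mul_of_nonneg_right hb (show 0 ≤ 2 * κ by positivity)
    linarith
  have e7 : ((1 - ε / 4) / 2 * L * l * WW h') * (T * q.totient * (2 * κ)) =
      (1 - ε / 4) * (q.totient * T * κ * (L * l * WW h')) := by ring
  have e8 : U * (T * q.totient * (2 * κ)) ≤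
      ((1 - ε / 4) / 2 * L * l * WW h') * (T * q.totient * (2 * κ)) := by
    rw [e7]
    linarith
  exact le_of_mul_le_mul_right e8 (by positivity)

end Pool.Agent.H50.A
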