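import Pool.Agent.H50.A.Sv

set_option autoImplicit false
set_option linter.unusedVariables false

/-! # Survivors among an arbitrary set of sites, uniform version -/

namespace Pool.Agent.H50.A

open Finset Filter Pool.Agent.H50.Cr Pool.Agent.H50.RC

open scoped Classical

/-- the eventual facts -/
lemma facts_svU (q : ℕ) (η ε₁ C : ℝ) (hη : 0 < η) (hε₁ : 0 < ε₁) :
    ∀ᶠ L : ℝ in atTop, 1 ≤ L ∧ 1 ≤ Real.log L ∧ 1 ≤ Real.log (Real.log L) ∧
      1 ≤ Real.log (Real.log (Real.log L)) ∧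
      - Real.log ε₁ ≤ η / 4 * Real.log L ∧
      Real.log (Real.log (Real.log L)) ≤ Real.log (Real.log L) ∧
      (1 + 2 * C) ≤ η * Real.log (Real.log L) ∧
      (C + 1) * Real.log (Real.log L) ≤ η / 4 * Real.log L ∧
      2 * (Real.log (Real.log L)) ^ 2 ≤ Real.log L ∧
      Real.log q ≤ Real.log (Real.log L) := by
  have T1 : Tendsto (fun L : ℝ => Real.log L) atTop atTop := Real.tendsto_log_atTop
  have T2 : Tendsto (fun L : ℝ => Real.log (Real.log L)) atTop atTop :=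
    Real.tendsto_log_atTop.comp T1
  have T3 : Tendsto (fun L : ℝ => Real.log (Real.log (Real.log L))) atTop atTop :=
    Real.tendsto_log_atTop.comp T2
  have T0 : Tendsto (fun L : ℝ => L) atTop atTop := tendsto_id
  have g3 := T2.eventually (Pool.Agent.H50.SC.ev_log (one_pos (α := ℝ)))
  have g4 := T1.eventually (Pool.Agent.H50.SC.ev_log
    (show (0:ℝ) < η / 4 / (|C| + 1) by positivity))
  have g6 := T1.eventually Pool.Agent.H50.SC.ev_log_sq
  filter_upwards [g3, g4, g6, T0.eventually_ge_atTop 1, T1.eventually_ge_atTop 1,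
    T2.eventually_ge_atTop 1, T3.eventually_ge_atTop 1,
    T1.eventually_ge_atTop (-(Real.log ε₁) / (η / 4)),
    T2.eventually_ge_atTop ((1 + 2 * C) / η), T2.eventually_ge_atTop (Real.log q)] with
      L a3 a4 b6 a5 a6 a7 a8 a9 a11 a12
  refine ⟨a5, a6, a7, a8, ?_, by linarith, ?_, ?_, by linarith, a12⟩
  · rw [div_le_iff₀ (by positivity)] at a9
    linarith
  · rw [div_le_iff₀ (by positivity)] at a11
    linarith
  · have h1 : (C + 1) ≤ |C| + 1 := by linarith [le_abs_self C]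
    have h2 : 0 < |C| + 1 := by positivity
    calc (C + 1) * Real.log (Real.log L) ≤ (|C| + 1) * Real.log (Real.log L) :=
          mul_le_mul_of_nonneg_right h1 (by linarith)
      _ ≤ (|C| + 1) * (η / 4 / (|C| + 1) * Real.log L) := mul_le_mul_of_nonneg_left a4 h2.le
      _ = η / 4 * Real.log L := by field_simp

/-- the sum over primes in the gap -/
lemma gap_sumU (η C C₅ l t τ lh lx S : ℝ) (hη : 0 < η) (hη1 : η < 1 / 2) (hC : 0 ≤ C)
    (hC₅ : 0 ≤ C₅) (hl : 1 ≤ l)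
    (ht : 1 ≤ t) (hτ : t ≤ τ) (hlx0 : 0 < lx) (hlx : l / (1 + η) ≤ lx) (hlh : lh ≤ lx + τ + C₅)
    (hlh0 : 0 < lh)
    (hS : S ≤ Real.log (lh / lx) + C / lx) (hC2 : (1 + 2 * (C + C₅)) ≤ η * t) :
    1 / l + S ≤ τ * (1 + 2 * η) / l := by
  have hl0 : 0 < l := by linarith
  have hτ0 : 0 < τ := by linarith
  have h1 : Real.log (lh / lx) ≤ lh / lx - 1 := Real.log_le_sub_one_of_pos (by positivity)
  have h2 : lh / lx - 1 ≤ (τ + C₅) / lx := by
    rw [div_sub_one hlx0.ne']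
    exact div_le_div_of_nonneg_right (by linarith) hlx0.le
  have h3 : 1 / lx ≤ (1 + η) / l := by
    rw [div_le_div_iff₀ hlx0 hl0]
    rw [div_le_iff₀ (by linarith)] at hlx
    linarith
  have h4 : S ≤ (τ + C₅ + C) * (1 / lx) := by
    calc S ≤ (τ + C₅) / lx + C / lx := by linarith
      _ = (τ + C₅ + C) * (1 / lx) := by ring
  have h5 : S ≤ (τ + C₅ + C) * ((1 + η) / l) :=
    h4.trans (mul_le_mul_of_nonneg_left h3 (by positivity))
  have h6 : 1 / l + (τ + C₅ + C) * ((1 + η) / l) = (1 + (τ + C₅ + C) * (1 + η)) / l := by ring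
  have h7 : (1 + (τ + C₅ + C) * (1 + η)) / l ≤ τ * (1 + 2 * η) / l := by
    apply div_le_div_of_nonneg_right _ hl0.le
    have h8 : (C + C₅) * (1 + η) ≤ (C + C₅) * 2 :=
      mul_le_mul_of_nonneg_left (by linarith) (by linarith)
    have h9 : η * t ≤ η * τ := mul_le_mul_of_nonneg_left hτ hη.le
    nlinarith
  linarith

/-- **few survivors** -/
theorem survivorsU (q : ℕ) (hq : 0 < q) (ε ε₁ δ : ℝ) (hε : 0 < ε)
    (hε1 : ε < 1) (hε₁ : 0 < ε₁) (hε₁1 : ε₁ ≤ 1) (hδ : δ ≤ ε / 160) :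
    ∀ᶠ L : ℝ in atTop, ∀ u w : ℝ, 0 ≤ u → 0 ≤ w → Real.log (Real.log L) ≤ u + w →
      u + w ≤ δ * Real.log L → ∀ W : Finset ℕ,
      (∀ k ∈ W, 1 ≤ k ∧ (k : ℝ) ≤ Real.exp u * L) →
      (W.card : ℝ) * q * (2 * (u + w)) ≤ (1 - ε) * q.totient *
        (L * (Real.log L) ^ 2 * Real.log (Real.log (Real.log L)) / Real.log (Real.log L)) →
      ∃ b : ℕ → ℕ, ((W.filter (fun k => ∀ p : ℕ, p.Prime →
        (p : ℝ) ≤ ε₁ * L * Real.exp (-w) → ¬ p ∣ q → ¬ k ≡ b p [MOD p])).card : ℝ) ≤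
          (1 - ε / 4) / 2 * L * Real.log L * WW L := by
  obtain ⟨C₁, hC₁0, hC₁⟩ := mertens_real
  obtain ⟨C₃, hC₃0, hC₃⟩ := WW_ratio
  obtain ⟨η, hη⟩ : ∃ η : ℝ, η = ε / 40 := ⟨_, rfl⟩
  have hη0 : 0 < η := by rw [hη]; positivity
  have hη1 : η < 1 / 2 := by rw [hη]; linarith
  obtain ⟨C₂, hC₂⟩ : ∃ C₂ : ℝ, C₂ = 1 / η + 2 := ⟨_, rfl⟩
  have hC₂1 : 1 ≤ C₂ := by
    rw [hC₂]
    have : 0 < 1 / η := by positivity
    linarith
  obtain ⟨C₅, hC₅⟩ : ∃ C₅ : ℝ, C₅ = Real.log C₂ - Real.log ε₁ := ⟨_, rfl⟩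
  have hC₅0 : 0 ≤ C₅ := by
    rw [hC₅]
    have h1 : Real.log ε₁ ≤ 0 := Real.log_nonpos hε₁.le hε₁1
    have h2 : 0 ≤ Real.log C₂ := Real.log_nonneg hC₂1
    linarith
  obtain ⟨C₄, hC₄⟩ : ∃ C₄ : ℝ, C₄ = C₁ + C₅ + C₃ := ⟨_, rfl⟩
  filter_upwards [facts_svU q η ε₁ C₄ hη0 hε₁, smooth_ev η hη0 hη1] with L hf hsm
  obtain ⟨f1, f2, f3, f4, f5, f9, f10, f11, f12, f13⟩ := hf
  intro u w hu hw htau htau' W hW hWc
  obtain ⟨l, hl⟩ : ∃ l : ℝ, l = Real.log L := ⟨_, rfl⟩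
  rw [← hl] at f2 f3 f4 f5 f9 f10 f11 f12 f13 hsm htau htau' hWc ⊢
  obtain ⟨t, ht⟩ : ∃ t : ℝ, t = Real.log l := ⟨_, rfl⟩
  rw [← ht] at f3 f4 f9 f10 f11 f12 f13 hsm htau hWc
  obtain ⟨s, hs⟩ : ∃ s : ℝ, s = Real.log t := ⟨_, rfl⟩
  rw [← hs] at f4 f9 hsm hWc
  obtain ⟨V, hV⟩ : ∃ V : ℝ, V = (1 - η) * l * s / t := ⟨_, rfl⟩
  rw [← hV] at hsm
  obtain ⟨τ, hτ⟩ : ∃ τ : ℝ, τ = u + w := ⟨_, rfl⟩
  rw [← hτ] at hWc htau htau'
  have hL0 : 0 < L := by linarith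
  have hl0 : 0 < l := by linarith
  have ht0 : 0 < t := by linarith
  have hs0 : 0 < s := by linarith
  have h1η : 0 < 1 - η := by linarith
  have hτ0 : 0 < τ := by linarith
  -- `x`
  obtain ⟨x, hx⟩ : ∃ x : ℝ, x = ε₁ * L * Real.exp (-w) := ⟨_, rfl⟩
  rw [← hx]
  have hx0 : 0 < x := by rw [hx]; positivity
  have hxL : x ≤ L := by
    rw [hx]
    have h1 : ε₁ * L ≤ 1 * L := mul_le_mul_of_nonneg_right hε₁1 hL0.le
    have h2 : Real.exp (-w) ≤ 1 := Real.exp_le_one_iff.2 (by linarith)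
    have h3 : ε₁ * L * Real.exp (-w) ≤ ε₁ * L * 1 := mul_le_mul_of_nonneg_left h2 (by positivity)
    linarith
  have hlogx : Real.log x = Real.log ε₁ + l - w := by
    rw [hx, Real.log_mul (by positivity) (Real.exp_pos _).ne', Real.log_mul hε₁.ne' hL0.ne', ← hl,
      Real.log_exp]
    ring
  have hwl : w ≤ η / 4 * l := by
    have e1 : w ≤ δ * l := by linarith
    have e2 : δ * l ≤ ε / 160 * l := mul_le_mul_of_nonneg_right hδ hl0.le
    rw [hη]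
    linarith
  have hlx2 : l - η / 2 * l ≤ Real.log x := by rw [hlogx]; linarith
  have hlx1 : l / (1 + η) ≤ Real.log x := by
    rw [div_le_iff₀ (by linarith)]
    have e1 : (l - η / 2 * l) * (1 + η) ≤ Real.log x * (1 + η) :=
      mul_le_mul_of_nonneg_right hlx2 (by linarith)
    have e2 : l ≤ (l - η / 2 * l) * (1 + η) := by nlinarith [mul_pos hη0 hl0]
    linarith
  have hlx0 : 0 < Real.log x := lt_of_lt_of_le (by positivity) hlx1
  -- `M`, `T`, `N`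
  obtain ⟨M, hM⟩ : ∃ M : ℝ, M = Real.exp u * L := ⟨_, rfl⟩
  rw [← hM] at hW
  have hLM : L ≤ M := by
    rw [hM]
    have h1 : 1 ≤ Real.exp u := Real.one_le_exp hu
    have h2 := mul_le_mul_of_nonneg_right h1 hL0.le
    linarith
  have hM1 : 1 ≤ M := f1.trans hLM
  have hM0 : 0 < M := by linarith
  obtain ⟨T, hT⟩ : ∃ T : ℕ, T = ⌈M / η⌉₊ := ⟨_, rfl⟩
  have hT1 : M / η ≤ T := by rw [hT]; exact Nat.le_ceil _
  have hT2 : (T : ℝ) < M / η + 1 := by rw [hT]; exact Nat.ceil_lt_add_one (by positivity)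
  have hT0 : (0:ℝ) < T := lt_of_lt_of_le (by positivity) hT1
  have hT0' : 0 < T := by exact_mod_cast hT0
  have hMT : M ≤ η * T := by
    rw [div_le_iff₀ hη0] at hT1
    linarith
  obtain ⟨N, hN⟩ : ∃ N : ℕ, N = T + ⌊M⌋₊ := ⟨_, rfl⟩
  have hNr : (N : ℝ) = T + (⌊M⌋₊ : ℝ) := by rw [hN]; push_cast; ring
  have hMf : (⌊M⌋₊ : ℝ) ≤ M := Nat.floor_le hM0.le
  have hMf0 : (0:ℝ) ≤ (⌊M⌋₊ : ℝ) := Nat.cast_nonneg _
  have hNT : (N : ℝ) ≤ (1 + η) * T := by linarith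
  have hTM : M ≤ T := by
    have : η * T ≤ 1 * T := mul_le_mul_of_nonneg_right (by linarith) hT0.le
    linarith
  have hLN : L ≤ N := by linarith
  have hN0 : (0:ℝ) < N := by linarith
  have hxN : x ≤ N := hxL.trans hLN
  have hNC : (N : ℝ) ≤ C₂ * (Real.exp u * L) := by
    have e1 : M / η = 1 / η * M := by ring
    have e2 : C₂ * M = 1 / η * M + 2 * M := by rw [hC₂]; ring
    rw [← hM]
    linarith
  have hlogN : Real.log N ≤ Real.log x + τ + C₅ := by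
    have e1 : Real.log (C₂ * (Real.exp u * L)) = Real.log C₂ + u + l := by
      rw [Real.log_mul (by positivity) (by positivity), Real.log_mul (Real.exp_pos _).ne' hL0.ne',
        Real.log_exp, ← hl]
      ring
    have e2 := Real.log_le_log hN0 hNC
    rw [e1] at e2
    rw [hlogx, hτ, hC₅]
    linarith
  have hlogN0 : 0 < Real.log N := lt_of_lt_of_le hlx0 (Real.log_le_log hx0 hxN)
  -- `V`
  have hV0 : 0 < V := by rw [hV]; positivity
  have hVl : V ≤ (1 - η) * l := by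
    rw [hV, div_le_iff₀ ht0]
    exact mul_le_mul_of_nonneg_left f9 (mul_nonneg h1η.le hl0.le)
  have hVx : Real.exp V ≤ x := by
    rw [← Real.exp_log hx0]
    apply Real.exp_le_exp.2
    have : 0 < η * l := mul_pos hη0 hl0
    linarith
  have hVt : t ≤ V := by
    rw [hV, le_div_iff₀ ht0]
    have e1 : l * 1 ≤ l * s := mul_le_mul_of_nonneg_left f4 hl0.le
    have e2 : 1 / 2 * (l * s) ≤ (1 - η) * (l * s) :=
      mul_le_mul_of_nonneg_right (by linarith) (by positivity)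
    have e3 : (1 - η) * l * s = (1 - η) * (l * s) := by ring
    rw [e3]
    linarith
  have hV2 : (2:ℝ) ≤ Real.exp V := by
    have e2 := Real.add_one_le_exp V
    linarith
  have hqV : (q : ℝ) ≤ Real.exp V := by
    have hq0 : (0:ℝ) < q := by exact_mod_cast hq
    rw [← Real.exp_log hq0]
    exact Real.exp_le_exp.2 (f13.trans hVt)
  have hx2 : 2 ≤ x := hV2.trans hVx
  obtain ⟨b, hb⟩ := classesQ q hq ⌊Real.exp V⌋₊ T N x
    ((Nat.floor_le (Real.exp_pos _).le).trans hVx) (Nat.le_floor hqV) hT0' W (by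
      intro k hk
      obtain ⟨h1, h2⟩ := hW k hk
      have h3 : k ≤ ⌊M⌋₊ := Nat.le_floor h2
      exact ⟨h1, by omega⟩)
  refine ⟨b, ?_⟩
  obtain ⟨U, hU⟩ : ∃ U : ℝ, U = ((W.filter (fun k => ∀ p : ℕ, p.Prime →
        (p : ℝ) ≤ x → ¬ p ∣ q → ¬ k ≡ b p [MOD p])).card : ℝ) := ⟨_, rfl⟩
  rw [← hU] at hb ⊢
  have hpz : ∏ p ∈ Pz ⌊Real.exp V⌋₊, (1 - 1 / (p : ℝ)) = WW (Real.exp V) := by
    unfold WW Pz
    refine Finset.prod_congr ?_ fun _ _ => rfl
    ext p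
    simp only [Finset.mem_filter, Finset.mem_Ioc, Finset.mem_Icc]
    constructor
    · rintro ⟨⟨h1, h2⟩, h3⟩
      exact ⟨⟨by omega, h2⟩, h3⟩
    · rintro ⟨⟨h1, h2⟩, h3⟩
      exact ⟨⟨by omega, h2⟩, h3⟩
  rw [hpz] at hb
  -- the size of `RR`
  have hS := (abs_le.1 (hC₁ x N hx2 hxN)).2
  have hS' : ∑ q ∈ PR x N, 1 / (q : ℝ) ≤ Real.log (Real.log N / Real.log x) + C₁ / Real.log x := by
    linarith
  have hgs := gap_sumU η C₁ C₅ l t τ (Real.log N) (Real.log x) _ hη0 hη1 hC₁0 hC₅0 f2 f3 htau hlx0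
    hlx1 hlogN hlogN0 hS' (by
      have : 0 ≤ C₃ := hC₃0
      rw [hC₄] at f10
      linarith)
  have hRR : ((RR ⌊Real.exp V⌋₊ x N).card : ℝ) ≤ N * (τ * (1 + 2 * η) / l) := by
    have e1 := RR_card ⌊Real.exp V⌋₊ N x
    have e2 := hsm N hLN
    calc ((RR ⌊Real.exp V⌋₊ x N).card : ℝ) ≤ N / l + N * ∑ q ∈ PR x N, 1 / (q : ℝ) := by linarith
      _ = N * (1 / l + ∑ q ∈ PR x N, 1 / (q : ℝ)) := by ring
      _ ≤ _ := mul_le_mul_of_nonneg_left hgs hN0.le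
  -- the product
  have hVL : Real.exp V ≤ L := hVx.trans hxL
  have hWr := hC₃ (Real.exp V) L hV2 hVL
  rw [Real.log_exp] at hWr
  have hgp := gap_prod η C₃ l t s (Real.log L) V hη0 hη1 hC₃0 f2 f3 f4 hV (by
    rw [← hl]
    have : 0 < η * l := mul_pos hη0 hl0
    linarith) (by
    have h1 : C₃ ≤ C₄ := by rw [hC₄]; linarith
    have : (C₃ + 1) * t ≤ (C₄ + 1) * t := mul_le_mul_of_nonneg_right (by linarith) ht0.le
    linarith)
  have hWh := WW_pos L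
  have hWV : WW (Real.exp V) ≤ WW L * ((1 + η) ^ 2 * t / ((1 - η) * s)) :=
    hWr.trans (mul_le_mul_of_nonneg_left hgp hWh.le)
  have hnum := num_svQ ε hε hε1
  rw [← hη] at hnum
  obtain ⟨Q, hQ⟩ : ∃ Q : ℝ, Q = (1 + η) * ((1 + 2 * η) * (1 + η) ^ 2 / (1 - η)) := ⟨_, rfl⟩
  rw [← hQ] at hnum
  have hQ0 : 0 < Q := by rw [hQ]; positivity
  have hφ0 : (0:ℝ) < q.totient := by exact_mod_cast Nat.totient_pos.2 hq
  have hq0 : (0:ℝ) < q := by exact_mod_cast hq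
  have e1 : W.card * ((RR ⌊Real.exp V⌋₊ x N).card : ℝ) * q * WW (Real.exp V) * (2 * τ) ≤
      ((1 - ε) * q.totient * (L * l ^ 2 * s / t)) * (((1 + η) * T) * (τ * (1 + 2 * η) / l)) *
        (WW L * ((1 + η) ^ 2 * t / ((1 - η) * s))) := by
    have e2 : ((RR ⌊Real.exp V⌋₊ x N).card : ℝ) ≤ ((1 + η) * T) * (τ * (1 + 2 * η) / l) :=
      hRR.trans (mul_le_mul_of_nonneg_right hNT (by positivity))
    have e3 : W.card * ((RR ⌊Real.exp V⌋₊ x N).card : ℝ) * q * WW (Real.exp V) * (2 * τ) =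
      (W.card * q * (2 * τ)) * ((RR ⌊Real.exp V⌋₊ x N).card : ℝ) * WW (Real.exp V) := by ring
    rw [e3]
    have h1ε : 0 ≤ 1 - ε := by linarith
    have hWpos := (WW_pos (Real.exp V)).le
    gcongr
  have e4 : ((1 - ε) * q.totient * (L * l ^ 2 * s / t)) * (((1 + η) * T) *
      (τ * (1 + 2 * η) / l)) * (WW L * ((1 + η) ^ 2 * t / ((1 - η) * s))) =
      ((1 - ε) * Q) * (q.totient * T * τ * (L * l * WW L)) := by
    rw [hQ]
    field_simp
  have e5 : ((1 - ε) * Q) * (q.totient * T * τ * (L * l * WW L)) ≤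
      (1 - ε / 4) * (q.totient * T * τ * (L * l * WW L)) :=
    mul_le_mul_of_nonneg_right hnum (by positivity)
  have e6 : U * T * q.totient * (2 * τ) ≤ (1 - ε / 4) * (q.totient * T * τ * (L * l * WW L)) := by
    have := mul_le_mul_of_nonneg_right hb (show 0 ≤ 2 * τ by positivity)
    linarith
  have e7 : ((1 - ε / 4) / 2 * L * l * WW L) * (T * q.totient * (2 * τ)) =
      (1 - ε / 4) * (q.totient * T * τ * (L * l * WW L)) := by ring
  have e8 : U * (T * q.totient * (2 * τ)) ≤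
      ((1 - ε / 4) / 2 * L * l * WW L) * (T * q.totient * (2 * τ)) := by
    rw [e7]
    linarith
  exact le_of_mul_le_mul_right e8 (by positivity)

end Pool.Agent.H50.A
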